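import Mathlib

set_option autoImplicit false

open scoped BigOperators

noncomputable section

namespace R357Jar

/-- integer vectors of `ℤ^{d+1}`, split as first coordinate and the other `d`. -/
abbrev ZV (d : ℕ) := ℤ × (Fin d → ℤ)

variable {d m : ℕ}

/-- the `m` linear forms on real vectors `(q, x)`. -/
def lin (A0 : Fin m → ℝ) (A1 : Fin d → Fin m → ℝ) (q : ℝ) (x : Fin d → ℝ) (j : Fin m) : ℝ :=
  q * A0 j + ∑ l, x l * A1 l j

/-- the linear forms on integer vectors. -/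
def zlin (A0 : Fin m → ℝ) (A1 : Fin d → Fin m → ℝ) (z : ZV d) (j : Fin m) : ℝ :=
  lin A0 A1 (z.1 : ℝ) (fun l => (z.2 l : ℝ)) j

lemma zlin_sub (A0 : Fin m → ℝ) (A1 : Fin d → Fin m → ℝ) (z w : ZV d) (j : Fin m) :
    zlin A0 A1 (z - w) j = zlin A0 A1 z j - zlin A0 A1 w j := by
  simp only [zlin, lin, Prod.fst_sub, Prod.snd_sub, Pi.sub_apply, Int.cast_sub, sub_mul,
    Finset.sum_sub_distrib]
  ring

lemma zlin_add (A0 : Fin m → ℝ) (A1 : Fin d → Fin m → ℝ) (z w : ZV d) (j : Fin m) :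
    zlin A0 A1 (z + w) j = zlin A0 A1 z j + zlin A0 A1 w j := by
  simp only [zlin, lin, Prod.fst_add, Prod.snd_add, Pi.add_apply, Int.cast_add, add_mul,
    Finset.sum_add_distrib]
  ring

/-- lattice vectors in the tube. -/
def E (A0 : Fin m → ℝ) (A1 : Fin d → Fin m → ℝ) (c : Fin d → ℝ) (ρ t δ : ℝ) : Set (ZV d) :=
  {z | |(z.1 : ℝ)| ≤ t ∧ (∀ l, |(z.2 l : ℝ) - z.1 * c l| ≤ ρ * t) ∧
    ∀ j, ∃ n : ℤ, |zlin A0 A1 z j - n| ≤ δ}

lemma E_finite (A0 : Fin m → ℝ) (A1 : Fin d → Fin m → ℝ) {c : Fin d → ℝ} (hc : ∀ l, |c l| ≤ 1)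
    {ρ : ℝ} (hρ1 : ρ ≤ 1) (t δ : ℝ) : (E A0 A1 c ρ t δ).Finite := by
  apply Set.Finite.subset
    ((Set.finite_Icc (-⌈2*t⌉) ⌈2*t⌉).prod
      (Set.Finite.pi' (fun _ : Fin d => Set.finite_Icc (-⌈2*t⌉) ⌈2*t⌉)))
  intro z hz
  obtain ⟨h1, h2, -⟩ := hz
  have ht : 0 ≤ t := le_trans (abs_nonneg _) h1
  have hceil : 2 * t ≤ (⌈2*t⌉ : ℝ) := Int.le_ceil _
  have key : ∀ a : ℤ, |(a : ℝ)| ≤ 2 * t → -⌈2*t⌉ ≤ a ∧ a ≤ ⌈2*t⌉ := by
    intro a ha
    rw [abs_le] at ha
    constructor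
    · have : (-(⌈2*t⌉ : ℤ) : ℝ) ≤ (a : ℝ) := by linarith [ha.1]
      exact_mod_cast this
    · have : (a : ℝ) ≤ (⌈2*t⌉ : ℝ) := by linarith [ha.2]
      exact_mod_cast this
  have k1 := key z.1 (by linarith)
  have k2 : ∀ l, -⌈2*t⌉ ≤ z.2 l ∧ z.2 l ≤ ⌈2*t⌉ := by
    intro l
    apply key
    have h3 := h2 l
    have h4 : |(z.1 : ℝ) * c l| ≤ t := by
      rw [abs_mul]
      calc |(z.1 : ℝ)| * |c l| ≤ t * 1 := mul_le_mul h1 (hc l) (abs_nonneg _) ht
        _ = t := mul_one t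
    have h5 : ρ * t ≤ t := by nlinarith
    calc |(z.2 l : ℝ)| = |((z.2 l : ℝ) - z.1 * c l) + z.1 * c l| := by ring_nf
      _ ≤ |(z.2 l : ℝ) - z.1 * c l| + |(z.1 : ℝ) * c l| := abs_add_le _ _
      _ ≤ 2 * t := by linarith
  exact ⟨k1, fun l => k2 l⟩

lemma sub_floor_lt {a b : ℝ} (h : ⌊a⌋ = ⌊b⌋) : |a - b| < 1 := by
  exact Int.abs_sub_lt_one_of_floor_eq_floor h

lemma mem_E_of_cell (A0 : Fin m → ℝ) (A1 : Fin d → Fin m → ℝ) {c : Fin d → ℝ}
    {ρ t δ : ℝ} (hρ : 0 < ρ) (ht : 0 < t) (hδ : 0 < δ) (z w : ZV d)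
    (h1 : ⌊(z.1 : ℝ) / t⌋ = ⌊(w.1 : ℝ) / t⌋)
    (h2 : ∀ l, ⌊((z.2 l : ℝ) - z.1 * c l) / (ρ * t)⌋ = ⌊((w.2 l : ℝ) - w.1 * c l) / (ρ * t)⌋)
    (h3 : ∀ j, ⌊(zlin A0 A1 z j - round (zlin A0 A1 z j)) / δ⌋ =
      ⌊(zlin A0 A1 w j - round (zlin A0 A1 w j)) / δ⌋) :
    z - w ∈ E A0 A1 c ρ t δ := by
  have gen : ∀ (x y e : ℝ), 0 < e → ⌊x / e⌋ = ⌊y / e⌋ → |x - y| ≤ e := by
    intro x y e he h
    have := sub_floor_lt h
    rw [← sub_div, abs_div, abs_of_pos he, div_lt_one he] at this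
    exact this.le
  refine ⟨?_, ?_, ?_⟩
  · have := gen _ _ t ht h1
    simpa using this
  · intro l
    have := gen _ _ (ρ * t) (by positivity) (h2 l)
    have e : ((z - w).2 l : ℝ) - (z - w).1 * c l =
        ((z.2 l : ℝ) - z.1 * c l) - ((w.2 l : ℝ) - w.1 * c l) := by
      simp only [Prod.fst_sub, Prod.snd_sub, Pi.sub_apply, Int.cast_sub]; ring
    rw [e]; exact this
  · intro j
    refine ⟨round (zlin A0 A1 z j) - round (zlin A0 A1 w j), ?_⟩
    have := gen _ _ δ hδ (h3 j)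
    rw [zlin_sub]
    push_cast
    have e : zlin A0 A1 z j - zlin A0 A1 w j -
        ((round (zlin A0 A1 z j) : ℝ) - (round (zlin A0 A1 w j) : ℝ)) =
        (zlin A0 A1 z j - round (zlin A0 A1 z j)) - (zlin A0 A1 w j - round (zlin A0 A1 w j)) := by
      ring
    rw [e]; exact this

/-- if each fibre's differences from a base point lie in a finite set of size `k`. -/
lemma card_le_of_fibres {α : Type*} [AddGroup α] [DecidableEq α] {β : Type*} [DecidableEq β]
    (S T : Finset α) (f : α → β) (C : Finset β)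
    (hC : ∀ z ∈ S, f z ∈ C)
    (hf : ∀ z ∈ S, ∀ w ∈ S, f z = f w → z - w ∈ T) : S.card ≤ C.card * T.card := by
  have h := Finset.card_le_mul_card_image (f := f) S T.card ?_
  · calc S.card ≤ T.card * (S.image f).card := h
      _ ≤ T.card * C.card := by
        apply Nat.mul_le_mul_left
        apply Finset.card_le_card
        intro b hb
        rw [Finset.mem_image] at hb
        obtain ⟨z, hz, rfl⟩ := hb
        exact hC z hz
      _ = C.card * T.card := Nat.mul_comm _ _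
  · intro a ha
    rw [Finset.mem_image] at ha
    obtain ⟨w, hw, rfl⟩ := ha
    apply Finset.card_le_card_of_injOn (fun z => z - w)
    · intro z hz
      simp only [Finset.coe_filter, Set.mem_ofPred_eq] at hz
      exact hf z hz.1 w hw hz.2
    · intro z _ z' _ h
      exact sub_left_injective h

lemma doubling (A0 : Fin m → ℝ) (A1 : Fin d → Fin m → ℝ) {c : Fin d → ℝ} (hc : ∀ l, |c l| ≤ 1)
    {ρ t δ : ℝ} (hρ : 0 < ρ) (hρ1 : ρ ≤ 1) (ht : 0 < t) (hδ : 0 < δ) :
    (E A0 A1 c ρ (2*t) (2*δ)).ncard ≤ 5^(1+d+m) * (E A0 A1 c ρ t δ).ncard := by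
  classical
  rw [Set.ncard_eq_toFinset_card _ (E_finite A0 A1 hc hρ1 (2*t) (2*δ)),
    Set.ncard_eq_toFinset_card _ (E_finite A0 A1 hc hρ1 t δ)]
  set S := (E_finite A0 A1 hc hρ1 (2*t) (2*δ)).toFinset
  set T := (E_finite A0 A1 hc hρ1 t δ).toFinset
  let f : ZV d → ℤ × ((Fin d → ℤ) × (Fin m → ℤ)) := fun z =>
    (⌊(z.1 : ℝ) / t⌋, (fun l => ⌊((z.2 l : ℝ) - z.1 * c l) / (ρ * t)⌋,
      fun j => ⌊(zlin A0 A1 z j - round (zlin A0 A1 z j)) / δ⌋))
  let C : Finset (ℤ × ((Fin d → ℤ) × (Fin m → ℤ))) :=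
    (Finset.Icc (-2) 2) ×ˢ ((Fintype.piFinset fun _ => Finset.Icc (-2) 2) ×ˢ
      (Fintype.piFinset fun _ => Finset.Icc (-2) 2))
  have gen : ∀ (x e : ℝ), 0 < e → |x| ≤ 2 * e → ⌊x / e⌋ ∈ Finset.Icc (-2 : ℤ) 2 := by
    intro x e he h
    rw [abs_le] at h
    rw [Finset.mem_Icc]
    constructor
    · apply Int.le_floor.mpr
      rw [le_div_iff₀ he]; push_cast; linarith [h.1]
    · apply Int.le_of_lt_add_one
      apply Int.floor_lt.mpr
      rw [div_lt_iff₀ he]; push_cast; linarith [h.2]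
  have hcard := card_le_of_fibres S T f C ?_ ?_
  · refine hcard.trans (le_of_eq ?_)
    congr 1
    simp only [C, Finset.card_product, Fintype.card_piFinset_const, Int.card_Icc]
    have h5 : (2 + 1 - (-2) : ℤ).toNat = 5 := rfl
    rw [h5]
    ring
  · intro z hz
    rw [Set.Finite.mem_toFinset] at hz
    obtain ⟨h1, h2, h3⟩ := hz
    simp only [C, Finset.mem_product, Fintype.mem_piFinset, f]
    refine ⟨gen _ t ht h1, fun l => gen _ _ (by positivity) ?_, fun j => gen _ δ hδ ?_⟩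
    · have := h2 l
      linarith
    · obtain ⟨n, hn⟩ := h3 j
      exact (round_le _ n).trans hn
  · intro z _ w _ h
    rw [Set.Finite.mem_toFinset]
    simp only [f, Prod.mk.injEq] at h
    obtain ⟨h1, h2, h3⟩ := h
    exact mem_E_of_cell A0 A1 hρ ht hδ z w h1 (fun l => congrFun h2 l) (fun j => congrFun h3 j)

/-- integer points in a sup-norm ball. -/
lemma card_ball_le (S : Finset (Fin d → ℤ)) (κ : Fin d → ℝ) (Y : ℝ) (hY : 0 ≤ Y)
    (h : ∀ z ∈ S, ∀ l, |(z l : ℝ) - κ l| ≤ Y) : (S.card : ℝ) ≤ (2 * Y + 1) ^ d := by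
  classical
  have hsub : S ⊆ Fintype.piFinset (fun l => Finset.Icc ⌈κ l - Y⌉ ⌊κ l + Y⌋) := by
    intro z hz
    rw [Fintype.mem_piFinset]
    intro l
    have := abs_le.mp (h z hz l)
    rw [Finset.mem_Icc]
    exact ⟨Int.ceil_le.mpr (by linarith [this.1]), Int.le_floor.mpr (by linarith [this.2])⟩
  calc (S.card : ℝ) ≤ ((Fintype.piFinset (fun l => Finset.Icc ⌈κ l - Y⌉ ⌊κ l + Y⌋)).card : ℝ) := by
        exact_mod_cast Finset.card_le_card hsub
    _ = ∏ l : Fin d, ((Finset.Icc ⌈κ l - Y⌉ ⌊κ l + Y⌋).card : ℝ) := by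
        rw [Fintype.card_piFinset]; push_cast; rfl
    _ ≤ ∏ _l : Fin d, (2 * Y + 1) := by
        apply Finset.prod_le_prod
        · intro l _; positivity
        · intro l _
          rw [Int.card_Icc]
          have h1 := Int.floor_le (κ l + Y)
          have h2 := Int.le_ceil (κ l - Y)
          have h3 : ((⌊κ l + Y⌋ + 1 - ⌈κ l - Y⌉).toNat : ℝ) ≤ max (2 * Y + 1) 0 := by
            rcases le_or_gt 0 (⌊κ l + Y⌋ + 1 - ⌈κ l - Y⌉) with h0 | h0
            · have e : ((⌊κ l + Y⌋ + 1 - ⌈κ l - Y⌉).toNat : ℝ) =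
                  ((⌊κ l + Y⌋ + 1 - ⌈κ l - Y⌉ : ℤ) : ℝ) := by
                exact_mod_cast Int.toNat_of_nonneg h0
              rw [e]; push_cast
              apply le_max_of_le_left; linarith
            · rw [Int.toNat_of_nonpos h0.le]; simp
          rwa [max_eq_left (by linarith)] at h3
    _ = (2 * Y + 1) ^ d := by simp

lemma card_label (l0 : Fin m) (N : ℕ) :
    (Fintype.piFinset (fun j : Fin m => if j = l0 then ({0} : Finset ℤ) else
      Finset.Icc (0 : ℤ) (N - 1))).card = N ^ (m - 1) := by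
  classical
  rw [Fintype.card_piFinset, ← Finset.mul_prod_erase Finset.univ _ (Finset.mem_univ l0)]
  have h1 : ∀ j ∈ Finset.univ.erase l0,
      (if j = l0 then ({0} : Finset ℤ) else Finset.Icc (0 : ℤ) (N - 1)).card = N := by
    intro j hj
    rw [if_neg (Finset.ne_of_mem_erase hj), Int.card_Icc]
    have : (N : ℤ) - 1 + 1 - 0 = N := by ring
    rw [this]; simp
  rw [Finset.prod_congr rfl h1]
  simp

lemma pigeon (A0 : Fin m → ℝ) (A1 : Fin d → Fin m → ℝ) {c : Fin d → ℝ} (hc : ∀ l, |c l| ≤ 1)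
    {ρ : ℝ} (hρ1 : ρ ≤ 1) (q0 : Fin m → ℤ) (H : ℤ) (hH : 1 ≤ H)
    (hqH : ∀ j, |q0 j| ≤ H) (l0 : Fin m) (hl0 : |q0 l0| = H)
    (p0 : ℤ) (p1 : Fin d → ℤ) (η : ℝ)
    (h0 : |∑ j, A0 j * q0 j - p0| ≤ η) (h1 : ∀ l, |∑ j, A1 l j * q0 j - p1 l| ≤ η)
    (Q N B : ℕ) (hN : 1 ≤ N) (hB : 2 * (B : ℝ) + 2 ≤ ρ * Q)
    (ψ : ℝ) (hψ1 : 1 / (N : ℝ) ≤ ψ)
    (hψ2 : (2 * ((d + 1) * (2 * Q) * η)) / H + m / N ≤ ψ) :
    (Q + 1) * (2 * B + 1) ^ d ≤ ((2 * (m * H) + 3).toNat * N ^ (m - 1)) *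
      (E A0 A1 c ρ Q ψ).ncard := by
  classical
  rw [Set.ncard_eq_toFinset_card _ (E_finite A0 A1 hc hρ1 (Q : ℝ) ψ)]
  set T := (E_finite A0 A1 hc hρ1 (Q : ℝ) ψ).toFinset with hT
  have hη : 0 ≤ η := le_trans (abs_nonneg _) h0
  have hHr : (1 : ℝ) ≤ H := by exact_mod_cast hH
  have hNr : (1 : ℝ) ≤ N := by exact_mod_cast hN
  have hQB : (B : ℝ) + 1 ≤ Q := by
    have hQ0 : (0 : ℝ) ≤ Q := by positivity
    have hB0 : (0 : ℝ) ≤ B := by positivity
    nlinarith
  -- the test set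
  let emb : ℤ × (Fin d → ℤ) → ZV d := fun p => (p.1, fun l => ⌊(p.1 : ℝ) * c l⌋ + p.2 l)
  have emb_inj : Function.Injective emb := by
    intro p p' h
    simp only [emb, Prod.mk.injEq] at h
    obtain ⟨e1, e2⟩ := h
    refine Prod.ext e1 ?_
    funext l
    have := congrFun e2 l
    simp only [e1] at this
    linarith
  let P : Finset (ℤ × (Fin d → ℤ)) := (Finset.Icc (0 : ℤ) Q) ×ˢ
    (Fintype.piFinset fun _ : Fin d => Finset.Icc (-(B : ℤ)) B)
  let S : Finset (ZV d) := P.image emb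
  have hScard : S.card = (Q + 1) * (2 * B + 1) ^ d := by
    rw [Finset.card_image_of_injective _ emb_inj, Finset.card_product,
      Fintype.card_piFinset_const, Int.card_Icc, Int.card_Icc]
    have t1 : ((Q : ℤ) + 1 - 0) = ((Q + 1 : ℕ) : ℤ) := by push_cast; ring
    have t2 : ((B : ℤ) + 1 - -(B : ℤ)) = ((2 * B + 1 : ℕ) : ℤ) := by push_cast; ring
    rw [t1, t2, Int.toNat_natCast, Int.toNat_natCast]
  -- facts about members of S
  have hS : ∀ z ∈ S, 0 ≤ z.1 ∧ z.1 ≤ Q ∧ (∀ l, -(B : ℝ) - 1 ≤ (z.2 l : ℝ) - z.1 * c l ∧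
      (z.2 l : ℝ) - z.1 * c l ≤ B) := by
    intro z hz
    simp only [S, Finset.mem_image, P, Finset.mem_product, Fintype.mem_piFinset,
      Finset.mem_Icc] at hz
    obtain ⟨p, ⟨⟨hp1, hp2⟩, hp3⟩, rfl⟩ := hz
    refine ⟨hp1, hp2, ?_⟩
    intro l
    simp only [emb]
    push_cast
    have f1 := Int.floor_le ((p.1 : ℝ) * c l)
    have f2 := Int.lt_floor_add_one ((p.1 : ℝ) * c l)
    have g1 : (-(B : ℝ)) ≤ p.2 l := by exact_mod_cast (hp3 l).1
    have g2 : (p.2 l : ℝ) ≤ B := by exact_mod_cast (hp3 l).2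
    constructor <;> linarith
  let S1 : ZV d → ℝ := fun z => ∑ j, (q0 j : ℝ) * Int.fract (zlin A0 A1 z j)
  have hS1 : ∀ z ∈ S, |S1 z - round (S1 z)| ≤ (d + 1) * (2 * Q) * η := by
    intro z hz
    obtain ⟨hz1, hz2, hz3⟩ := hS z hz
    have hz1r : (0 : ℝ) ≤ z.1 := by exact_mod_cast hz1
    have hz2r : (z.1 : ℝ) ≤ Q := by exact_mod_cast hz2
    let k : ℤ := z.1 * p0 + ∑ l, z.2 l * p1 l - ∑ j, q0 j * ⌊zlin A0 A1 z j⌋
    refine (round_le (S1 z) k).trans ?_
    have e : S1 z - k = z.1 * (∑ j, A0 j * q0 j - p0) +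
        ∑ l, (z.2 l : ℝ) * (∑ j, A1 l j * q0 j - p1 l) := by
      have e1 : S1 z = ∑ j, (q0 j : ℝ) * zlin A0 A1 z j -
          ∑ j, (q0 j : ℝ) * (⌊zlin A0 A1 z j⌋ : ℝ) := by
        simp only [S1, Int.fract, mul_sub, Finset.sum_sub_distrib]
      have e2 : ∑ j, (q0 j : ℝ) * zlin A0 A1 z j = z.1 * ∑ j, A0 j * q0 j +
          ∑ l, (z.2 l : ℝ) * ∑ j, A1 l j * q0 j := by
        simp only [zlin, lin, mul_add, Finset.sum_add_distrib, Finset.mul_sum]
        congr 1
        · apply Finset.sum_congr rfl; intro j _; ring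
        · rw [Finset.sum_comm]
          apply Finset.sum_congr rfl; intro l _
          apply Finset.sum_congr rfl; intro j _; ring
      rw [e1, e2]
      simp only [k]
      push_cast
      simp only [mul_sub, Finset.sum_sub_distrib]
      ring
    rw [e]
    have b1 : |(z.1 : ℝ) * (∑ j, A0 j * q0 j - p0)| ≤ 2 * Q * η := by
      rw [abs_mul, abs_of_nonneg hz1r]
      apply mul_le_mul _ h0 (abs_nonneg _) (by positivity)
      linarith
    have b2 : ∀ l, |(z.2 l : ℝ) * (∑ j, A1 l j * q0 j - p1 l)| ≤ 2 * Q * η := by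
      intro l
      rw [abs_mul]
      apply mul_le_mul _ (h1 l) (abs_nonneg _) (by positivity)
      have h4 : |(z.1 : ℝ) * c l| ≤ Q := by
        rw [abs_mul, abs_of_nonneg hz1r]
        calc (z.1 : ℝ) * |c l| ≤ Q * 1 := mul_le_mul hz2r (hc l) (abs_nonneg _) (by positivity)
          _ = Q := mul_one _
      have h5 : |(z.2 l : ℝ) - z.1 * c l| ≤ Q := by
        rw [abs_le]; constructor <;> linarith [(hz3 l).1, (hz3 l).2]
      calc |(z.2 l : ℝ)| = |((z.2 l : ℝ) - z.1 * c l) + z.1 * c l| := by ring_nf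
        _ ≤ |(z.2 l : ℝ) - z.1 * c l| + |(z.1 : ℝ) * c l| := abs_add_le _ _
        _ ≤ 2 * Q := by linarith
    calc |(z.1 : ℝ) * (∑ j, A0 j * q0 j - p0) +
        ∑ l, (z.2 l : ℝ) * (∑ j, A1 l j * q0 j - p1 l)|
        ≤ |(z.1 : ℝ) * (∑ j, A0 j * q0 j - p0)| +
          |∑ l, (z.2 l : ℝ) * (∑ j, A1 l j * q0 j - p1 l)| := abs_add_le _ _
      _ ≤ 2 * Q * η + ∑ _l : Fin d, 2 * Q * η := by
          apply add_le_add b1
          exact (Finset.abs_sum_le_sum_abs _ _).trans (Finset.sum_le_sum fun l _ => b2 l)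
      _ = (d + 1) * (2 * Q) * η := by
          simp; ring
  let f : ZV d → ℤ × (Fin m → ℤ) := fun z =>
    (round (S1 z), fun j => if j = l0 then 0 else ⌊(N : ℝ) * Int.fract (zlin A0 A1 z j)⌋)
  let C : Finset (ℤ × (Fin m → ℤ)) := (Finset.Icc (-(m * H + 1)) (m * H + 1)) ×ˢ
    (Fintype.piFinset (fun j : Fin m => if j = l0 then ({0} : Finset ℤ) else
      Finset.Icc (0 : ℤ) (N - 1)))
  have hcard := card_le_of_fibres S T f C ?_ ?_
  · rw [hScard] at hcard
    refine hcard.trans (le_of_eq ?_)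
    congr 1
    simp only [C]
    rw [Finset.card_product, card_label, Int.card_Icc]
    congr 2
    ring
  · intro z hz
    simp only [C, Finset.mem_product, Fintype.mem_piFinset, f]
    constructor
    · -- range of round
      have hb : |S1 z| ≤ m * H := by
        calc |S1 z| ≤ ∑ j, |(q0 j : ℝ) * Int.fract (zlin A0 A1 z j)| :=
              Finset.abs_sum_le_sum_abs _ _
          _ ≤ ∑ _j : Fin m, (H : ℝ) := by
              apply Finset.sum_le_sum
              intro j _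
              rw [abs_mul, abs_of_nonneg (Int.fract_nonneg (zlin A0 A1 z j))]
              have : |(q0 j : ℝ)| ≤ H := by exact_mod_cast hqH j
              calc |(q0 j : ℝ)| * Int.fract (zlin A0 A1 z j) ≤ H * 1 :=
                    mul_le_mul this (Int.fract_lt_one _).le (Int.fract_nonneg _) (by positivity)
                _ = H := mul_one _
          _ = m * H := by simp
      have hr := abs_le.mp (abs_sub_round (S1 z))
      rw [abs_le] at hb
      rw [Finset.mem_Icc]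
      constructor
      · have : ((-(m * H + 1) : ℤ) : ℝ) ≤ (round (S1 z) : ℝ) := by
          push_cast; linarith [hr.2, hb.1]
        exact_mod_cast this
      · have : (round (S1 z) : ℝ) ≤ ((m * H + 1 : ℤ) : ℝ) := by
          push_cast; linarith [hr.1, hb.2]
        exact_mod_cast this
    · intro j
      by_cases hj : j = l0
      · simp [hj]
      · simp only [if_neg hj, Finset.mem_Icc]
        constructor
        · apply Int.floor_nonneg.mpr
          exact mul_nonneg (by positivity) (Int.fract_nonneg _)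
        · apply Int.le_sub_one_of_lt
          apply Int.floor_lt.mpr
          push_cast
          have := Int.fract_lt_one (zlin A0 A1 z j)
          nlinarith
  · intro z hz w hw h
    simp only [f, Prod.mk.injEq] at h
    obtain ⟨e1, e2⟩ := h
    obtain ⟨hz1, hz2, hz3⟩ := hS z hz
    obtain ⟨hw1, hw2, hw3⟩ := hS w hw
    rw [hT, Set.Finite.mem_toFinset]
    -- closeness of fractional parts
    have hfr : ∀ j, j ≠ l0 → |Int.fract (zlin A0 A1 z j) - Int.fract (zlin A0 A1 w j)| ≤ 1 / N := by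
      intro j hj
      have := congrFun e2 j
      simp only [if_neg hj] at this
      have h3 := sub_floor_lt this
      rw [← mul_sub, abs_mul, abs_of_nonneg (by positivity : (0:ℝ) ≤ N)] at h3
      rw [le_div_iff₀ (by linarith)]
      linarith
    have hl : |Int.fract (zlin A0 A1 z l0) - Int.fract (zlin A0 A1 w l0)| ≤ ψ := by
      have a1 := hS1 z hz
      have a2 := hS1 w hw
      rw [e1] at a1
      have a3 : |S1 z - S1 w| ≤ 2 * ((d + 1) * (2 * Q) * η) := by
        calc |S1 z - S1 w| = |(S1 z - round (S1 w)) - (S1 w - round (S1 w))| := by ring_nf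
          _ ≤ |S1 z - round (S1 w)| + |S1 w - round (S1 w)| := abs_sub _ _
          _ ≤ _ := by linarith
      have a4 : S1 z - S1 w = (q0 l0 : ℝ) *
          (Int.fract (zlin A0 A1 z l0) - Int.fract (zlin A0 A1 w l0)) +
          ∑ j ∈ Finset.univ.erase l0, (q0 j : ℝ) *
          (Int.fract (zlin A0 A1 z j) - Int.fract (zlin A0 A1 w j)) := by
        rw [Finset.add_sum_erase Finset.univ (fun j => (q0 j : ℝ) *
          (Int.fract (zlin A0 A1 z j) - Int.fract (zlin A0 A1 w j))) (Finset.mem_univ l0)]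
        simp only [S1, mul_sub, Finset.sum_sub_distrib]
      have a5 : |∑ j ∈ Finset.univ.erase l0, (q0 j : ℝ) *
          (Int.fract (zlin A0 A1 z j) - Int.fract (zlin A0 A1 w j))| ≤ m * (H / N) := by
        calc _ ≤ ∑ j ∈ Finset.univ.erase l0, |(q0 j : ℝ) *
              (Int.fract (zlin A0 A1 z j) - Int.fract (zlin A0 A1 w j))| :=
              Finset.abs_sum_le_sum_abs _ _
          _ ≤ ∑ _j ∈ Finset.univ.erase l0, (H : ℝ) / N := by
              apply Finset.sum_le_sum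
              intro j hj
              rw [abs_mul]
              have : |(q0 j : ℝ)| ≤ H := by exact_mod_cast hqH j
              calc _ ≤ (H : ℝ) * (1 / N) := mul_le_mul this
                    (hfr j (Finset.ne_of_mem_erase hj)) (abs_nonneg _) (by positivity)
                _ = H / N := by ring
          _ = ((Finset.univ.erase l0).card : ℝ) * (H / N) := by
              rw [Finset.sum_const, nsmul_eq_mul]
          _ ≤ m * (H / N) := by
              apply mul_le_mul_of_nonneg_right _ (by positivity)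
              have := Finset.card_erase_le (s := (Finset.univ : Finset (Fin m))) (a := l0)
              simp at this
              have h5 : (Finset.univ.erase l0).card ≤ m := by
                refine (Finset.card_erase_le).trans ?_
                simp
              exact_mod_cast h5
      have a6 : |(q0 l0 : ℝ)| = H := by
        rw [← hl0]; push_cast; rfl
      have a7 : (H : ℝ) * |Int.fract (zlin A0 A1 z l0) - Int.fract (zlin A0 A1 w l0)| ≤
          2 * ((d + 1) * (2 * Q) * η) + m * (H / N) := by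
        rw [← a6, ← abs_mul]
        have : (q0 l0 : ℝ) * (Int.fract (zlin A0 A1 z l0) - Int.fract (zlin A0 A1 w l0)) =
            (S1 z - S1 w) - ∑ j ∈ Finset.univ.erase l0, (q0 j : ℝ) *
          (Int.fract (zlin A0 A1 z j) - Int.fract (zlin A0 A1 w j)) := by
          rw [a4]; ring
        rw [this]
        rw [← a6] at a5
        exact (abs_sub _ _).trans (by rw [← a6] at *; linarith)
      refine le_trans ?_ hψ2
      have hHpos : (0 : ℝ) < H := by linarith
      have : (2 * ((d + 1) * (2 * Q) * η)) / H + m / N =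
          (2 * ((d + 1) * (2 * (Q : ℝ)) * η) + m * (H / N)) / H := by
        field_simp
      rw [this, le_div_iff₀ hHpos]
      linarith
    refine ⟨?_, ?_, ?_⟩
    · simp only [Prod.fst_sub]
      have a1 : (0 : ℝ) ≤ z.1 := by exact_mod_cast hz1
      have a2 : (z.1 : ℝ) ≤ Q := by exact_mod_cast hz2
      have a3 : (0 : ℝ) ≤ w.1 := by exact_mod_cast hw1
      have a4 : (w.1 : ℝ) ≤ Q := by exact_mod_cast hw2
      push_cast
      rw [abs_le]; constructor <;> linarith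
    · intro l
      have e : ((z - w).2 l : ℝ) - (z - w).1 * c l =
          ((z.2 l : ℝ) - z.1 * c l) - ((w.2 l : ℝ) - w.1 * c l) := by
        simp only [Prod.fst_sub, Prod.snd_sub, Pi.sub_apply, Int.cast_sub]; ring
      rw [e, abs_le]
      constructor <;> linarith [(hz3 l).1, (hz3 l).2, (hw3 l).1, (hw3 l).2]
    · intro j
      refine ⟨⌊zlin A0 A1 z j⌋ - ⌊zlin A0 A1 w j⌋, ?_⟩
      have e : zlin A0 A1 (z - w) j - ((⌊zlin A0 A1 z j⌋ - ⌊zlin A0 A1 w j⌋ : ℤ) : ℝ) =
          Int.fract (zlin A0 A1 z j) - Int.fract (zlin A0 A1 w j) := by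
        rw [zlin_sub, Int.fract, Int.fract]; push_cast; ring
      rw [e]
      by_cases hj : j = l0
      · rw [hj]; exact hl
      · exact (hfr j hj).trans hψ1

end R357Jar
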