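import Pool.Agent.R357.Jar1

set_option autoImplicit false

open scoped BigOperators

noncomputable section

namespace R357Jar

variable {d m : ℕ}

lemma bohr (A0 : Fin m → ℝ) (A1 : Fin d → Fin m → ℝ) {τ : ℝ} (hτ : 0 < τ) :
    ∃ R : ℕ, ∀ v : ZV d, ∃ w : ZV d, |w.1| ≤ (R : ℤ) ∧ (∀ l, |w.2 l| ≤ (R : ℤ)) ∧
      ∀ j, ∃ n : ℤ, |zlin A0 A1 (v + w) j - n| ≤ τ := by
  classical
  let f : ZV d → (Fin m → ℤ) := fun z j => ⌊Int.fract (zlin A0 A1 z j) / τ⌋
  have hfin : (Set.range f).Finite := by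
    apply Set.Finite.subset (Set.Finite.pi' (fun _ : Fin m => Set.finite_Icc (0 : ℤ) ⌊1 / τ⌋))
    rintro _ ⟨z, rfl⟩ j
    constructor
    · exact Int.floor_nonneg.mpr (div_nonneg (Int.fract_nonneg _) hτ.le)
    · apply Int.floor_le_floor
      exact div_le_div_of_nonneg_right (Int.fract_lt_one _).le hτ.le
  have hrep : ∀ κ : Fin m → ℤ, ∃ z : ZV d, κ ∈ Set.range f → f z = κ := by
    intro κ
    by_cases h : κ ∈ Set.range f
    · obtain ⟨z, hz⟩ := h
      exact ⟨z, fun _ => hz⟩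
    · exact ⟨0, fun h' => absurd h' h⟩
  choose rep hrep using hrep
  let b : ZV d → ℕ := fun z => z.1.natAbs + ∑ l, (z.2 l).natAbs
  let R : ℕ := hfin.toFinset.sup (fun κ => b (rep κ))
  refine ⟨R, fun v => ⟨-rep (f v), ?_, ?_, ?_⟩⟩
  · have h1 : b (rep (f v)) ≤ R := by
      apply Finset.le_sup (f := fun κ => b (rep κ))
      rw [Set.Finite.mem_toFinset]; exact ⟨v, rfl⟩
    have h2 : (rep (f v)).1.natAbs ≤ R := by
      refine le_trans ?_ h1
      simp only [b]; omega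
    simp only [Prod.fst_neg, abs_neg]
    rw [Int.abs_eq_natAbs]; exact_mod_cast h2
  · intro l
    have h1 : b (rep (f v)) ≤ R := by
      apply Finset.le_sup (f := fun κ => b (rep κ))
      rw [Set.Finite.mem_toFinset]; exact ⟨v, rfl⟩
    have h2 : ((rep (f v)).2 l).natAbs ≤ R := by
      refine le_trans ?_ h1
      have : ((rep (f v)).2 l).natAbs ≤ ∑ l, ((rep (f v)).2 l).natAbs :=
        Finset.single_le_sum (f := fun l => ((rep (f v)).2 l).natAbs)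
          (fun _ _ => Nat.zero_le _) (Finset.mem_univ l)
      simp only [b]; omega
    simp only [Prod.snd_neg, Pi.neg_apply, abs_neg]
    rw [Int.abs_eq_natAbs]; exact_mod_cast h2
  · intro j
    have h1 : f (rep (f v)) = f v := hrep (f v) ⟨v, rfl⟩
    have h2 := congrFun h1 j
    simp only [f] at h2
    have h3 := sub_floor_lt h2
    rw [← sub_div, abs_div, abs_of_pos hτ, div_lt_one hτ] at h3
    refine ⟨⌊zlin A0 A1 v j⌋ - ⌊zlin A0 A1 (rep (f v)) j⌋, ?_⟩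
    rw [← sub_eq_add_neg, zlin_sub]
    have e : zlin A0 A1 v j - zlin A0 A1 (rep (f v)) j -
        ((⌊zlin A0 A1 v j⌋ - ⌊zlin A0 A1 (rep (f v)) j⌋ : ℤ) : ℝ) =
        -(Int.fract (zlin A0 A1 (rep (f v)) j) - Int.fract (zlin A0 A1 v j)) := by
      simp only [Int.fract]; push_cast; ring
    rw [e, abs_neg]
    exact h3.le

/-- size of a lattice vector relative to the tube. -/
def size (c : Fin d → ℝ) (ρ : ℝ) (z : ZV d) : ℝ :=
  max |(z.1 : ℝ)| (‖fun l => (z.2 l : ℝ) - z.1 * c l‖ / ρ)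

lemma size_le_iff {c : Fin d → ℝ} {ρ : ℝ} (hρ : 0 < ρ) (z : ZV d) (t : ℝ) :
    size c ρ z ≤ t ↔ |(z.1 : ℝ)| ≤ t ∧ ∀ l, |(z.2 l : ℝ) - z.1 * c l| ≤ ρ * t := by
  rw [size, max_le_iff]
  constructor
  · rintro ⟨h1, h2⟩
    refine ⟨h1, fun l => ?_⟩
    rw [div_le_iff₀ hρ] at h2
    have := norm_le_pi_norm (fun l => (z.2 l : ℝ) - z.1 * c l) l
    rw [Real.norm_eq_abs] at this
    linarith
  · rintro ⟨h1, h2⟩
    refine ⟨h1, ?_⟩
    rw [div_le_iff₀ hρ]
    have ht : 0 ≤ t := (abs_nonneg _).trans h1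
    rw [pi_norm_le_iff_of_nonneg (by positivity)]
    intro l
    rw [Real.norm_eq_abs]
    linarith [h2 l]

lemma one_le_size {c : Fin d → ℝ} {ρ : ℝ} (hρ : 0 < ρ) (hρ1 : ρ ≤ 1) {z : ZV d} (hz : z ≠ 0) :
    1 ≤ size c ρ z := by
  by_contra hlt
  push Not at hlt
  have h := (size_le_iff (c := c) hρ z (size c ρ z)).mp le_rfl
  have h1 : z.1 = 0 := by
    have : |(z.1 : ℝ)| < 1 := lt_of_le_of_lt h.1 hlt
    have h2 : |z.1| < 1 := by exact_mod_cast this
    exact Int.abs_lt_one_iff.mp h2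
  apply hz
  refine Prod.ext h1 ?_
  funext l
  have h3 := h.2 l
  rw [h1] at h3
  simp only [Int.cast_zero, zero_mul, sub_zero] at h3
  have hs0 : 0 ≤ size c ρ z := le_max_of_le_left (abs_nonneg _)
  have : |(z.2 l : ℝ)| < 1 := by
    refine lt_of_le_of_lt h3 ?_
    nlinarith
  have h2 : |z.2 l| < 1 := by exact_mod_cast this
  exact Int.abs_lt_one_iff.mp h2

lemma E_mono (A0 : Fin m → ℝ) (A1 : Fin d → Fin m → ℝ) (c : Fin d → ℝ) {ρ t t' δ δ' : ℝ}
    (hρ : 0 < ρ) (ht : t ≤ t') (hδ : δ ≤ δ') : E A0 A1 c ρ t δ ⊆ E A0 A1 c ρ t' δ' := by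
  rintro z ⟨h1, h2, h3⟩
  refine ⟨h1.trans ht, fun l => (h2 l).trans (mul_le_mul_of_nonneg_left ht hρ.le), fun j => ?_⟩
  obtain ⟨n, hn⟩ := h3 j
  exact ⟨n, hn.trans hδ⟩

/-- the counting function. -/
def G (A0 : Fin m → ℝ) (A1 : Fin d → Fin m → ℝ) (c : Fin d → ℝ) (ρ δ t : ℝ) : ℕ :=
  (E A0 A1 c ρ t δ).ncard

lemma exists_max (A0 : Fin m → ℝ) (A1 : Fin d → Fin m → ℝ) (c : Fin d → ℝ) (ρ δ s' : ℝ)
    (Q : ℕ) (hQ : 1 ≤ Q) : ∃ a : ℕ, 1 ≤ a ∧ a ≤ Q ∧
      (∀ t : ℕ, 1 ≤ t → t ≤ Q → (G A0 A1 c ρ δ t : ℝ) ≤ ((t : ℝ) / a) ^ s' * G A0 A1 c ρ δ a) := by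
  obtain ⟨a, ha, hmax⟩ := Finset.exists_max_image (Finset.Icc 1 Q)
    (fun t : ℕ => (G A0 A1 c ρ δ t : ℝ) / (t : ℝ) ^ s') ⟨1, Finset.mem_Icc.mpr ⟨le_rfl, hQ⟩⟩
  rw [Finset.mem_Icc] at ha
  refine ⟨a, ha.1, ha.2, fun t ht1 ht2 => ?_⟩
  have h := hmax t (Finset.mem_Icc.mpr ⟨ht1, ht2⟩)
  have hapos : (0 : ℝ) < a := by exact_mod_cast ha.1
  have htpos : (0 : ℝ) < t := by exact_mod_cast ht1
  have e1 : 0 < (t : ℝ) ^ s' := Real.rpow_pos_of_pos htpos _
  have e2 : 0 < (a : ℝ) ^ s' := Real.rpow_pos_of_pos hapos _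
  rw [div_le_div_iff₀ e1 e2] at h
  rw [Real.div_rpow htpos.le hapos.le, div_mul_eq_mul_div, le_div_iff₀ e2]
  linarith

/-- counting the doubled set at all real scales. -/
lemma count_doubled (A0 : Fin m → ℝ) (A1 : Fin d → Fin m → ℝ) {c : Fin d → ℝ}
    (hc : ∀ l, |c l| ≤ 1) {ρ δ s' : ℝ} (hρ : 0 < ρ) (hρ1 : ρ ≤ 1) (hδ : 0 < δ) (hs' : 0 ≤ s')
    {a : ℕ} (ha : 1 ≤ a)
    (hmax : ∀ t : ℕ, 1 ≤ t → t ≤ a → (G A0 A1 c ρ δ t : ℝ) ≤ ((t : ℝ) / a) ^ s' * G A0 A1 c ρ δ a)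
    {t : ℝ} (ht : 1 ≤ t) (ht2 : t ≤ 2 * a) :
    ((E A0 A1 c ρ t (2 * δ)).ncard : ℝ) ≤ 5 ^ (1 + d + m) * ((t / a) ^ s' * G A0 A1 c ρ δ a) := by
  set t0 : ℕ := ⌈t / 2⌉₊ with ht0
  have h1 : t / 2 ≤ t0 := Nat.le_ceil _
  have h2 : 1 ≤ t0 := Nat.one_le_ceil_iff.mpr (by linarith)
  have h3 : t0 ≤ a := Nat.ceil_le.mpr (by linarith)
  have h4 : (t0 : ℝ) ≤ t := by
    rcases le_or_gt t 2 with h | h
    · have : t0 ≤ 1 := Nat.ceil_le.mpr (by push_cast; linarith)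
      have : (t0 : ℝ) ≤ 1 := by exact_mod_cast this
      linarith
    · have := Nat.ceil_lt_add_one (a := t / 2) (by linarith)
      rw [← ht0] at this
      linarith
  have ht0pos : (0 : ℝ) < t0 := by exact_mod_cast h2
  have hapos : (0 : ℝ) < a := by exact_mod_cast ha
  calc ((E A0 A1 c ρ t (2 * δ)).ncard : ℝ) ≤ ((E A0 A1 c ρ (2 * (t0 : ℝ)) (2 * δ)).ncard : ℝ) := by
        have h5 : t ≤ 2 * (t0 : ℝ) := by linarith
        exact Nat.cast_le.mpr (Set.ncard_le_ncard (E_mono A0 A1 c hρ h5 le_rfl)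
          (E_finite A0 A1 hc hρ1 _ _))
    _ ≤ ((5 ^ (1 + d + m) * (E A0 A1 c ρ t0 δ).ncard : ℕ) : ℝ) :=
        Nat.cast_le.mpr (doubling A0 A1 hc hρ hρ1 ht0pos hδ)
    _ = 5 ^ (1 + d + m) * (G A0 A1 c ρ δ t0 : ℝ) := by push_cast; rfl
    _ ≤ 5 ^ (1 + d + m) * ((t / a) ^ s' * G A0 A1 c ρ δ a) := by
        apply mul_le_mul_of_nonneg_left _ (by positivity)
        refine (hmax t0 h2 h3).trans ?_
        apply mul_le_mul_of_nonneg_right _ (by positivity)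
        apply Real.rpow_le_rpow (by positivity) _ hs'
        exact div_le_div_of_nonneg_right h4 hapos.le

lemma W_sum (A0 : Fin m → ℝ) (A1 : Fin d → Fin m → ℝ) {c : Fin d → ℝ}
    (hc : ∀ l, |c l| ≤ 1) {ρ δ s' s2 : ℝ} (hρ : 0 < ρ) (hρ1 : ρ ≤ 1) (hδ : 0 < δ) (hs2 : 0 < s2)
    (hs' : s2 < s')
    {a : ℕ} (ha : 1 ≤ a)
    (hmax : ∀ t : ℕ, 1 ≤ t → t ≤ a → (G A0 A1 c ρ δ t : ℝ) ≤ ((t : ℝ) / a) ^ s' * G A0 A1 c ρ δ a)
    (S : Finset (ZV d)) (hS : ∀ z ∈ S, z ≠ 0 ∧ z ∈ E A0 A1 c ρ (2 * a) (2 * δ)) :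
    ∑ z ∈ S, (a / size c ρ z) ^ s2 ≤
      (5 ^ (1 + d + m) * 2 ^ s' * (1 - 2 ^ (s2 - s'))⁻¹) * G A0 A1 c ρ δ a := by
  classical
  have hapos : (0 : ℝ) < a := by exact_mod_cast ha
  have hsz : ∀ z ∈ S, 1 ≤ size c ρ z ∧ size c ρ z ≤ 2 * a := by
    intro z hz
    obtain ⟨h0, h1, h2, -⟩ := hS z hz
    exact ⟨one_le_size hρ hρ1 h0, (size_le_iff hρ z _).mpr ⟨h1, h2⟩⟩
  let idx : ZV d → ℕ := fun z => ⌊Real.logb 2 (2 * a / size c ρ z)⌋₊
  have hidx : ∀ z ∈ S, (2 : ℝ) ^ (idx z) ≤ 2 * a / size c ρ z ∧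
      2 * a / size c ρ z < (2 : ℝ) ^ (idx z + 1) := by
    intro z hz
    obtain ⟨h1, h2⟩ := hsz z hz
    have hp : 0 < size c ρ z := by linarith
    have hx : 1 ≤ 2 * a / size c ρ z := by rw [le_div_iff₀ hp]; linarith
    have hl : 0 ≤ Real.logb 2 (2 * a / size c ρ z) := Real.logb_nonneg (by norm_num) hx
    have hxp : 0 < 2 * a / size c ρ z := by linarith
    constructor
    · have := Nat.floor_le hl
      rw [← Real.rpow_natCast]
      calc (2 : ℝ) ^ ((idx z : ℕ) : ℝ) ≤ 2 ^ (Real.logb 2 (2 * a / size c ρ z)) :=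
            Real.rpow_le_rpow_of_exponent_le (by norm_num) this
        _ = _ := Real.rpow_logb (by norm_num) (by norm_num) hxp
    · have := Nat.lt_floor_add_one (Real.logb 2 (2 * a / size c ρ z))
      rw [← Real.rpow_natCast]
      calc 2 * a / size c ρ z = 2 ^ (Real.logb 2 (2 * a / size c ρ z)) :=
            (Real.rpow_logb (by norm_num) (by norm_num) hxp).symm
        _ < 2 ^ (((idx z + 1 : ℕ)) : ℝ) := by
            apply Real.rpow_lt_rpow_of_exponent_lt (by norm_num)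
            push_cast; exact this
  set I : ℕ := S.sup idx + 1 with hI
  have hmaps : ∀ z ∈ S, idx z ∈ Finset.range I := by
    intro z hz
    rw [Finset.mem_range, hI]
    exact Nat.lt_succ_of_le (Finset.le_sup hz)
  rw [← Finset.sum_fiberwise_of_maps_to hmaps]
  have hq : (2 : ℝ) ^ (s2 - s') < 1 := Real.rpow_lt_one_of_one_lt_of_neg (by norm_num) (by linarith)
  have hq0 : 0 < (2 : ℝ) ^ (s2 - s') := Real.rpow_pos_of_pos (by norm_num) _
  have hfib : ∀ i ∈ Finset.range I, ∑ z ∈ S with idx z = i, (a / size c ρ z) ^ s2 ≤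
      (5 ^ (1 + d + m) * 2 ^ s' * G A0 A1 c ρ δ a) * ((2 : ℝ) ^ (s2 - s')) ^ i := by
    intro i _
    by_cases hne : (S.filter (fun z => idx z = i)).Nonempty
    · obtain ⟨z0, hz0⟩ := hne
      rw [Finset.mem_filter] at hz0
      have hi1 : (2 : ℝ) ^ i ≤ 2 * a := by
        have := (hidx z0 hz0.1).1
        rw [hz0.2] at this
        refine this.trans ?_
        apply div_le_self (by positivity) (hsz z0 hz0.1).1
      have hpow : (0 : ℝ) < 2 ^ i := by positivity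
      -- each term
      have hterm : ∀ z ∈ S.filter (fun z => idx z = i), (a / size c ρ z) ^ s2 ≤
          ((2 : ℝ) ^ i) ^ s2 := by
        intro z hz
        rw [Finset.mem_filter] at hz
        have h1 := (hidx z hz.1).2
        rw [hz.2] at h1
        have hp : 0 < size c ρ z := by linarith [(hsz z hz.1).1]
        apply Real.rpow_le_rpow (by positivity) _ hs2.le
        rw [pow_succ] at h1
        have : 2 * a / size c ρ z = (a / size c ρ z) * 2 := by ring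
        rw [this] at h1
        linarith
      have hcard : ((S.filter (fun z => idx z = i)).card : ℝ) ≤
          5 ^ (1 + d + m) * (((2 * a / 2 ^ i) / a) ^ s' * G A0 A1 c ρ δ a) := by
        refine le_trans ?_ (count_doubled A0 A1 hc hρ hρ1 hδ (by linarith) ha hmax
          (t := 2 * a / 2 ^ i) ?_ ?_)
        · rw [Set.ncard_eq_toFinset_card _ (E_finite A0 A1 hc hρ1 (2 * a / 2 ^ i) (2 * δ))]
          norm_cast
          apply Finset.card_le_card
          intro z hz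
          rw [Finset.mem_filter] at hz
          rw [Set.Finite.mem_toFinset]
          have h1 := (hidx z hz.1).1
          rw [hz.2] at h1
          have hp : 0 < size c ρ z := by linarith [(hsz z hz.1).1]
          have h2 : size c ρ z ≤ 2 * a / 2 ^ i := by
            rw [le_div_iff₀ hpow]
            rw [le_div_iff₀ hp] at h1
            linarith
          have h3 := (size_le_iff hρ z _).mp h2
          exact ⟨by exact_mod_cast h3.1, by exact_mod_cast h3.2, (hS z hz.1).2.2.2⟩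
        · rw [le_div_iff₀ hpow]; linarith
        · apply div_le_self (by positivity)
          exact one_le_pow₀ (by norm_num)
      calc ∑ z ∈ S with idx z = i, (a / size c ρ z) ^ s2
          ≤ ∑ _z ∈ S with idx _z = i, ((2 : ℝ) ^ i) ^ s2 := Finset.sum_le_sum hterm
        _ = ((S.filter (fun z => idx z = i)).card : ℝ) * ((2 : ℝ) ^ i) ^ s2 := by
            rw [Finset.sum_const, nsmul_eq_mul]
        _ ≤ (5 ^ (1 + d + m) * (((2 * a / 2 ^ i) / a) ^ s' * G A0 A1 c ρ δ a)) *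
            ((2 : ℝ) ^ i) ^ s2 := by
            apply mul_le_mul_of_nonneg_right hcard (by positivity)
        _ = (5 ^ (1 + d + m) * 2 ^ s' * G A0 A1 c ρ δ a) * ((2 : ℝ) ^ (s2 - s')) ^ i := by
            have e1 : (2 * (a : ℝ) / 2 ^ i) / a = 2 / 2 ^ i := by field_simp
            rw [e1, Real.div_rpow (by norm_num) hpow.le]
            have e2 : ((2 : ℝ) ^ (s2 - s')) ^ i = ((2 : ℝ) ^ i) ^ s2 / ((2 : ℝ) ^ i) ^ s' := by
              rw [← Real.rpow_natCast, ← Real.rpow_natCast, ← Real.rpow_mul (by norm_num),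
                ← Real.rpow_mul (by norm_num), ← Real.rpow_mul (by norm_num),
                ← Real.rpow_sub (by norm_num)]
              congr 1; ring
            rw [e2]
            have : ((2 : ℝ) ^ i) ^ s' ≠ 0 := (Real.rpow_pos_of_pos hpow _).ne'
            field_simp
    · rw [Finset.not_nonempty_iff_eq_empty] at hne
      rw [hne, Finset.sum_empty]
      positivity
  calc ∑ i ∈ Finset.range I, ∑ z ∈ S with idx z = i, (a / size c ρ z) ^ s2
      ≤ ∑ i ∈ Finset.range I, (5 ^ (1 + d + m) * 2 ^ s' * G A0 A1 c ρ δ a) *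
        ((2 : ℝ) ^ (s2 - s')) ^ i := Finset.sum_le_sum hfib
    _ = (5 ^ (1 + d + m) * 2 ^ s' * G A0 A1 c ρ δ a) *
        ∑ i ∈ Finset.range I, ((2 : ℝ) ^ (s2 - s')) ^ i := by rw [Finset.mul_sum]
    _ ≤ (5 ^ (1 + d + m) * 2 ^ s' * G A0 A1 c ρ δ a) * (1 - 2 ^ (s2 - s'))⁻¹ := by
        apply mul_le_mul_of_nonneg_left _ (by positivity)
        rw [← tsum_geometric_of_lt_one hq0.le hq]
        exact (summable_geometric_of_lt_one hq0.le hq).sum_le_tsum _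
          (fun i _ => by positivity)
    _ = _ := by ring

end R357Jar
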