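import Pool.Agent.R357.Jar2

set_option autoImplicit false

open scoped BigOperators

noncomputable section

namespace R357Jar

variable {d m : ℕ}

lemma card_le_mul_image {α β : Type*} [DecidableEq β] (S : Finset α) (f : α → β) (M : ℝ)
    (hM : ∀ b ∈ S.image f, ((S.filter (fun x => f x = b)).card : ℝ) ≤ M) :
    (S.card : ℝ) ≤ (S.image f).card * M := by
  classical
  rw [Finset.card_eq_sum_card_image f S]
  push_cast
  calc ∑ b ∈ S.image f, ((S.filter (fun x => f x = b)).card : ℝ) ≤ ∑ _b ∈ S.image f, M :=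
        Finset.sum_le_sum hM
    _ = (S.image f).card * M := by rw [Finset.sum_const, nsmul_eq_mul]

/-- parameters for one stage. -/
structure Cfg (d : ℕ) where
  c : Fin d → ℝ
  ρ : ℝ
  a : ℕ
  B : ℕ
  K : ℕ
  R : ℕ
  τ : ℝ
  θ : Fin d → ℝ
  w : ZV d → ZV d
  Θ : ℝ
  hc : ∀ l, |c l| ≤ 1
  hρ : 0 < ρ
  hρ1 : ρ ≤ 1/4
  ha : 1 ≤ a
  hRa : R ≤ a
  hB1 : (B : ℝ) ≤ 2 * ρ * a
  hB2 : 2 * ρ * a ≤ 2 * B + 1
  hK : 1 ≤ K
  hτ : 0 < τ
  hτ1 : τ ≤ 1
  hθ : ∀ l, |θ l| ≤ Θ
  hsm : 2 * (R : ℝ) + Θ + 2 ≤ ρ * a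
  hw1 : ∀ v, |(w v).1| ≤ (R : ℤ)
  hw2 : ∀ v l, |(w v).2 l| ≤ (R : ℤ)

namespace Cfg

variable (X : Cfg d)

/-- the parameter index. -/
abbrev Ix (d : ℕ) := ℤ × ((Fin d → ℤ) × (Fin d → ℤ))

def vv (p : Ix d) : ZV d := (p.1, fun l => ⌊(p.1 : ℝ) * X.c l⌋ + p.2.1 l)
def uu (p : Ix d) : ZV d := X.vv p + X.w (X.vv p)
def tt (p : Ix d) (l : Fin d) : ℝ := (p.2.2 l : ℝ) * X.τ / X.K
def qq (p : Ix d) (z : ZV d) : ℤ := (X.uu p + z).1
def xi (p : Ix d) (z : ZV d) (l : Fin d) : ℝ := ((X.uu p + z).2 l : ℝ) + X.θ l + X.tt p l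
def xx (p : Ix d) (z : ZV d) (l : Fin d) : ℝ := X.xi p z l / X.qq p z

def box : Finset (Ix d) := (Finset.Ico (16 * X.a : ℤ) (32 * X.a)) ×ˢ
  ((Fintype.piFinset fun _ : Fin d => Finset.Icc (-(X.B : ℤ)) X.B) ×ˢ
    (Fintype.piFinset fun _ : Fin d => Finset.Icc (-(X.K : ℤ)) X.K))

def tube (z : ZV d) : Prop := |(z.1 : ℝ)| ≤ X.a ∧ ∀ l, |(z.2 l : ℝ) - z.1 * X.c l| ≤ X.ρ * X.a

lemma box_card : X.box.card = 16 * X.a * ((2 * X.B + 1) ^ d * (2 * X.K + 1) ^ d) := by
  classical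
  rw [box, Finset.card_product, Finset.card_product, Fintype.card_piFinset_const,
    Fintype.card_piFinset_const, Int.card_Icc, Int.card_Icc, Int.card_Ico]
  have t1 : ((X.B : ℤ) + 1 - -(X.B : ℤ)) = ((2 * X.B + 1 : ℕ) : ℤ) := by push_cast; ring
  have t2 : ((X.K : ℤ) + 1 - -(X.K : ℤ)) = ((2 * X.K + 1 : ℕ) : ℤ) := by push_cast; ring
  have t3 : (32 * (X.a : ℤ) - 16 * (X.a : ℤ)) = ((16 * X.a : ℕ) : ℤ) := by push_cast; ring
  rw [t1, t2, t3, Int.toNat_natCast, Int.toNat_natCast, Int.toNat_natCast]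

lemma apos : (0 : ℝ) < X.a := by exact_mod_cast X.ha

lemma Kpos : (0 : ℝ) < X.K := by exact_mod_cast X.hK

lemma mem_box {p : Ix d} (hp : p ∈ X.box) : (16 * (X.a : ℝ) ≤ p.1 ∧ (p.1 : ℝ) ≤ 32 * X.a) ∧
    (∀ l, |(p.2.1 l : ℝ)| ≤ X.B) ∧ ∀ l, |(p.2.2 l : ℝ)| ≤ X.K := by
  simp only [box, Finset.mem_product, Finset.mem_Ico, Fintype.mem_piFinset, Finset.mem_Icc] at hp
  obtain ⟨⟨h1, h2⟩, h3, h4⟩ := hp
  refine ⟨⟨by exact_mod_cast h1, ?_⟩, fun l => ?_, fun l => ?_⟩
  · have := h2.le; exact_mod_cast this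
  · rw [abs_le]; exact ⟨by exact_mod_cast (h3 l).1, by exact_mod_cast (h3 l).2⟩
  · rw [abs_le]; exact ⟨by exact_mod_cast (h4 l).1, by exact_mod_cast (h4 l).2⟩

lemma tt_le {p : Ix d} (hp : p ∈ X.box) (l : Fin d) : |X.tt p l| ≤ X.τ := by
  have h := (X.mem_box hp).2.2 l
  rw [tt, abs_div, abs_mul, abs_of_pos X.hτ, abs_of_pos X.Kpos, div_le_iff₀ X.Kpos, mul_comm]
  exact mul_le_mul_of_nonneg_left h X.hτ.le

lemma hw1r (v : ZV d) : |((X.w v).1 : ℝ)| ≤ X.R := by exact_mod_cast X.hw1 v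
lemma hw2r (v : ZV d) (l : Fin d) : |((X.w v).2 l : ℝ)| ≤ X.R := by exact_mod_cast X.hw2 v l
lemma hRar : (X.R : ℝ) ≤ X.a := by exact_mod_cast X.hRa

lemma qq_eq (p : Ix d) (z : ZV d) : (X.qq p z : ℝ) = p.1 + (X.w (X.vv p)).1 + z.1 := by
  simp [qq, uu, vv]

lemma qq_bounds {p : Ix d} (hp : p ∈ X.box) {z : ZV d} (hz : X.tube z) :
    14 * (X.a : ℝ) ≤ X.qq p z ∧ (X.qq p z : ℝ) ≤ 34 * X.a := by
  rw [qq_eq]
  have h1 := (X.mem_box hp).1
  have h2 := abs_le.mp (X.hw1r (X.vv p))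
  have h3 := abs_le.mp hz.1
  have h4 := X.hRar
  constructor <;> linarith [h1.1, h1.2, h2.1, h2.2, h3.1, h3.2]

lemma qq_pos {p : Ix d} (hp : p ∈ X.box) {z : ZV d} (hz : X.tube z) : (0 : ℝ) < X.qq p z := by
  have := (X.qq_bounds hp hz).1
  have := X.apos
  linarith

lemma xi_eq (p : Ix d) (z : ZV d) (l : Fin d) : X.xi p z l =
    ⌊(p.1 : ℝ) * X.c l⌋ + p.2.1 l + (X.w (X.vv p)).2 l + z.2 l + X.θ l + X.tt p l := by
  simp [xi, uu, vv]

lemma xx_close {p : Ix d} (hp : p ∈ X.box) {z : ZV d} (hz : X.tube z) (l : Fin d) :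
    |X.xx p z l - X.c l| ≤ X.ρ / 2 := by
  have hq := X.qq_pos hp hz
  have hqb := X.qq_bounds hp hz
  have e : X.xx p z l - X.c l = (X.xi p z l - X.qq p z * X.c l) / X.qq p z := by
    rw [xx]; field_simp
  rw [e, abs_div, abs_of_pos hq, div_le_iff₀ hq]
  have e2 : X.xi p z l - X.qq p z * X.c l = -(Int.fract ((p.1 : ℝ) * X.c l)) + p.2.1 l +
      ((z.2 l : ℝ) - z.1 * X.c l) + (X.w (X.vv p)).2 l - (X.w (X.vv p)).1 * X.c l + X.θ l +
      X.tt p l := by
    rw [xi_eq, qq_eq, Int.fract]; ring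
  have b1 := (X.mem_box hp).2.1 l
  have b2 := hz.2 l
  have b3 := X.hw2r (X.vv p) l
  have b4 : |((X.w (X.vv p)).1 : ℝ) * X.c l| ≤ X.R := by
    rw [abs_mul]
    calc _ ≤ (X.R : ℝ) * 1 := mul_le_mul (X.hw1r _) (X.hc l) (abs_nonneg _) (by positivity)
      _ = X.R := mul_one _
  have b5 := X.hθ l
  have b6 := (X.tt_le hp l).trans X.hτ1
  have b7 := Int.fract_nonneg ((p.1 : ℝ) * X.c l)
  have b8 := (Int.fract_lt_one ((p.1 : ℝ) * X.c l)).le
  rw [abs_le] at b1 b2 b3 b4 b5 b6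
  have hsm := X.hsm
  have hB1 := X.hB1
  have hρ := X.hρ
  have hρa : 0 < X.ρ * X.a := mul_pos hρ X.apos
  have hfin : 4 * (X.ρ * X.a) ≤ X.ρ / 2 * X.qq p z := by nlinarith [hqb.1]
  rw [e2, abs_le]
  constructor <;> linarith [b1.1, b1.2, b2.1, b2.2, b3.1, b3.2, b4.1, b4.2, b5.1, b5.2, b6.1, b6.2]

lemma P_count {s3 s2 : ℝ} (hs3 : 0 < s3) (h32 : s3 < s2) (h2d : s2 ≤ d)
    {z1 z2 : ZV d} (hz1 : X.tube z1) (hz2 : X.tube z2) (hne : z1 ≠ z2)
    {r : ℝ} (hr : 0 < r) (hrρ : r ≤ X.ρ) (hK : X.τ ≤ 1156 * r * X.a * X.K)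
    (hL : (2 * (6 * X.R + 3) / X.τ) ^ d * ((6 * X.R + 3) / (578 * X.a * X.ρ)) ^ (s2 - s3) ≤ 1) :
    ((X.box.filter (fun p => ∀ l, |X.xx p z1 l - X.xx p z2 l| ≤ r)).card : ℝ) ≤
      X.box.card * ((r / X.ρ) ^ s3 * (2000 * X.a / size X.c X.ρ (z2 - z1)) ^ s2) := by
  classical
  set σ := size X.c X.ρ (z2 - z1) with hσ
  have hζ : z2 - z1 ≠ 0 := sub_ne_zero.mpr (Ne.symm hne)
  have hρ := X.hρ
  have ha := X.apos
  have hσ1 : 1 ≤ σ := one_le_size hρ (by linarith [X.hρ1]) hζ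
  have hσpos : 0 < σ := by linarith
  have hσ2 : σ ≤ 2 * X.a := by
    rw [hσ, size_le_iff hρ]
    constructor
    · have h1 := abs_le.mp hz1.1
      have h2 := abs_le.mp hz2.1
      simp only [Prod.fst_sub]; push_cast
      rw [abs_le]; constructor <;> linarith [h1.1, h1.2, h2.1, h2.2]
    · intro l
      have h1 := abs_le.mp (hz1.2 l)
      have h2 := abs_le.mp (hz2.2 l)
      have e : ((z2 - z1).2 l : ℝ) - (z2 - z1).1 * X.c l =
          ((z2.2 l : ℝ) - z2.1 * X.c l) - ((z1.2 l : ℝ) - z1.1 * X.c l) := by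
        simp only [Prod.fst_sub, Prod.snd_sub, Pi.sub_apply, Int.cast_sub]; ring
      rw [e, abs_le]; constructor <;> linarith [h1.1, h1.2, h2.1, h2.2]
  have hrρ0 : 0 < r / X.ρ := by positivity
  have hrρ1 : r / X.ρ ≤ 1 := (div_le_one hρ).mpr hrρ
  set Z : ℝ := 2000 * X.a / σ with hZ
  have hZpos : 0 < Z := by positivity
  set Xv : ℝ := (r / X.ρ) * Z with hXv
  have hXvpos : 0 < Xv := by positivity
  have hXvs : Xv ^ s2 = (r / X.ρ) ^ s2 * Z ^ s2 := Real.mul_rpow hrρ0.le hZpos.le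
  have hexp : (r / X.ρ) ^ s2 ≤ (r / X.ρ) ^ s3 :=
    Real.rpow_le_rpow_of_exponent_ge hrρ0 hrρ1 h32.le
  have hZs : 0 < Z ^ s2 := Real.rpow_pos_of_pos hZpos _
  rcases le_or_gt 1 Xv with hX1 | hX1
  · -- trivial case
    have h1 : (1 : ℝ) ≤ (r / X.ρ) ^ s3 * Z ^ s2 := by
      calc (1 : ℝ) ≤ Xv ^ s2 := Real.one_le_rpow hX1 (by linarith)
        _ = (r / X.ρ) ^ s2 * Z ^ s2 := hXvs
        _ ≤ _ := mul_le_mul_of_nonneg_right hexp hZs.le
    calc ((X.box.filter _).card : ℝ) ≤ X.box.card := by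
          exact_mod_cast Finset.card_filter_le _ _
      _ = X.box.card * 1 := (mul_one _).symm
      _ ≤ _ := mul_le_mul_of_nonneg_left h1 (by positivity)
  · set S := X.box.filter (fun p => ∀ l, |X.xx p z1 l - X.xx p z2 l| ≤ r) with hS
    -- the real number versions
    set ζ0 : ℝ := ((z2 - z1).1 : ℝ) with hζ0
    set ζ1 : Fin d → ℝ := fun l => ((z2 - z1).2 l : ℝ) with hζ1
    have hstar : ∀ p ∈ S, ∀ l, |X.xi p z1 l * ζ0 - ζ1 l * X.qq p z1| ≤
        r * X.qq p z1 * X.qq p z2 := by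
      intro p hp l
      rw [hS, Finset.mem_filter] at hp
      have q1 := X.qq_pos hp.1 hz1
      have q2 := X.qq_pos hp.1 hz2
      have h := hp.2 l
      have e : X.xx p z1 l - X.xx p z2 l = (X.xi p z1 l * ζ0 - ζ1 l * X.qq p z1) /
          (X.qq p z1 * X.qq p z2) := by
        have e1 : (X.qq p z2 : ℝ) = X.qq p z1 + ζ0 := by
          rw [qq_eq, qq_eq, hζ0, Prod.fst_sub]; push_cast; ring
        have e2 : X.xi p z2 l = X.xi p z1 l + ζ1 l := by
          rw [xi_eq, xi_eq, hζ1]; simp only [Prod.snd_sub, Pi.sub_apply]; push_cast; ring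
        rw [xx, xx, e2, div_sub_div _ _ q1.ne' q2.ne']
        congr 1
        rw [e1]; ring
      rw [e, abs_div, abs_of_pos (mul_pos q1 q2), div_le_iff₀ (mul_pos q1 q2)] at h
      linarith
    have h34 : 34 * r * X.a ≤ X.ρ * σ / 4 := by
      have : Xv * (X.ρ * σ) = 2000 * (r * X.a) := by
        rw [hXv, hZ]; field_simp
      have h2 : Xv * (X.ρ * σ) ≤ 1 * (X.ρ * σ) :=
        mul_le_mul_of_nonneg_right hX1.le (by positivity)
      have : 0 < r * X.a := by positivity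
      linarith
    by_cases hSne : S.Nonempty
    swap
    · rw [Finset.not_nonempty_iff_eq_empty] at hSne
      rw [hSne]; simp; positivity
    obtain ⟨p0, hp0⟩ := hSne
    have hζ0σ : |ζ0| ≤ σ := le_max_left _ _
    have hζ0eq : |ζ0| = σ := by
      apply le_antisymm hζ0σ
      by_contra hlt
      push Not at hlt
      have hp0b : p0 ∈ X.box := (Finset.mem_filter.mp hp0).1
      have hle : size X.c X.ρ (z2 - z1) ≤ max |ζ0| (σ / 4 + |ζ0| / 2) := by
        rw [size_le_iff hρ]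
        refine ⟨le_max_left _ _, fun l => ?_⟩
        have q1 := X.qq_pos hp0b hz1
        have q2 := X.qq_pos hp0b hz2
        have hst := hstar p0 hp0 l
        have hx1 : |ζ1 l - ζ0 * X.xx p0 z1 l| ≤ 34 * r * X.a := by
          have e : ζ1 l - ζ0 * X.xx p0 z1 l = -((X.xi p0 z1 l * ζ0 - ζ1 l * X.qq p0 z1) /
              X.qq p0 z1) := by
            rw [xx]; field_simp; ring
          rw [e, abs_neg, abs_div, abs_of_pos q1, div_le_iff₀ q1]
          have := (X.qq_bounds hp0b hz2).2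
          have h3 : r * X.qq p0 z1 * X.qq p0 z2 ≤ r * X.qq p0 z1 * (34 * X.a) :=
            mul_le_mul_of_nonneg_left this (by positivity)
          linarith
        have hx2 := X.xx_close hp0b hz1 l
        have hx3 : |ζ0 * (X.xx p0 z1 l - X.c l)| ≤ |ζ0| * (X.ρ / 2) := by
          rw [abs_mul]; exact mul_le_mul_of_nonneg_left hx2 (abs_nonneg _)
        have e : (((z2 - z1).2 l : ℝ)) - (z2 - z1).1 * X.c l =
            (ζ1 l - ζ0 * X.xx p0 z1 l) + ζ0 * (X.xx p0 z1 l - X.c l) := by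
          rw [hζ1, hζ0]; ring
        rw [e]
        calc _ ≤ |ζ1 l - ζ0 * X.xx p0 z1 l| + |ζ0 * (X.xx p0 z1 l - X.c l)| := abs_add_le _ _
          _ ≤ X.ρ * (σ / 4 + |ζ0| / 2) := by linarith
          _ ≤ X.ρ * max |ζ0| (σ / 4 + |ζ0| / 2) :=
            mul_le_mul_of_nonneg_left (le_max_right _ _) hρ.le
      rw [← hσ] at hle
      rcases le_max_iff.mp hle with h | h
      · linarith
      · linarith
    have hζ0pos : 0 < |ζ0| := by rw [hζ0eq]; exact hσpos
    have hζ0ne : ζ0 ≠ 0 := abs_pos.mp hζ0pos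
    have hratio : ∀ l, |ζ1 l / ζ0| ≤ 2 := by
      intro l
      have h1 := ((size_le_iff (c := X.c) hρ (z2 - z1) σ).mp le_rfl).2 l
      have h2 : |ζ1 l - ζ0 * X.c l| ≤ X.ρ * |ζ0| := by rw [hζ0eq]; exact h1
      rw [abs_div, div_le_iff₀ hζ0pos]
      have h3 : |ζ0 * X.c l| ≤ |ζ0| := by
        rw [abs_mul]
        calc _ ≤ |ζ0| * 1 := mul_le_mul_of_nonneg_left (X.hc l) (abs_nonneg _)
          _ = _ := mul_one _
      have h4 : X.ρ * |ζ0| ≤ 1 * |ζ0| := mul_le_mul_of_nonneg_right (by linarith [X.hρ1]) hζ0pos.le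
      calc |ζ1 l| = |(ζ1 l - ζ0 * X.c l) + ζ0 * X.c l| := by ring_nf
        _ ≤ |ζ1 l - ζ0 * X.c l| + |ζ0 * X.c l| := abs_add_le _ _
        _ ≤ 2 * |ζ0| := by linarith
    set Y : ℝ := 1156 * r * X.a ^ 2 / σ with hY
    have hYpos : 0 < Y := by positivity
    have hstar2 : ∀ p ∈ S, ∀ l, |X.xi p z1 l - ζ1 l / ζ0 * X.qq p z1| ≤ Y := by
      intro p hp l
      have hpb : p ∈ X.box := (Finset.mem_filter.mp hp).1
      have h := hstar p hp l
      have e : X.xi p z1 l - ζ1 l / ζ0 * X.qq p z1 =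
          (X.xi p z1 l * ζ0 - ζ1 l * X.qq p z1) / ζ0 := by field_simp
      rw [e, abs_div, div_le_iff₀ hζ0pos, hζ0eq, hY, div_mul_cancel₀ _ hσpos.ne']
      have q1 := (X.qq_bounds hpb hz1)
      have q2 := (X.qq_bounds hpb hz2)
      have h3 : (X.qq p z1 : ℝ) * X.qq p z2 ≤ (34 * X.a) * (34 * X.a) :=
        mul_le_mul q1.2 q2.2 (by linarith [q2.1]) (by positivity)
      have h4 : r * ((X.qq p z1 : ℝ) * X.qq p z2) ≤ r * ((34 * X.a) * (34 * X.a)) :=
        mul_le_mul_of_nonneg_left h3 hr.le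
      nlinarith
    -- count
    set M2 : ℝ := min ((2 * (X.K : ℝ) + 1) ^ d) ((2 * (Y * X.K / X.τ) + 1) ^ d) with hM2
    have hM20 : 0 ≤ M2 := by rw [hM2]; apply le_min <;> have := X.hτ <;> positivity
    have hKp := X.Kpos
    have hτp := X.hτ
    have hcount : (S.card : ℝ) ≤ (16 * X.a : ℝ) * ((2 * (Y + 3 * X.R + 1) + 1) ^ d * M2) := by
      have h1 := card_le_mul_image S (fun p => p.1) ((2 * (Y + 3 * X.R + 1) + 1) ^ d * M2) ?_
      · refine h1.trans ?_
        apply mul_le_mul_of_nonneg_right _ (by positivity)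
        have h2 : S.image (fun p => p.1) ⊆ Finset.Ico (16 * X.a : ℤ) (32 * X.a) := by
          intro b hb
          rw [Finset.mem_image] at hb
          obtain ⟨p, hp, rfl⟩ := hb
          have := (Finset.mem_filter.mp hp).1
          exact (Finset.mem_product.mp this).1
        have h3 := Finset.card_le_card h2
        rw [Int.card_Ico] at h3
        have t3 : (32 * (X.a : ℤ) - 16 * (X.a : ℤ)) = ((16 * X.a : ℕ) : ℤ) := by push_cast; ring
        rw [t3, Int.toNat_natCast] at h3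
        exact_mod_cast h3
      · intro v0 _
        set S1 := S.filter (fun p => p.1 = v0) with hS1
        have h2 := card_le_mul_image S1 (fun p => p.2.1) M2 ?_
        · refine h2.trans ?_
          apply mul_le_mul_of_nonneg_right _ hM20
          apply card_ball_le _ (fun l => ζ1 l / ζ0 * (v0 + z1.1) - ⌊(v0 : ℝ) * X.c l⌋ - z1.2 l -
            X.θ l) _ (by positivity)
          intro h hh l
          rw [Finset.mem_image] at hh
          obtain ⟨p, hp, rfl⟩ := hh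
          rw [hS1, Finset.mem_filter] at hp
          obtain ⟨hpS, hpv⟩ := hp
          have hpb : p ∈ X.box := (Finset.mem_filter.mp hpS).1
          have h3 := hstar2 p hpS l
          rw [xi_eq, qq_eq, hpv] at h3
          have b1 := X.hw2r (X.vv p) l
          have b2 := X.hw1r (X.vv p)
          have b3 := (X.tt_le hpb l).trans X.hτ1
          have b4 : |ζ1 l / ζ0 * ((X.w (X.vv p)).1 : ℝ)| ≤ 2 * X.R := by
            rw [abs_mul]; exact mul_le_mul (hratio l) b2 (abs_nonneg _) (by norm_num)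
          rw [abs_le] at h3 b1 b3 b4 ⊢
          constructor <;> nlinarith [h3.1, h3.2, b1.1, b1.2, b3.1, b3.2, b4.1, b4.2]
        · intro h0 _
          set S2 := S1.filter (fun p => p.2.1 = h0) with hS2
          have hinj : Set.InjOn (fun p : Ix d => p.2.2) S2 := by
            intro p hp p' hp' hpp
            simp only [hS2, hS1, Finset.coe_filter, Set.mem_ofPred_eq, Finset.mem_filter] at hp hp'
            refine Prod.ext (hp.1.2.trans hp'.1.2.symm) (Prod.ext (hp.2.trans hp'.2.symm) hpp)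
          rw [← Finset.card_image_of_injOn hinj]
          apply le_min
          · apply card_ball_le _ (fun _ => 0) _ hKp.le
            intro g hg l
            rw [Finset.mem_image] at hg
            obtain ⟨p, hp, rfl⟩ := hg
            simp only [hS2, hS1, Finset.mem_filter] at hp
            have hpb : p ∈ X.box := (Finset.mem_filter.mp hp.1.1).1
            rw [sub_zero]
            exact (X.mem_box hpb).2.2 l
          · -- all p in S2 share vv
            by_cases hne2 : S2.Nonempty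
            swap
            · rw [Finset.not_nonempty_iff_eq_empty] at hne2
              rw [hne2]; simp; positivity
            obtain ⟨p1, hp1⟩ := hne2
            have hv : ∀ p ∈ S2, X.vv p = X.vv p1 := by
              intro p hp
              simp only [hS2, hS1, Finset.mem_filter] at hp hp1
              simp only [vv, hp.1.2, hp.2, hp1.1.2, hp1.2]
            apply card_ball_le _ (fun l => (ζ1 l / ζ0 * X.qq p1 z1 -
              ((⌊(v0 : ℝ) * X.c l⌋ : ℝ) + h0 l + (X.w (X.vv p1)).2 l + z1.2 l + X.θ l)) *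
              X.K / X.τ) _ (by positivity)
            intro g hg l
            rw [Finset.mem_image] at hg
            obtain ⟨p, hp, rfl⟩ := hg
            have hvp := hv p hp
            simp only [hS2, hS1, Finset.mem_filter] at hp
            have h3 := hstar2 p hp.1.1 l
            have hqe : (X.qq p z1 : ℝ) = X.qq p1 z1 := by
              simp only [hS2, hS1, Finset.mem_filter] at hp1
              rw [qq_eq, qq_eq, hvp, hp.1.2, hp1.1.2]
            rw [hqe, xi_eq, hp.1.2, hp.2, hvp, tt] at h3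
            have e : (p.2.2 l : ℝ) - (ζ1 l / ζ0 * X.qq p1 z1 -
              ((⌊(v0 : ℝ) * X.c l⌋ : ℝ) + h0 l + (X.w (X.vv p1)).2 l + z1.2 l + X.θ l)) *
              X.K / X.τ = ((⌊(v0 : ℝ) * X.c l⌋ : ℝ) + h0 l + (X.w (X.vv p1)).2 l + z1.2 l + X.θ l +
                (p.2.2 l : ℝ) * X.τ / X.K - ζ1 l / ζ0 * X.qq p1 z1) * (X.K / X.τ) := by
              field_simp; ring
            have e' : Y * X.K / X.τ = Y * (X.K / X.τ) := by ring
            rw [e, abs_mul, abs_of_pos (by positivity : 0 < X.K / X.τ), e']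
            exact mul_le_mul_of_nonneg_right h3 (by positivity)
    -- numerics
    rw [X.box_card]
    push_cast
    have hB2 := X.hB2
    have hXd : Xv ^ d ≤ Xv ^ s2 := by
      rw [← Real.rpow_natCast]
      exact Real.rpow_le_rpow_of_exponent_ge hXvpos hX1.le h2d
    have hYeq : Xv * (2 * X.ρ * X.a) = 4000 * (r * X.a ^ 2 / σ) := by
      rw [hXv, hZ]; field_simp; ring
    have hY2 : Y = 1156 * (r * X.a ^ 2 / σ) := by rw [hY]; ring
    have hu : 0 < r * X.a ^ 2 / σ := by positivity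
    have hXB : 4000 * (r * X.a ^ 2 / σ) ≤ Xv * (2 * X.B + 1) := by
      rw [← hYeq]; exact mul_le_mul_of_nonneg_left hB2 hXvpos.le
    refine hcount.trans ?_
    rw [mul_assoc (16 * (X.a : ℝ))]
    apply mul_le_mul_of_nonneg_left _ (by positivity)
    rcases le_or_gt (6 * (X.R : ℝ) + 3) Y with hcase | hcase
    · calc (2 * (Y + 3 * X.R + 1) + 1) ^ d * M2
          ≤ (Xv * (2 * X.B + 1)) ^ d * (2 * X.K + 1) ^ d := by
            apply mul_le_mul _ (min_le_left _ _) hM20 (by positivity)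
            apply pow_le_pow_left₀ (by positivity)
            linarith
        _ = Xv ^ d * ((2 * X.B + 1) ^ d * (2 * X.K + 1) ^ d) := by rw [mul_pow]; ring
        _ ≤ Xv ^ s2 * ((2 * X.B + 1) ^ d * (2 * X.K + 1) ^ d) :=
            mul_le_mul_of_nonneg_right hXd (by positivity)
        _ ≤ ((r / X.ρ) ^ s3 * Z ^ s2) * ((2 * X.B + 1) ^ d * (2 * X.K + 1) ^ d) := by
            apply mul_le_mul_of_nonneg_right _ (by positivity)
            rw [hXvs]; exact mul_le_mul_of_nonneg_right hexp hZs.le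
        _ = _ := by ring
    · set L : ℝ := 2 * (6 * X.R + 3) / X.τ with hLdef
      have hLpos : 0 < L := by positivity
      have hra : 578 * r * X.a ≤ Y := by
        rw [hY, le_div_iff₀ hσpos]
        nlinarith [mul_pos hr ha]
      have hrsmall : r / X.ρ ≤ (6 * X.R + 3) / (578 * X.a * X.ρ) := by
        rw [div_le_div_iff₀ hρ (by positivity)]
        nlinarith
      have hLr : L ^ d * (r / X.ρ) ^ (s2 - s3) ≤ 1 := by
        refine le_trans ?_ hL
        apply mul_le_mul_of_nonneg_left _ (by positivity)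
        exact Real.rpow_le_rpow hrρ0.le hrsmall (by linarith)
      have hYK : 1 ≤ 2 * (Y * X.K / X.τ) := by
        rw [← mul_div_assoc, le_div_iff₀ hτp]
        have : 578 * r * X.a * X.K ≤ Y * X.K := mul_le_mul_of_nonneg_right hra hKp.le
        linarith
      have hprod : (2 * (Y + 3 * X.R + 1) + 1) * (2 * (Y * X.K / X.τ) + 1) ≤
          L * (Xv * (2 * X.B + 1)) * (2 * X.K + 1) := by
        have k1 : 2 * (Y + 3 * X.R + 1) + 1 ≤ 3 * (6 * X.R + 3) := by linarith
        have k2 : 2 * (Y * X.K / X.τ) + 1 ≤ 4 * (Y * X.K / X.τ) := by linarith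
        calc (2 * (Y + 3 * X.R + 1) + 1) * (2 * (Y * X.K / X.τ) + 1)
            ≤ (3 * (6 * X.R + 3)) * (4 * (Y * X.K / X.τ)) :=
              mul_le_mul k1 k2 (by positivity) (by positivity)
          _ = L * (6 * Y) * X.K := by rw [hLdef]; field_simp; ring
          _ ≤ L * (Xv * (2 * X.B + 1) * 2) * X.K := by
              apply mul_le_mul_of_nonneg_right _ hKp.le
              apply mul_le_mul_of_nonneg_left _ hLpos.le
              linarith
          _ = L * (Xv * (2 * X.B + 1)) * (2 * X.K) := by ring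
          _ ≤ L * (Xv * (2 * X.B + 1)) * (2 * X.K + 1) := by
              apply mul_le_mul_of_nonneg_left _ (by positivity)
              linarith
      calc (2 * (Y + 3 * X.R + 1) + 1) ^ d * M2
          ≤ (2 * (Y + 3 * X.R + 1) + 1) ^ d * (2 * (Y * X.K / X.τ) + 1) ^ d :=
            mul_le_mul_of_nonneg_left (min_le_right _ _) (by positivity)
        _ = ((2 * (Y + 3 * X.R + 1) + 1) * (2 * (Y * X.K / X.τ) + 1)) ^ d := (mul_pow _ _ _).symm
        _ ≤ (L * (Xv * (2 * X.B + 1)) * (2 * X.K + 1)) ^ d :=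
            pow_le_pow_left₀ (by positivity) hprod d
        _ = L ^ d * Xv ^ d * ((2 * X.B + 1) ^ d * (2 * X.K + 1) ^ d) := by
            rw [mul_pow, mul_pow, mul_pow]; ring
        _ ≤ L ^ d * Xv ^ s2 * ((2 * X.B + 1) ^ d * (2 * X.K + 1) ^ d) := by
            apply mul_le_mul_of_nonneg_right _ (by positivity)
            exact mul_le_mul_of_nonneg_left hXd (by positivity)
        _ ≤ ((r / X.ρ) ^ s3 * Z ^ s2) * ((2 * X.B + 1) ^ d * (2 * X.K + 1) ^ d) := by
            apply mul_le_mul_of_nonneg_right _ (by positivity)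
            have e : (r / X.ρ) ^ s2 = (r / X.ρ) ^ (s2 - s3) * (r / X.ρ) ^ s3 := by
              rw [← Real.rpow_add hrρ0]; congr 1; ring
            rw [hXvs, e]
            have : L ^ d * ((r / X.ρ) ^ (s2 - s3) * (r / X.ρ) ^ s3 * Z ^ s2) =
              (L ^ d * (r / X.ρ) ^ (s2 - s3)) * ((r / X.ρ) ^ s3 * Z ^ s2) := by ring
            rw [this]
            calc _ ≤ 1 * ((r / X.ρ) ^ s3 * Z ^ s2) :=
                  mul_le_mul_of_nonneg_right hLr (by positivity)
              _ = _ := one_mul _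
        _ = _ := by ring

end Cfg

end R357Jar
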