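import Pool.Agent.R357.Jar3

set_option autoImplicit false

open scoped BigOperators

noncomputable section

namespace R357Jar

variable {d m : ℕ}

namespace Cfg

variable (X : Cfg d)

open Classical in
/-- the weighted number of close scales of a pair of children. -/
def pairW (s1 : ℝ) (J : ℕ) (p : Ix d) (z1 z2 : ZV d) : ℝ :=
  ∑ j ∈ Finset.range (J + 1), ((2 : ℝ) ^ s1) ^ j *
    (if ∀ l, |X.xx p z1 l - X.xx p z2 l| ≤ X.ρ / 2 ^ j then 1 else 0)

lemma pairW_nonneg (s1 : ℝ) (J : ℕ) (p : Ix d) (z1 z2 : ZV d) : 0 ≤ X.pairW s1 J p z1 z2 := by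
  classical
  unfold pairW
  apply Finset.sum_nonneg
  intro j _
  have : (0 : ℝ) < (2 : ℝ) ^ s1 := Real.rpow_pos_of_pos (by norm_num) _
  split_ifs <;> positivity

lemma sum_pairW {s1 s3 s2 : ℝ} (hs1 : 0 < s1) (h13 : s1 < s3) (h32 : s3 < s2) (h2d : s2 ≤ d)
    {z1 z2 : ZV d} (hz1 : X.tube z1) (hz2 : X.tube z2) (hne : z1 ≠ z2) (J : ℕ)
    (hK : X.τ ≤ 1156 * (X.ρ / 2 ^ J) * X.a * X.K)
    (hL : (2 * (6 * X.R + 3) / X.τ) ^ d * ((6 * X.R + 3) / (578 * X.a * X.ρ)) ^ (s2 - s3) ≤ 1) :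
    ∑ p ∈ X.box, X.pairW s1 J p z1 z2 ≤
      X.box.card * ((1 - (2 : ℝ) ^ (s1 - s3))⁻¹ * (2000 * X.a / size X.c X.ρ (z2 - z1)) ^ s2) := by
  classical
  have hρ := X.hρ
  unfold pairW
  rw [Finset.sum_comm]
  set Zt : ℝ := (2000 * X.a / size X.c X.ρ (z2 - z1)) ^ s2 with hZt
  have hζ : z2 - z1 ≠ 0 := sub_ne_zero.mpr (Ne.symm hne)
  have hsz : 1 ≤ size X.c X.ρ (z2 - z1) := one_le_size hρ (by linarith [X.hρ1]) hζ
  have hZt0 : 0 ≤ Zt := by
    rw [hZt]; apply Real.rpow_nonneg; positivity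
  have hterm : ∀ j ∈ Finset.range (J + 1), ∑ p ∈ X.box, ((2 : ℝ) ^ s1) ^ j *
      (if ∀ l, |X.xx p z1 l - X.xx p z2 l| ≤ X.ρ / 2 ^ j then (1:ℝ) else 0) ≤
      (X.box.card * Zt) * ((2 : ℝ) ^ (s1 - s3)) ^ j := by
    intro j hj
    rw [← Finset.mul_sum, Finset.sum_boole]
    have hjJ : j ≤ J := Nat.lt_succ_iff.mp (Finset.mem_range.mp hj)
    have hpow : (0 : ℝ) < 2 ^ j := by positivity
    have hrj : X.ρ / 2 ^ J ≤ X.ρ / 2 ^ j := by
      apply div_le_div_of_nonneg_left hρ.le hpow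
      exact pow_le_pow_right₀ (by norm_num) hjJ
    have h := X.P_count (s3 := s3) (s2 := s2) (by linarith) h32 h2d hz1 hz2 hne
      (r := X.ρ / 2 ^ j) (by positivity) (div_le_self hρ.le (one_le_pow₀ (by norm_num))) ?_ hL
    · have e1 : (X.ρ / 2 ^ j) / X.ρ = (2 ^ j)⁻¹ := by field_simp
      rw [e1] at h
      have e2 : (((2 : ℝ) ^ j)⁻¹) ^ s3 = ((2 : ℝ) ^ (-s3)) ^ j := by
        rw [← Real.rpow_natCast, ← Real.rpow_neg (by norm_num), ← Real.rpow_mul (by norm_num),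
          ← Real.rpow_natCast, ← Real.rpow_mul (by norm_num)]
        congr 1; ring
      rw [e2] at h
      have e3 : ((2 : ℝ) ^ (s1 - s3)) ^ j = ((2 : ℝ) ^ s1) ^ j * ((2 : ℝ) ^ (-s3)) ^ j := by
        rw [← mul_pow, ← Real.rpow_add (by norm_num)]; congr 2
      rw [e3]
      have hp2 : (0 : ℝ) < ((2 : ℝ) ^ s1) ^ j := by
        have : (0 : ℝ) < (2 : ℝ) ^ s1 := Real.rpow_pos_of_pos (by norm_num) _
        positivity
      calc ((2 : ℝ) ^ s1) ^ j * _ ≤ ((2 : ℝ) ^ s1) ^ j *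
            (X.box.card * (((2 : ℝ) ^ (-s3)) ^ j * Zt)) :=
            mul_le_mul_of_nonneg_left h hp2.le
        _ = _ := by ring
    · refine hK.trans ?_
      have := X.apos
      have := X.Kpos
      gcongr
  refine (Finset.sum_le_sum hterm).trans ?_
  rw [← Finset.mul_sum]
  have hq : (2 : ℝ) ^ (s1 - s3) < 1 := Real.rpow_lt_one_of_one_lt_of_neg (by norm_num) (by linarith)
  have hq0 : 0 < (2 : ℝ) ^ (s1 - s3) := Real.rpow_pos_of_pos (by norm_num) _
  have hg : ∑ j ∈ Finset.range (J + 1), ((2 : ℝ) ^ (s1 - s3)) ^ j ≤ (1 - (2 : ℝ) ^ (s1 - s3))⁻¹ := by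
    rw [← tsum_geometric_of_lt_one hq0.le hq]
    exact (summable_geometric_of_lt_one hq0.le hq).sum_le_tsum _ (fun i _ => by positivity)
  calc (X.box.card * Zt) * ∑ j ∈ Finset.range (J + 1), ((2 : ℝ) ^ (s1 - s3)) ^ j
      ≤ (X.box.card * Zt) * (1 - (2 : ℝ) ^ (s1 - s3))⁻¹ :=
        mul_le_mul_of_nonneg_left hg (by positivity)
    _ = _ := by ring

lemma pairW_le {s1 : ℝ} (hs1 : 0 < s1) (J : ℕ) (p : Ix d) (z1 z2 : ZV d) {n : ℝ}
    (hn : ((2 : ℝ) ^ s1) ^ J ≤ n) :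
    X.pairW s1 J p z1 z2 ≤ (1 - (2 : ℝ) ^ (-s1))⁻¹ * n := by
  classical
  unfold pairW
  have h2 : (0 : ℝ) < (2 : ℝ) ^ s1 := Real.rpow_pos_of_pos (by norm_num) _
  have hq : (2 : ℝ) ^ (-s1) < 1 := Real.rpow_lt_one_of_one_lt_of_neg (by norm_num) (by linarith)
  have hq0 : 0 < (2 : ℝ) ^ (-s1) := Real.rpow_pos_of_pos (by norm_num) _
  have hinv : 0 < (1 - (2 : ℝ) ^ (-s1))⁻¹ := inv_pos.mpr (by linarith)
  calc ∑ j ∈ Finset.range (J + 1), ((2 : ℝ) ^ s1) ^ j *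
      (if ∀ l, |X.xx p z1 l - X.xx p z2 l| ≤ X.ρ / 2 ^ j then (1:ℝ) else 0)
      ≤ ∑ j ∈ Finset.range (J + 1), ((2 : ℝ) ^ s1) ^ j := by
        apply Finset.sum_le_sum
        intro j _
        have : (0 : ℝ) < ((2 : ℝ) ^ s1) ^ j := by positivity
        split_ifs <;> linarith
    _ = ∑ j ∈ Finset.range (J + 1), ((2 : ℝ) ^ s1) ^ J * ((2 : ℝ) ^ (-s1)) ^ j := by
        rw [← Finset.sum_range_reflect]
        apply Finset.sum_congr rfl
        intro j hj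
        have hjJ : j ≤ J := Nat.lt_succ_iff.mp (Finset.mem_range.mp hj)
        have e : J + 1 - 1 - j = J - j := by omega
        rw [e, Real.rpow_neg (by norm_num), inv_pow, pow_sub₀ _ h2.ne' hjJ]
    _ = ((2 : ℝ) ^ s1) ^ J * ∑ j ∈ Finset.range (J + 1), ((2 : ℝ) ^ (-s1)) ^ j := by
        rw [Finset.mul_sum]
    _ ≤ ((2 : ℝ) ^ s1) ^ J * (1 - (2 : ℝ) ^ (-s1))⁻¹ := by
        apply mul_le_mul_of_nonneg_left _ (by positivity)
        rw [← tsum_geometric_of_lt_one hq0.le hq]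
        exact (summable_geometric_of_lt_one hq0.le hq).sum_le_tsum _ (fun i _ => by positivity)
    _ ≤ n * (1 - (2 : ℝ) ^ (-s1))⁻¹ := mul_le_mul_of_nonneg_right hn hinv.le
    _ = _ := mul_comm _ _

/-- existence of a good parameter. -/
lemma exists_param {s1 s3 s2 : ℝ} (hs1 : 0 < s1) (h13 : s1 < s3) (h32 : s3 < s2) (h2d : s2 ≤ d)
    (Zs : Finset (ZV d)) (hZ : ∀ z ∈ Zs, X.tube z) (J : ℕ)
    (hJ : ((2 : ℝ) ^ s1) ^ J ≤ Zs.card)
    (W : ℝ) (hW : ∀ z1 ∈ Zs, ∑ z2 ∈ Zs.erase z1, (X.a / size X.c X.ρ (z2 - z1)) ^ s2 ≤ W * Zs.card)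
    (hK : X.τ ≤ 1156 * (X.ρ / 2 ^ J) * X.a * X.K)
    (hL : (2 * (6 * X.R + 3) / X.τ) ^ d * ((6 * X.R + 3) / (578 * X.a * X.ρ)) ^ (s2 - s3) ≤ 1) :
    ∃ p ∈ X.box, ∑ z1 ∈ Zs, ∑ z2 ∈ Zs, X.pairW s1 J p z1 z2 ≤
      ((1 - (2 : ℝ) ^ (-s1))⁻¹ + (1 - (2 : ℝ) ^ (s1 - s3))⁻¹ * (2000 ^ s2 * W)) *
        (Zs.card * Zs.card) := by
  classical
  set D1 : ℝ := (1 - (2 : ℝ) ^ (-s1))⁻¹ with hD1
  set D2 : ℝ := (1 - (2 : ℝ) ^ (s1 - s3))⁻¹ with hD2
  have hD2pos : 0 < D2 := by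
    apply inv_pos.mpr
    have : (2 : ℝ) ^ (s1 - s3) < 1 :=
      Real.rpow_lt_one_of_one_lt_of_neg (by norm_num) (by linarith)
    linarith
  have hne : X.box.Nonempty := by
    rw [← Finset.card_pos, X.box_card]
    have := X.ha
    positivity
  have hsum : ∑ p ∈ X.box, ∑ z1 ∈ Zs, ∑ z2 ∈ Zs, X.pairW s1 J p z1 z2 ≤
      ∑ _p ∈ X.box, (D1 + D2 * (2000 ^ s2 * W)) * (Zs.card * Zs.card) := by
    rw [Finset.sum_comm]
    have hz : ∀ z1 ∈ Zs, ∑ p ∈ X.box, ∑ z2 ∈ Zs, X.pairW s1 J p z1 z2 ≤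
        X.box.card * ((D1 + D2 * (2000 ^ s2 * W)) * Zs.card) := by
      intro z1 hz1
      rw [Finset.sum_comm, ← Finset.add_sum_erase _ _ hz1]
      have h1 : ∑ p ∈ X.box, X.pairW s1 J p z1 z1 ≤ X.box.card * (D1 * Zs.card) := by
        calc _ ≤ ∑ _p ∈ X.box, D1 * Zs.card :=
              Finset.sum_le_sum fun p _ => X.pairW_le hs1 J p z1 z1 hJ
          _ = _ := by rw [Finset.sum_const, nsmul_eq_mul]
      have h2 : ∑ z2 ∈ Zs.erase z1, ∑ p ∈ X.box, X.pairW s1 J p z1 z2 ≤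
          X.box.card * (D2 * (2000 ^ s2 * W) * Zs.card) := by
        calc _ ≤ ∑ z2 ∈ Zs.erase z1, X.box.card *
              (D2 * (2000 * X.a / size X.c X.ρ (z2 - z1)) ^ s2) := by
              apply Finset.sum_le_sum
              intro z2 hz2
              rw [Finset.mem_erase] at hz2
              exact X.sum_pairW hs1 h13 h32 h2d (hZ z1 hz1) (hZ z2 hz2.2) (Ne.symm hz2.1) J hK hL
          _ = X.box.card * (D2 * 2000 ^ s2) *
              ∑ z2 ∈ Zs.erase z1, (X.a / size X.c X.ρ (z2 - z1)) ^ s2 := by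
              rw [Finset.mul_sum]
              apply Finset.sum_congr rfl
              intro z2 _
              have hsz : 0 ≤ X.a / size X.c X.ρ (z2 - z1) := by
                apply div_nonneg X.apos.le
                exact le_max_of_le_left (abs_nonneg _)
              rw [mul_div_assoc, Real.mul_rpow (by norm_num) hsz]
              ring
          _ ≤ X.box.card * (D2 * 2000 ^ s2) * (W * Zs.card) :=
              mul_le_mul_of_nonneg_left (hW z1 hz1) (by positivity)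
          _ = _ := by ring
      calc _ ≤ X.box.card * (D1 * Zs.card) + X.box.card * (D2 * (2000 ^ s2 * W) * Zs.card) :=
            add_le_add h1 h2
        _ = _ := by ring
    calc _ ≤ ∑ _z1 ∈ Zs, X.box.card * ((D1 + D2 * (2000 ^ s2 * W)) * Zs.card) :=
          Finset.sum_le_sum hz
      _ = _ := by
          rw [Finset.sum_const, Finset.sum_const, nsmul_eq_mul, nsmul_eq_mul]; ring
  obtain ⟨p, hp, hle⟩ := Finset.exists_le_of_sum_le hne hsum
  exact ⟨p, hp, hle⟩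

/-- good children: Frostman bound. -/
lemma frostman {s1 : ℝ} (hs1 : 0 < s1) (Zs : Finset (ZV d)) (hne : Zs.Nonempty) (J : ℕ)
    (p : Ix d) (C5 : ℝ) (hC5 : 0 < C5)
    (hp : ∑ z1 ∈ Zs, ∑ z2 ∈ Zs, X.pairW s1 J p z1 z2 ≤ C5 * (Zs.card * Zs.card)) :
    ∃ ι ⊆ Zs, ι.Nonempty ∧ ∀ (ρ' : ℝ), 0 < ρ' → X.ρ / 2 ^ J ≤ 2 * ρ' →
      ∀ (y : Fin d → ℝ) (r : ℝ), ρ' ≤ r →
      ((ι.filter (fun z => ∀ l, |X.xx p z l - y l| ≤ r)).card : ℝ) ≤
        (4 ^ s1 * (4 * C5 + 1)) * ι.card * (r / X.ρ) ^ s1 := by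
  classical
  have hρ := X.hρ
  set n : ℝ := (Zs.card : ℝ) with hn
  have hnpos : 0 < n := by rw [hn]; exact_mod_cast hne.card_pos
  set ι := Zs.filter (fun z1 => ∑ z2 ∈ Zs, X.pairW s1 J p z1 z2 ≤ 2 * C5 * n) with hι
  have hbad : ((Zs.filter (fun z1 => ¬ (∑ z2 ∈ Zs, X.pairW s1 J p z1 z2 ≤ 2 * C5 * n))).card : ℝ)
      * (2 * C5 * n) ≤ C5 * (n * n) := by
    calc _ = ∑ _z1 ∈ Zs.filter (fun z1 => ¬ (∑ z2 ∈ Zs, X.pairW s1 J p z1 z2 ≤ 2 * C5 * n)),
          2 * C5 * n := by rw [Finset.sum_const, nsmul_eq_mul]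
      _ ≤ ∑ z1 ∈ Zs.filter (fun z1 => ¬ (∑ z2 ∈ Zs, X.pairW s1 J p z1 z2 ≤ 2 * C5 * n)),
          ∑ z2 ∈ Zs, X.pairW s1 J p z1 z2 := by
          apply Finset.sum_le_sum
          intro z hz
          rw [Finset.mem_filter] at hz
          exact (not_le.mp hz.2).le
      _ ≤ ∑ z1 ∈ Zs, ∑ z2 ∈ Zs, X.pairW s1 J p z1 z2 := by
          apply Finset.sum_le_sum_of_subset_of_nonneg (Finset.filter_subset _ _)
          intro i _ _
          exact Finset.sum_nonneg fun j _ => X.pairW_nonneg _ _ _ _ _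
      _ ≤ _ := hp
  have hbad2 : ((Zs.filter (fun z1 => ¬ (∑ z2 ∈ Zs, X.pairW s1 J p z1 z2 ≤ 2 * C5 * n))).card : ℝ)
      ≤ n / 2 := by
    have hpos : 0 < 2 * C5 * n := by positivity
    by_contra hcon
    rw [not_le] at hcon
    have : n / 2 * (2 * C5 * n) < ((Zs.filter (fun z1 => ¬ (∑ z2 ∈ Zs,
      X.pairW s1 J p z1 z2 ≤ 2 * C5 * n))).card : ℝ) * (2 * C5 * n) :=
      mul_lt_mul_of_pos_right hcon hpos
    nlinarith
  have hsplit : (ι.card : ℝ) + ((Zs.filter (fun z1 => ¬ (∑ z2 ∈ Zs,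
      X.pairW s1 J p z1 z2 ≤ 2 * C5 * n))).card : ℝ) = n := by
    rw [hι, hn]
    exact_mod_cast Finset.card_filter_add_card_filter_not (s := Zs)
      (fun z1 => ∑ z2 ∈ Zs, X.pairW s1 J p z1 z2 ≤ 2 * C5 * n)
  have hιn : n ≤ 2 * ι.card := by linarith
  have hιpos : (0 : ℝ) < ι.card := by linarith
  refine ⟨ι, Finset.filter_subset _ _, ?_, ?_⟩
  · rw [← Finset.card_pos]; exact_mod_cast hιpos
  intro ρ' hρ' hJ y r hr
  have hrpos : 0 < r := by linarith
  have h4 : (0 : ℝ) < (4 : ℝ) ^ s1 := Real.rpow_pos_of_pos (by norm_num) _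
  have hrr : 0 < r / X.ρ := by positivity
  set T := ι.filter (fun z => ∀ l, |X.xx p z l - y l| ≤ r) with hT
  rcases le_or_gt (2 * r) X.ρ with h2 | h2
  · -- small r
    by_cases hTne : T.Nonempty
    swap
    · rw [Finset.not_nonempty_iff_eq_empty] at hTne
      rw [hTne]; simp; positivity
    obtain ⟨z1, hz1⟩ := hTne
    have hz1' := Finset.mem_filter.mp hz1
    have hx : 1 ≤ X.ρ / (2 * r) := by rw [le_div_iff₀ (by positivity)]; linarith
    have hxp : 0 < X.ρ / (2 * r) := by linarith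
    set j : ℕ := ⌊Real.logb 2 (X.ρ / (2 * r))⌋₊ with hj
    have hl : 0 ≤ Real.logb 2 (X.ρ / (2 * r)) := Real.logb_nonneg (by norm_num) hx
    have hj1 : (2 : ℝ) ^ j ≤ X.ρ / (2 * r) := by
      have := Nat.floor_le hl
      rw [← Real.rpow_natCast]
      calc (2 : ℝ) ^ ((j : ℕ) : ℝ) ≤ 2 ^ (Real.logb 2 (X.ρ / (2 * r))) :=
            Real.rpow_le_rpow_of_exponent_le (by norm_num) this
        _ = _ := Real.rpow_logb (by norm_num) (by norm_num) hxp
    have hj2 : X.ρ / (2 * r) < (2 : ℝ) ^ (j + 1) := by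
      have := Nat.lt_floor_add_one (Real.logb 2 (X.ρ / (2 * r)))
      rw [← Real.rpow_natCast]
      calc X.ρ / (2 * r) = 2 ^ (Real.logb 2 (X.ρ / (2 * r))) :=
            (Real.rpow_logb (by norm_num) (by norm_num) hxp).symm
        _ < 2 ^ (((j + 1 : ℕ)) : ℝ) := by
            apply Real.rpow_lt_rpow_of_exponent_lt (by norm_num)
            push_cast; exact this
    have hjJ : j ≤ J := by
      have h3 : (2 : ℝ) ^ j ≤ 2 ^ J := by
        refine hj1.trans ?_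
        rw [div_le_iff₀ (by positivity)]
        rw [div_le_iff₀ (by positivity)] at hJ
        have : (2 : ℝ) ^ J * (2 * ρ') ≤ 2 ^ J * (2 * r) := by
          apply mul_le_mul_of_nonneg_left _ (by positivity); linarith
        linarith
      exact (pow_le_pow_iff_right₀ (by norm_num)).mp h3
    have h2j : (0 : ℝ) < 2 ^ j := by positivity
    have h2s : (0 : ℝ) < ((2 : ℝ) ^ s1) ^ j := by
      have : (0 : ℝ) < (2 : ℝ) ^ s1 := Real.rpow_pos_of_pos (by norm_num) _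
      positivity
    -- count
    have hcnt : (T.card : ℝ) * ((2 : ℝ) ^ s1) ^ j ≤ 2 * C5 * n := by
      calc (T.card : ℝ) * ((2 : ℝ) ^ s1) ^ j = ∑ _z2 ∈ T, ((2 : ℝ) ^ s1) ^ j := by
            rw [Finset.sum_const, nsmul_eq_mul]
        _ ≤ ∑ z2 ∈ T, X.pairW s1 J p z1 z2 := by
            apply Finset.sum_le_sum
            intro z2 hz2
            have hz2' := Finset.mem_filter.mp hz2
            unfold pairW
            have hmem : j ∈ Finset.range (J + 1) := Finset.mem_range.mpr (by omega)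
            refine le_trans (le_of_eq ?_) (Finset.single_le_sum (f := fun j => ((2 : ℝ) ^ s1) ^ j *
              (if ∀ l, |X.xx p z1 l - X.xx p z2 l| ≤ X.ρ / 2 ^ j then (1:ℝ) else 0)) ?_ hmem)
            · have : ∀ l, |X.xx p z1 l - X.xx p z2 l| ≤ X.ρ / 2 ^ j := by
                intro l
                have a1 := hz1'.2 l
                have a2 := hz2'.2 l
                have a3 : 2 * r ≤ X.ρ / 2 ^ j := by
                  rw [le_div_iff₀ h2j]
                  rw [le_div_iff₀ (by positivity)] at hj1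
                  linarith
                rw [abs_le] at a1 a2 ⊢
                constructor <;> linarith [a1.1, a1.2, a2.1, a2.2]
              simp only [if_pos this, mul_one]
            · intro i _
              have : (0 : ℝ) < (2 : ℝ) ^ s1 := Real.rpow_pos_of_pos (by norm_num) _
              split_ifs <;> positivity
        _ ≤ ∑ z2 ∈ Zs, X.pairW s1 J p z1 z2 := by
            apply Finset.sum_le_sum_of_subset_of_nonneg
            · exact (Finset.filter_subset _ _).trans (Finset.filter_subset _ _)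
            · intro i _ _; exact X.pairW_nonneg _ _ _ _ _
        _ ≤ 2 * C5 * n := (Finset.mem_filter.mp hz1'.1).2
    -- lower bound of 2^{j s1}
    have hlow : 1 ≤ ((2 : ℝ) ^ s1) ^ j * (4 ^ s1 * (r / X.ρ) ^ s1) := by
      have e : ((2 : ℝ) ^ s1) ^ j = ((2 : ℝ) ^ j) ^ s1 := by
        rw [← Real.rpow_natCast, ← Real.rpow_natCast, ← Real.rpow_mul (by norm_num),
          ← Real.rpow_mul (by norm_num)]; congr 1; ring
      rw [e, ← Real.mul_rpow (by norm_num) hrr.le, ← Real.mul_rpow h2j.le (by positivity)]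
      apply Real.one_le_rpow _ hs1.le
      rw [pow_succ, div_lt_iff₀ (by positivity)] at hj2
      have : (2 : ℝ) ^ j * (4 * (r / X.ρ)) = (2 ^ j * 2 * (2 * r)) / X.ρ := by
        field_simp; ring
      rw [this, le_div_iff₀ hρ]
      linarith
    calc (T.card : ℝ) = T.card * 1 := (mul_one _).symm
      _ ≤ T.card * (((2 : ℝ) ^ s1) ^ j * (4 ^ s1 * (r / X.ρ) ^ s1)) :=
          mul_le_mul_of_nonneg_left hlow (by positivity)
      _ = (T.card * ((2 : ℝ) ^ s1) ^ j) * (4 ^ s1 * (r / X.ρ) ^ s1) := by ring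
      _ ≤ (2 * C5 * n) * (4 ^ s1 * (r / X.ρ) ^ s1) :=
          mul_le_mul_of_nonneg_right hcnt (by positivity)
      _ ≤ (2 * C5 * (2 * ι.card)) * (4 ^ s1 * (r / X.ρ) ^ s1) := by
          apply mul_le_mul_of_nonneg_right _ (by positivity)
          apply mul_le_mul_of_nonneg_left hιn (by positivity)
      _ = 4 ^ s1 * (4 * C5) * ι.card * (r / X.ρ) ^ s1 := by ring
      _ ≤ 4 ^ s1 * (4 * C5 + 1) * ι.card * (r / X.ρ) ^ s1 := by
          have : 0 ≤ (4 : ℝ) ^ s1 * ι.card * (r / X.ρ) ^ s1 := by positivity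
          nlinarith
  · -- large r
    have h1 : 1 ≤ (4 : ℝ) ^ s1 * (r / X.ρ) ^ s1 := by
      rw [← Real.mul_rpow (by norm_num) hrr.le]
      apply Real.one_le_rpow _ hs1.le
      rw [← mul_div_assoc, le_div_iff₀ hρ]
      linarith
    have h3 : (T.card : ℝ) ≤ ι.card := by exact_mod_cast Finset.card_filter_le _ _
    calc (T.card : ℝ) ≤ ι.card * 1 := by rw [mul_one]; exact h3
      _ ≤ ι.card * ((4 : ℝ) ^ s1 * (r / X.ρ) ^ s1) :=
          mul_le_mul_of_nonneg_left h1 (by positivity)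
      _ = 4 ^ s1 * 1 * ι.card * (r / X.ρ) ^ s1 := by ring
      _ ≤ 4 ^ s1 * (4 * C5 + 1) * ι.card * (r / X.ρ) ^ s1 := by
          gcongr
          linarith

end Cfg

end R357Jar
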