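import Pool.Agent.R357.Jar4

set_option autoImplicit false

open scoped BigOperators
open Filter

noncomputable section

namespace R357Jar

variable {d m : ℕ}

lemma ev_big {β : ℝ} (hβ : 0 < β) (K : ℝ) : ∀ᶠ h : ℝ in atTop, K ≤ h ^ β :=
  (tendsto_rpow_atTop hβ).eventually_ge_atTop K

lemma ev_small {β : ℝ} (hβ : β < 0) {K : ℝ} (hK : 0 < K) : ∀ᶠ h : ℝ in atTop, h ^ β < K := by
  have h1 : Tendsto (fun h : ℝ => h ^ (-(-β))) atTop (nhds 0) :=
    tendsto_rpow_neg_atTop (by linarith)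
  simp only [neg_neg] at h1
  exact h1.eventually_lt_const hK

/-- the Diophantine hypothesis in the form used. -/
def Approx (A0 : Fin m → ℝ) (A1 : Fin d → Fin m → ℝ) (ω : ℝ) : Prop :=
  ∀ N : ℝ, ∃ (q0 : Fin m → ℤ) (H : ℤ) (l0 : Fin m), N ≤ H ∧ (∀ j, |q0 j| ≤ H) ∧ |q0 l0| = H ∧
    ∃ (p0 : ℤ) (p1 : Fin d → ℤ), |∑ j, A0 j * q0 j - p0| ≤ (H : ℝ) ^ (-ω) ∧
      ∀ l, |∑ j, A1 l j * q0 j - p1 l| ≤ (H : ℝ) ^ (-ω)

lemma params (A0 : Fin m → ℝ) (A1 : Fin d → Fin m → ℝ) (hm : 0 < m) {s s' ω α : ℝ}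
    (hs : 0 < s) (hs' : 0 < s') (hsd : s < d + 1) (hα0 : 0 < α) (hαE : α < 1 + ω)
    (h1 : 1 + (1 + ω) * (m - 1 + s') < α * (d + m))
    (h2 : α * (d + m + 1) < (1 + ω) * (m + s))
    (hinf : Approx A0 A1 ω) {c : Fin d → ℝ} (hc : ∀ l, |c l| ≤ 1) {ρ : ℝ} (hρ : 0 < ρ)
    (hρ1 : ρ ≤ 1) (M : ℝ) (hM : 0 < M) (ε : ℝ) (hε : 0 < ε) :
    ∃ (ψ : ℝ) (Q : ℕ), 0 < ψ ∧ ψ < ε ∧ 1 ≤ Q ∧ M * ((Q : ℝ) / ψ) ^ s' ≤ G A0 A1 c ρ ψ Q ∧
      ψ ^ ((m : ℝ) + s) * (48 * Q : ℝ) ^ ((d : ℝ) + 1 - s) < ε := by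
  have hmr : (1 : ℝ) ≤ m := by exact_mod_cast hm
  set c3 : ℝ := (1 / 2) * (ρ / 8) ^ d / (5 * m * (3 * m) ^ (m - 1)) with hc3
  have hc3pos : 0 < c3 := by positivity
  set C1 : ℝ := 8 * (d + 1) with hC1
  have hC1pos : 0 < C1 := by positivity
  have hC1ge : 8 ≤ C1 := by
    have : (0 : ℝ) ≤ d := by positivity
    rw [hC1]; linarith
  set C2 : ℝ := C1 ^ ((m : ℝ) + s) * 48 ^ ((d : ℝ) + 1 - s) with hC2
  have hC2pos : 0 < C2 := by
    apply mul_pos <;> apply Real.rpow_pos_of_pos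
    · exact hC1pos
    · norm_num
  have e1 := ev_big hα0 (8 / ρ)
  have e2 := ev_small (β := α - (1 + ω)) (by linarith) (K := min ε 1 / C1) (by positivity)
  have e3 := ev_small (β := α * (d + m + 1) - (1 + ω) * (m + s)) (by linarith)
    (K := ε / C2) (by positivity)
  have e4 := ev_big (β := α * (d + m) - (1 + (1 + ω) * (m - 1 + s'))) (by linarith) (M / c3)
  obtain ⟨H0, hH0⟩ := eventually_atTop.mp ((e1.and e2).and ((e3.and e4).and (eventually_ge_atTop 1)))
  obtain ⟨q0, H, l0, hNH, hq, hl0, p0, p1, ha0, ha1⟩ := hinf (max H0 1)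
  have hHr : (H0 : ℝ) ≤ H := (le_max_left _ _).trans hNH
  have hH1 : (1 : ℝ) ≤ H := (le_max_right _ _).trans hNH
  obtain ⟨⟨f1, f2⟩, ⟨f3, f4⟩, -⟩ := hH0 H hHr
  have hHint : 1 ≤ H := by exact_mod_cast hH1
  set h : ℝ := (H : ℝ) with hh
  have hpos : 0 < h := by linarith
  set a : ℝ := h ^ α with haα
  have hapos : 0 < a := Real.rpow_pos_of_pos hpos _
  set Q : ℕ := ⌊a⌋₊ with hQ
  have h8 : 8 ≤ a := by
    refine le_trans ?_ f1
    rw [le_div_iff₀ hρ]; nlinarith
  have hQ1 : (Q : ℝ) ≤ a := Nat.floor_le hapos.le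
  have hQ2 : a / 2 ≤ Q := by
    have := Nat.lt_floor_add_one a
    rw [← hQ] at this
    linarith
  have hQpos : (0 : ℝ) < Q := by linarith
  have hQnat : 1 ≤ Q := by
    have : (0 : ℝ) < Q := hQpos
    exact_mod_cast this
  set E : ℝ := 1 + ω with hE
  set ψ : ℝ := C1 * Q * h ^ (-E) with hψ
  have hEpos : 0 < h ^ (-E) := Real.rpow_pos_of_pos hpos _
  have hψpos : 0 < ψ := by positivity
  have hψle : ψ ≤ C1 * h ^ (α - E) := by
    rw [hψ, sub_eq_add_neg, Real.rpow_add hpos, ← haα, mul_assoc]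
    apply mul_le_mul_of_nonneg_left _ hC1pos.le
    exact mul_le_mul_of_nonneg_right hQ1 hEpos.le
  have hψlt : ψ < min ε 1 := by
    refine lt_of_le_of_lt hψle ?_
    rw [lt_div_iff₀ hC1pos] at f2
    linarith
  have hψε : ψ < ε := lt_of_lt_of_le hψlt (min_le_left _ _)
  have hψ1 : ψ < 1 := lt_of_lt_of_le hψlt (min_le_right _ _)
  have hψge : h ^ (α - E) ≤ ψ := by
    rw [hψ, sub_eq_add_neg, Real.rpow_add hpos, ← haα]
    apply mul_le_mul_of_nonneg_right _ hEpos.le
    nlinarith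
  refine ⟨ψ, Q, hψpos, hψε, hQnat, ?_, ?_⟩
  · -- counting bound
    set N : ℕ := ⌈2 * m / ψ⌉₊ with hN
    have hNge : 2 * m / ψ ≤ N := Nat.le_ceil _
    have h2m : 2 ≤ 2 * m / ψ := by
      rw [le_div_iff₀ hψpos]; nlinarith
    have hNpos : (0 : ℝ) < N := by linarith
    have hN1 : 1 ≤ N := by exact_mod_cast hNpos
    have hNle : (N : ℝ) ≤ 3 * m / ψ := by
      have h3 := Nat.ceil_lt_add_one (a := 2 * m / ψ) (by positivity)
      rw [← hN] at h3
      have : 1 ≤ m / ψ := by rw [le_div_iff₀ hψpos]; linarith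
      have e : 3 * m / ψ = 2 * m / ψ + m / ψ := by ring
      rw [e]; linarith
    have hρQ : 4 ≤ ρ * Q := by
      rw [div_le_iff₀ hρ] at f1
      nlinarith
    set B : ℕ := ⌊ρ * Q / 2⌋₊ - 1 with hB
    have hfl : 2 ≤ ⌊ρ * Q / 2⌋₊ := Nat.le_floor (by push_cast; linarith)
    have hBcast : (B : ℝ) = ⌊ρ * Q / 2⌋₊ - 1 := by
      rw [hB, Nat.cast_sub (by omega)]; simp
    have hB1 : 2 * (B : ℝ) + 2 ≤ ρ * Q := by
      have := Nat.floor_le (a := ρ * Q / 2) (by positivity)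
      rw [hBcast]; linarith
    have hB2 : ρ * Q / 4 ≤ 2 * B + 1 := by
      have := Nat.lt_floor_add_one (ρ * Q / 2)
      rw [hBcast]; linarith
    have hEω : h ^ (-ω) / h = h ^ (-E) := by
      rw [hE, neg_add, add_comm (-1 : ℝ) (-ω), Real.rpow_add hpos, Real.rpow_neg_one]
      rfl
    have hpig := pigeon A0 A1 hc hρ1 q0 H hHint hq l0 hl0 p0 p1 (h ^ (-ω)) ha0 ha1 Q N B hN1 hB1 ψ
      ?_ ?_
    · have hpig' : ((Q : ℝ) + 1) * (2 * B + 1) ^ d ≤
          (2 * (m * h) + 3) * (N : ℝ) ^ (m - 1) * G A0 A1 c ρ ψ Q := by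
        have t : (((2 * (m * H) + 3 : ℤ)).toNat : ℝ) = 2 * (m * h) + 3 := by
          have h0 : (0 : ℤ) ≤ 2 * (m * H) + 3 := by positivity
          have : (((2 * (m * H) + 3 : ℤ)).toNat : ℝ) = ((2 * (m * H) + 3 : ℤ) : ℝ) := by
            exact_mod_cast Int.toNat_of_nonneg h0
          rw [this]; push_cast; rfl
        have := (Nat.cast_le (α := ℝ)).mpr hpig
        push_cast at this
        rw [← t]
        simpa [G] using this
      have hG : c3 * h ^ (α * (d + m) - (1 + (1 + ω) * (m - 1))) ≤ G A0 A1 c ρ ψ Q := by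
        have k1 : a / 2 * (ρ * a / 8) ^ d ≤ ((Q : ℝ) + 1) * (2 * B + 1) ^ d := by
          apply mul_le_mul _ _ (by positivity) (by positivity)
          · linarith
          · apply pow_le_pow_left₀ (by positivity)
            refine le_trans ?_ hB2
            have : ρ * (a / 2) ≤ ρ * Q := mul_le_mul_of_nonneg_left hQ2 hρ.le
            linarith
        have hmcast : ((m - 1 : ℕ) : ℝ) = m - 1 := by
          rw [Nat.cast_sub (by omega)]; simp
        set P : ℝ := h ^ ((E - α) * (m - 1)) with hP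
        have hPpos : 0 < P := Real.rpow_pos_of_pos hpos _
        have k2 : (N : ℝ) ^ (m - 1) ≤ (3 * m) ^ (m - 1) * P := by
          calc (N : ℝ) ^ (m - 1) ≤ (3 * m * h ^ (E - α)) ^ (m - 1) := by
                apply pow_le_pow_left₀ (by positivity)
                refine hNle.trans ?_
                rw [div_le_iff₀ hψpos, mul_assoc]
                have : 1 ≤ h ^ (E - α) * ψ := by
                  calc (1 : ℝ) = h ^ (E - α) * h ^ (α - E) := by
                        rw [← Real.rpow_add hpos]; simp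
                    _ ≤ _ := mul_le_mul_of_nonneg_left hψge (by positivity)
                nlinarith
            _ = _ := by
                rw [mul_pow, hP, ← Real.rpow_natCast (h ^ (E - α)), ← Real.rpow_mul hpos.le, hmcast]
        have k3 : 2 * (m * h) + 3 ≤ 5 * m * h := by nlinarith
        have k4 : a / 2 * (ρ * a / 8) ^ d = c3 * h ^ (α * (d + m) - (1 + (1 + ω) * (m - 1))) *
            ((5 * m * h) * ((3 * m) ^ (m - 1) * P)) := by
          have e5 : h ^ (α * (d + m) - (1 + (1 + ω) * (m - 1))) * (h * P) = a * a ^ d := by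
            rw [hP, haα, ← Real.rpow_natCast, ← Real.rpow_mul hpos.le]
            nth_rewrite 2 [← Real.rpow_one h]
            rw [← Real.rpow_add hpos, ← Real.rpow_add hpos, ← Real.rpow_add hpos]
            congr 1; rw [hE]; ring
          have e6 : c3 * (5 * m * (3 * m) ^ (m - 1)) = (1 / 2) * (ρ / 8) ^ d := by
            rw [hc3]; field_simp
          calc a / 2 * (ρ * a / 8) ^ d = ((1 / 2) * (ρ / 8) ^ d) * (a * a ^ d) := by
                rw [mul_div_right_comm, mul_pow]; ring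
            _ = (c3 * (5 * m * (3 * m) ^ (m - 1))) *
                (h ^ (α * (d + m) - (1 + (1 + ω) * (m - 1))) * (h * P)) := by rw [e5, e6]
            _ = _ := by ring
        have k5 : (2 * (m * h) + 3) * (N : ℝ) ^ (m - 1) ≤
            (5 * m * h) * ((3 * m) ^ (m - 1) * P) :=
          mul_le_mul k3 k2 (by positivity) (by positivity)
        have k6 : c3 * h ^ (α * (d + m) - (1 + (1 + ω) * (m - 1))) *
            ((5 * m * h) * ((3 * m) ^ (m - 1) * P)) ≤
            G A0 A1 c ρ ψ Q * ((5 * m * h) * ((3 * m) ^ (m - 1) * P)) := by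
          rw [← k4]
          refine k1.trans (hpig'.trans ?_)
          rw [mul_comm _ ((G A0 A1 c ρ ψ Q : ℕ) : ℝ)]
          exact mul_le_mul_of_nonneg_left k5 (by positivity)
        exact le_of_mul_le_mul_right k6 (by positivity)
      refine le_trans ?_ hG
      have hQψ : (Q : ℝ) / ψ ≤ h ^ E := by
        rw [div_le_iff₀ hψpos, hψ]
        have : h ^ E * (C1 * Q * h ^ (-E)) = C1 * Q * (h ^ E * h ^ (-E)) := by ring
        rw [this, ← Real.rpow_add hpos, add_neg_cancel, Real.rpow_zero]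
        nlinarith
      calc M * ((Q : ℝ) / ψ) ^ s' ≤ M * (h ^ E) ^ s' := by
            apply mul_le_mul_of_nonneg_left _ hM.le
            exact Real.rpow_le_rpow (by positivity) hQψ hs'.le
        _ = (M / c3) * c3 * h ^ (E * s') := by
            rw [← Real.rpow_mul hpos.le]; field_simp
        _ ≤ h ^ (α * (d + m) - (1 + (1 + ω) * (m - 1 + s'))) * c3 * h ^ (E * s') := by
            apply mul_le_mul_of_nonneg_right _ (by positivity)
            exact mul_le_mul_of_nonneg_right f4 hc3pos.le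
        _ = c3 * (h ^ (α * (d + m) - (1 + (1 + ω) * (m - 1 + s'))) * h ^ (E * s')) := by ring
        _ = c3 * h ^ (α * (d + m) - (1 + (1 + ω) * (m - 1))) := by
            rw [← Real.rpow_add hpos]; congr 2; rw [hE]; ring
    · rw [div_le_iff₀ hNpos]
      rw [div_le_iff₀ hψpos] at hNge
      nlinarith
    · have k1 : (m : ℝ) / N ≤ ψ / 2 := by
        rw [div_le_iff₀ hNpos]
        rw [div_le_iff₀ hψpos] at hNge
        linarith
      have k2 : (2 * ((d + 1) * (2 * Q) * h ^ (-ω))) / h ≤ ψ / 2 := by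
        have : (2 * (((d : ℝ) + 1) * (2 * Q) * h ^ (-ω))) / h =
            4 * (d + 1) * Q * (h ^ (-ω) / h) := by ring
        rw [this, hEω, hψ, hC1]
        apply le_of_eq; ring
      linarith
  · -- cost
    have hms : (0 : ℝ) ≤ m + s := by positivity
    have hds : (0 : ℝ) ≤ d + 1 - s := by linarith
    have k1 : ψ ^ ((m : ℝ) + s) ≤ C1 ^ ((m : ℝ) + s) * h ^ ((α - E) * (m + s)) := by
      calc ψ ^ ((m : ℝ) + s) ≤ (C1 * h ^ (α - E)) ^ ((m : ℝ) + s) :=
            Real.rpow_le_rpow hψpos.le hψle hms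
        _ = _ := by
            rw [Real.mul_rpow hC1pos.le (by positivity), ← Real.rpow_mul hpos.le]
    have k2 : (48 * Q : ℝ) ^ ((d : ℝ) + 1 - s) ≤
        48 ^ ((d : ℝ) + 1 - s) * h ^ (α * (d + 1 - s)) := by
      calc (48 * Q : ℝ) ^ ((d : ℝ) + 1 - s) ≤ (48 * a) ^ ((d : ℝ) + 1 - s) := by
            apply Real.rpow_le_rpow (by positivity) _ hds
            linarith
        _ = _ := by
            rw [Real.mul_rpow (by norm_num) hapos.le, haα, ← Real.rpow_mul hpos.le]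
    calc ψ ^ ((m : ℝ) + s) * (48 * Q : ℝ) ^ ((d : ℝ) + 1 - s)
        ≤ (C1 ^ ((m : ℝ) + s) * h ^ ((α - E) * (m + s))) *
          (48 ^ ((d : ℝ) + 1 - s) * h ^ (α * (d + 1 - s))) :=
          mul_le_mul k1 k2 (by positivity) (by positivity)
      _ = C2 * (h ^ ((α - E) * (m + s)) * h ^ (α * (d + 1 - s))) := by rw [hC2]; ring
      _ = C2 * h ^ (α * (d + m + 1) - (1 + ω) * (m + s)) := by
          rw [← Real.rpow_add hpos]; congr 2; rw [hE]; ring
      _ < C2 * (ε / C2) := mul_lt_mul_of_pos_left f3 hC2pos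
      _ = ε := by field_simp

end R357Jar
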