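import Pool.Agent.R357.Jar5

set_option autoImplicit false

open scoped BigOperators
open Filter

noncomputable section

namespace R357Jar

variable {d m : ℕ}

lemma G_le (A0 : Fin m → ℝ) (A1 : Fin d → Fin m → ℝ) {c : Fin d → ℝ} (hc : ∀ l, |c l| ≤ 1)
    {ρ : ℝ} (hρ1 : ρ ≤ 1) (δ : ℝ) (a : ℕ) (ha : 1 ≤ a) :
    (G A0 A1 c ρ δ a : ℝ) ≤ (5 * a : ℝ) ^ (d + 1) := by
  classical
  have hfin := E_finite A0 A1 hc hρ1 (a : ℝ) δ
  rw [G, Set.ncard_eq_toFinset_card _ hfin]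
  have hsub : hfin.toFinset ⊆ (Finset.Icc (-(2 * a : ℤ)) (2 * a)) ×ˢ
      (Fintype.piFinset fun _ : Fin d => Finset.Icc (-(2 * a : ℤ)) (2 * a)) := by
    intro z hz
    rw [Set.Finite.mem_toFinset] at hz
    obtain ⟨h1, h2, -⟩ := hz
    have ha0 : (0 : ℝ) ≤ a := by positivity
    have key : ∀ b : ℤ, |(b : ℝ)| ≤ 2 * a → b ∈ Finset.Icc (-(2 * a : ℤ)) (2 * a) := by
      intro b hb
      rw [abs_le] at hb
      rw [Finset.mem_Icc]
      constructor
      · have : ((-(2 * a : ℤ) : ℤ) : ℝ) ≤ (b : ℝ) := by push_cast; linarith [hb.1]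
        exact_mod_cast this
      · have : (b : ℝ) ≤ ((2 * a : ℤ) : ℝ) := by push_cast; linarith [hb.2]
        exact_mod_cast this
    rw [Finset.mem_product, Fintype.mem_piFinset]
    refine ⟨key _ (by linarith), fun l => key _ ?_⟩
    have h4 : |(z.1 : ℝ) * c l| ≤ a := by
      rw [abs_mul]
      calc |(z.1 : ℝ)| * |c l| ≤ a * 1 := mul_le_mul h1 (hc l) (abs_nonneg _) ha0
        _ = a := mul_one _
    have h5 : ρ * a ≤ a := by nlinarith
    calc |(z.2 l : ℝ)| = |((z.2 l : ℝ) - z.1 * c l) + z.1 * c l| := by ring_nf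
      _ ≤ |(z.2 l : ℝ) - z.1 * c l| + |(z.1 : ℝ) * c l| := abs_add_le _ _
      _ ≤ 2 * a := by linarith [h2 l]
  have hcard := Finset.card_le_card hsub
  rw [Finset.card_product, Fintype.card_piFinset_const, Int.card_Icc] at hcard
  have t1 : ((2 * a : ℤ) + 1 - -(2 * a : ℤ)) = ((4 * a + 1 : ℕ) : ℤ) := by push_cast; ring
  rw [t1, Int.toNat_natCast] at hcard
  have h2 : ((hfin.toFinset.card : ℕ) : ℝ) ≤ ((4 * a + 1 : ℕ) : ℝ) * ((4 * a + 1 : ℕ) : ℝ) ^ d := by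
    exact_mod_cast hcard
  refine h2.trans ?_
  rw [← pow_succ']
  apply pow_le_pow_left₀ (by positivity)
  have : (1 : ℝ) ≤ a := by exact_mod_cast ha
  push_cast; linarith

theorem stage (A0 : Fin m → ℝ) (A1 : Fin d → Fin m → ℝ) (hd : 0 < d) (hm : 0 < m)
    {s s1 s3 s2 s' ω α : ℝ}
    (hs : 0 < s) (hs1 : 0 < s1) (h13 : s1 < s3) (h32 : s3 < s2) (h2' : s2 < s') (h1' : s1 ≤ s')
    (h2d : s2 ≤ d) (hsd : s < d + 1) (hα0 : 0 < α) (hαE : α < 1 + ω)
    (h1 : 1 + (1 + ω) * (m - 1 + s') < α * (d + m))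
    (h2 : α * (d + m + 1) < (1 + ω) * (m + s))
    (hinf : Approx A0 A1 ω) :
    ∃ C : ℝ, 0 < C ∧ ∀ (c : Fin d → ℝ) (_ : ∀ l, |c l| ≤ 1) (ρ : ℝ) (_ : 0 < ρ) (_ : ρ ≤ 1/4)
      (θ1 : Fin d → ℝ) (g : ZV d) (τ : ℝ) (_ : 0 < τ) (ε : ℝ) (_ : 0 < ε) (Qmin : ℕ),
      ∃ (Q : ℕ) (ψ : ℝ), 0 < ψ ∧ ψ < ε ∧ ψ ^ ((m : ℝ) + s) * (Q : ℝ) ^ ((d : ℝ) + 1 - s) < ε ∧
        0 < Q ∧ ψ ≤ ε * ρ * Q ∧
      ∃ (u : ZV d) (t : Fin d → ℝ), (∀ l, |t l| ≤ τ) ∧
        (∀ j, ∃ n : ℤ, |zlin A0 A1 (u - g) j - n| ≤ τ) ∧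
      ∃ (ι : Finset (ZV d)) (x : ZV d → (Fin d → ℝ)) (qq : ZV d → ℤ), ι.Nonempty ∧
        (∀ z ∈ ι, (∀ l, |x z l - c l| ≤ ρ / 2) ∧ (Qmin : ℤ) < qq z ∧ qq z ≤ Q ∧
          (∀ l, ∃ n : ℤ, (qq z : ℝ) * x z l = n + θ1 l + t l) ∧
          (∀ j, ∃ n : ℤ, |lin A0 A1 (qq z) (fun l => (qq z : ℝ) * x z l) j -
            lin A0 A1 u.1 (fun l => (u.2 l : ℝ) + θ1 l + t l) j - n| ≤ ψ)) ∧
        (∀ (y : Fin d → ℝ) (r : ℝ), ψ / Q ≤ r →
          ((ι.filter (fun z => ∀ l, |x z l - y l| ≤ r)).card : ℝ) ≤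
            C * ι.card * (r / ρ) ^ s1) := by
  classical
  set W : ℝ := 5 ^ (1 + d + m) * 2 ^ s' * (1 - 2 ^ (s2 - s'))⁻¹ with hW
  have hWpos : 0 < W := by
    have : (2 : ℝ) ^ (s2 - s') < 1 :=
      Real.rpow_lt_one_of_one_lt_of_neg (by norm_num) (by linarith)
    have : 0 < (1 - (2 : ℝ) ^ (s2 - s'))⁻¹ := inv_pos.mpr (by linarith)
    positivity
  set C5 : ℝ := (1 - (2 : ℝ) ^ (-s1))⁻¹ + (1 - (2 : ℝ) ^ (s1 - s3))⁻¹ * (2000 ^ s2 * W) with hC5
  have hC5pos : 0 < C5 := by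
    have k1 : (2 : ℝ) ^ (-s1) < 1 :=
      Real.rpow_lt_one_of_one_lt_of_neg (by norm_num) (by linarith)
    have k2 : (2 : ℝ) ^ (s1 - s3) < 1 :=
      Real.rpow_lt_one_of_one_lt_of_neg (by norm_num) (by linarith)
    have k3 : 0 < (1 - (2 : ℝ) ^ (-s1))⁻¹ := inv_pos.mpr (by linarith)
    have k4 : 0 < (1 - (2 : ℝ) ^ (s1 - s3))⁻¹ := inv_pos.mpr (by linarith)
    positivity
  have hs'pos : 0 < s' := by linarith
  refine ⟨4 ^ s1 * (4 * C5 + 1), by positivity, ?_⟩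
  intro c hc ρ hρ hρ1 θ1 g τ hτ ε hε Qmin
  have hρ1' : ρ ≤ 1 := by linarith
  set τ0 : ℝ := min τ 1 with hτ0
  have hτ0pos : 0 < τ0 := lt_min hτ one_pos
  obtain ⟨R, hR⟩ := bohr A0 A1 hτ0pos
  choose wf hwf using hR
  set Θ : ℝ := ∑ l, |θ1 l| with hΘ
  have hΘle : ∀ l, |θ1 l| ≤ Θ := fun l =>
    Finset.single_le_sum (f := fun l => |θ1 l|) (fun _ _ => abs_nonneg _) (Finset.mem_univ l)
  have hΘ0 : 0 ≤ Θ := Finset.sum_nonneg fun _ _ => abs_nonneg _
  -- choose the lower bound for a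
  have hLev : ∀ᶠ a : ℝ in atTop, (2 * (6 * (R : ℝ) + 3) / τ0) ^ d *
      ((6 * R + 3) / (578 * a * ρ)) ^ (s2 - s3) ≤ 1 := by
    have t1 : Tendsto (fun a : ℝ => (6 * (R : ℝ) + 3) / (578 * a * ρ)) atTop (nhds 0) := by
      apply Tendsto.div_atTop tendsto_const_nhds
      apply Tendsto.atTop_mul_const hρ
      exact Tendsto.const_mul_atTop (by norm_num) tendsto_id
    have t2 : Tendsto (fun a : ℝ => ((6 * (R : ℝ) + 3) / (578 * a * ρ)) ^ (s2 - s3)) atTop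
        (nhds (0 ^ (s2 - s3))) := t1.rpow_const (Or.inr (by linarith))
    rw [Real.zero_rpow (by linarith)] at t2
    have t3 := t2.const_mul ((2 * (6 * (R : ℝ) + 3) / τ0) ^ d)
    rw [mul_zero] at t3
    exact t3.eventually_le_const one_pos
  have hAev : ∀ᶠ a : ℝ in atTop, (R : ℝ) ≤ a ∧ (2 * (R : ℝ) + Θ + 2) / ρ ≤ a ∧
      (Qmin : ℝ) + 1 ≤ a ∧ 1 / (48 * ε * ρ) ≤ a :=
    (eventually_ge_atTop _).and ((eventually_ge_atTop _).and
      ((eventually_ge_atTop _).and (eventually_ge_atTop _)))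
  obtain ⟨A, hA⟩ := eventually_atTop.mp (hLev.and hAev)
  -- choose epsilon small
  set A' : ℝ := max A 1 with hA'
  have hA'1 : 1 ≤ A' := le_max_right _ _
  set ε1 : ℝ := ((5 * A') ^ (d + 1))⁻¹ ^ (1 / s') with hε1
  have hbase : 0 < ((5 * A') ^ (d + 1))⁻¹ := by positivity
  have hε1pos : 0 < ε1 := Real.rpow_pos_of_pos hbase _
  set ε2 : ℝ := min (min ε 1) ε1 with hε2
  have hε2pos : 0 < ε2 := by positivity
  obtain ⟨ψ, Q1, hψ, hψε, hQ1, hcount, hcost⟩ := params A0 A1 hm hs hs'pos hsd hα0 hαE h1 h2 hinf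
    hc hρ hρ1' (12 ^ s') (by positivity) ε2 hε2pos
  have hψ1 : ψ < 1 := lt_of_lt_of_le hψε ((min_le_left _ _).trans (min_le_right _ _))
  have hψε' : ψ < ε := lt_of_lt_of_le hψε ((min_le_left _ _).trans (min_le_left _ _))
  have hψε1 : ψ < ε1 := lt_of_lt_of_le hψε (min_le_right _ _)
  obtain ⟨a, ha1, haQ, hmax⟩ := exists_max A0 A1 c ρ ψ s' Q1 hQ1
  have hapos : (0 : ℝ) < a := by exact_mod_cast ha1
  have ha1r : (1 : ℝ) ≤ a := by exact_mod_cast ha1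
  have hQ1pos : (0 : ℝ) < Q1 := by exact_mod_cast hQ1
  have hGa : 12 ^ s' * ((a : ℝ) / ψ) ^ s' ≤ G A0 A1 c ρ ψ a := by
    have k1 := hmax Q1 hQ1 le_rfl
    have k2 := hcount.trans k1
    have k3 : ((Q1 : ℝ) / ψ) ^ s' = ((Q1 : ℝ) / a) ^ s' * ((a : ℝ) / ψ) ^ s' := by
      rw [← Real.mul_rpow (by positivity) (by positivity)]
      congr 1; field_simp
    rw [k3] at k2
    have k4 : 0 < ((Q1 : ℝ) / a) ^ s' := Real.rpow_pos_of_pos (by positivity) _
    have k5 : ((Q1 : ℝ) / a) ^ s' * (12 ^ s' * ((a : ℝ) / ψ) ^ s') ≤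
        ((Q1 : ℝ) / a) ^ s' * G A0 A1 c ρ ψ a := by
      calc _ = 12 ^ s' * (((Q1 : ℝ) / a) ^ s' * ((a : ℝ) / ψ) ^ s') := by ring
        _ ≤ _ := k2
    exact le_of_mul_le_mul_left k5 k4
  -- a is large
  have haA : A' ≤ a := by
    by_contra hlt
    push Not at hlt
    have k1 := G_le A0 A1 hc hρ1' ψ a ha1
    have k2 : (5 * a : ℝ) ^ (d + 1) ≤ (5 * A') ^ (d + 1) := by
      apply pow_le_pow_left₀ (by positivity); linarith
    have k3 : (1 / ψ) ^ s' ≤ 12 ^ s' * ((a : ℝ) / ψ) ^ s' := by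
      have : (1 / ψ) ^ s' ≤ ((a : ℝ) / ψ) ^ s' := by
        apply Real.rpow_le_rpow (by positivity) _ hs'pos.le
        exact div_le_div_of_nonneg_right ha1r hψ.le
      have h12 : (1 : ℝ) ≤ 12 ^ s' := Real.one_le_rpow (by norm_num) hs'pos.le
      have : 0 ≤ ((a : ℝ) / ψ) ^ s' := by positivity
      nlinarith
    have k4 : (1 / ψ) ^ s' ≤ (5 * A') ^ (d + 1) := k3.trans (hGa.trans (k1.trans k2))
    have k5 : ψ ^ s' < ε1 ^ s' := Real.rpow_lt_rpow hψ.le hψε1 hs'pos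
    have k6 : ε1 ^ s' = ((5 * A') ^ (d + 1))⁻¹ := by
      rw [hε1, ← Real.rpow_mul hbase.le, one_div_mul_cancel hs'pos.ne', Real.rpow_one]
    rw [k6] at k5
    rw [one_div, Real.inv_rpow hψ.le] at k4
    have k7 : 0 < ψ ^ s' := Real.rpow_pos_of_pos hψ _
    rw [inv_le_comm₀ k7 (by positivity)] at k4
    linarith
  obtain ⟨hL, hRa, hsm, hQm, hεa⟩ := hA a ((le_max_left _ _).trans haA)
  rw [div_le_iff₀ hρ, mul_comm (a : ℝ) ρ] at hsm
  have hρa2 : 2 ≤ ρ * a := by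
    have : (0 : ℝ) ≤ R := by positivity
    linarith
  -- B, J, K
  set B : ℕ := ⌊2 * ρ * a⌋₊ with hB
  have hB1 : (B : ℝ) ≤ 2 * ρ * a := Nat.floor_le (by positivity)
  have hB2 : 2 * ρ * a ≤ 2 * B + 1 := by
    have := Nat.lt_floor_add_one (2 * ρ * a)
    rw [← hB] at this
    linarith
  set x0 : ℝ := 24 * a * ρ / ψ with hx0
  have hx0ge : 1 ≤ x0 := by
    rw [hx0, le_div_iff₀ hψ]; nlinarith
  set J : ℕ := ⌈Real.logb 2 x0⌉₊ with hJ
  have hJ1 : x0 ≤ 2 ^ J := by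
    rw [← Real.rpow_natCast]
    calc x0 = 2 ^ (Real.logb 2 x0) := (Real.rpow_logb (by norm_num) (by norm_num) (by linarith)).symm
      _ ≤ 2 ^ ((J : ℕ) : ℝ) := Real.rpow_le_rpow_of_exponent_le (by norm_num) (Nat.le_ceil _)
  have hJ2 : (2 : ℝ) ^ J ≤ 2 * x0 := by
    have hl : 0 ≤ Real.logb 2 x0 := Real.logb_nonneg (by norm_num) hx0ge
    have := (Nat.ceil_lt_add_one hl).le
    rw [← hJ] at this
    rw [← Real.rpow_natCast]
    calc (2 : ℝ) ^ ((J : ℕ) : ℝ) ≤ 2 ^ (Real.logb 2 x0 + 1) :=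
          Real.rpow_le_rpow_of_exponent_le (by norm_num) this
      _ = 2 * x0 := by
          rw [Real.rpow_add (by norm_num), Real.rpow_logb (by norm_num) (by norm_num)
            (by linarith), Real.rpow_one]; ring
  set K : ℕ := ⌈τ0 / (1156 * (ρ / 2 ^ J) * a)⌉₊ + 1 with hK
  have hKge : τ0 ≤ 1156 * (ρ / 2 ^ J) * a * K := by
    have h0 : 0 < 1156 * (ρ / 2 ^ J) * a := by positivity
    have k1 : τ0 / (1156 * (ρ / 2 ^ J) * a) ≤ K := by
      rw [hK]; push_cast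
      exact (Nat.le_ceil _).trans (by linarith)
    rw [div_le_iff₀ h0] at k1
    linarith
  let X : Cfg d :=
    { c := c, ρ := ρ, a := a, B := B, K := K, R := R, τ := τ0, θ := θ1,
      w := fun v => wf (v - g), Θ := Θ, hc := hc, hρ := hρ, hρ1 := hρ1, ha := ha1,
      hRa := by exact_mod_cast hRa, hB1 := hB1, hB2 := hB2, hK := by omega, hτ := hτ0pos,
      hτ1 := min_le_right _ _, hθ := hΘle, hsm := hsm,
      hw1 := fun v => (hwf (v - g)).1, hw2 := fun v => (hwf (v - g)).2.1 }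
  have hfin := E_finite A0 A1 hc hρ1' (a : ℝ) ψ
  set Zs := hfin.toFinset with hZs
  have hn : (Zs.card : ℝ) = G A0 A1 c ρ ψ a := by
    rw [G, Set.ncard_eq_toFinset_card _ hfin]
  have hZtube : ∀ z ∈ Zs, X.tube z := by
    intro z hz
    rw [hZs, Set.Finite.mem_toFinset] at hz
    exact ⟨hz.1, hz.2.1⟩
  have hJn : ((2 : ℝ) ^ s1) ^ J ≤ Zs.card := by
    rw [hn]
    refine le_trans ?_ hGa
    have e : ((2 : ℝ) ^ s1) ^ J = ((2 : ℝ) ^ J) ^ s1 := by
      rw [← Real.rpow_natCast, ← Real.rpow_natCast, ← Real.rpow_mul (by norm_num),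
        ← Real.rpow_mul (by norm_num)]; congr 1; ring
    rw [e, ← Real.mul_rpow (by norm_num) (by positivity)]
    have k1 : (2 : ℝ) ^ J ≤ 12 * (a / ψ) := by
      refine hJ2.trans ?_
      rw [hx0]
      have : 2 * (24 * a * ρ / ψ) = (48 * ρ) * (a / ψ) := by ring
      rw [this]
      apply mul_le_mul_of_nonneg_right _ (by positivity)
      linarith
    have k2 : 1 ≤ 12 * (a / ψ) := by
      have : 1 ≤ a / ψ := by rw [le_div_iff₀ hψ]; linarith
      linarith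
    calc ((2 : ℝ) ^ J) ^ s1 ≤ (12 * (a / ψ)) ^ s1 :=
          Real.rpow_le_rpow (by positivity) k1 hs1.le
      _ ≤ (12 * (a / ψ)) ^ s' := Real.rpow_le_rpow_of_exponent_le k2 h1'
  have hZne : Zs.Nonempty := by
    rw [← Finset.card_pos]
    have : (0 : ℝ) < Zs.card := by
      have k : (0 : ℝ) < ((2 : ℝ) ^ s1) ^ J := by
        have : (0 : ℝ) < (2 : ℝ) ^ s1 := Real.rpow_pos_of_pos (by norm_num) _
        positivity
      linarith
    exact_mod_cast this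
  have hWs : ∀ z1 ∈ Zs, ∑ z2 ∈ Zs.erase z1, (X.a / size X.c X.ρ (z2 - z1)) ^ s2 ≤
      W * Zs.card := by
    intro z1 hz1
    have k1 := W_sum A0 A1 hc hρ hρ1' hψ (by linarith) h2' ha1
      (fun t ht1 ht2 => hmax t ht1 (ht2.trans haQ)) ((Zs.erase z1).image (fun z2 => z2 - z1)) ?_
    · rw [Finset.sum_image (fun z _ z' _ h => sub_left_injective h)] at k1
      rw [hn]
      exact k1
    · intro z hz
      rw [Finset.mem_image] at hz
      obtain ⟨z2, hz2, rfl⟩ := hz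
      rw [Finset.mem_erase] at hz2
      refine ⟨sub_ne_zero.mpr hz2.1, ?_⟩
      have e1 := hz2.2
      have e2 := hz1
      rw [hZs, Set.Finite.mem_toFinset] at e1 e2
      obtain ⟨a1, a2, a3⟩ := e1
      obtain ⟨b1, b2, b3⟩ := e2
      refine ⟨?_, ?_, ?_⟩
      · simp only [Prod.fst_sub]; push_cast
        rw [abs_le] at a1 b1 ⊢
        constructor <;> linarith [a1.1, a1.2, b1.1, b1.2]
      · intro l
        have a2 := a2 l
        have b2 := b2 l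
        have e : ((z2 - z1).2 l : ℝ) - (z2 - z1).1 * c l =
            ((z2.2 l : ℝ) - z2.1 * c l) - ((z1.2 l : ℝ) - z1.1 * c l) := by
          simp only [Prod.fst_sub, Prod.snd_sub, Pi.sub_apply, Int.cast_sub]; ring
        rw [abs_le] at a2 b2
        rw [e, abs_le]; constructor <;> linarith [a2.1, a2.2, b2.1, b2.2]
      · intro j
        obtain ⟨n1, hn1⟩ := a3 j
        obtain ⟨n2, hn2⟩ := b3 j
        refine ⟨n1 - n2, ?_⟩
        rw [zlin_sub]; push_cast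
        rw [abs_le] at hn1 hn2 ⊢
        constructor <;> linarith [hn1.1, hn1.2, hn2.1, hn2.2]
  obtain ⟨p, hp, hple⟩ := X.exists_param hs1 h13 h32 h2d Zs hZtube J hJn W hWs hKge hL
  obtain ⟨ι, hιsub, hιne, hfro⟩ := X.frostman hs1 Zs hZne J p C5 hC5pos hple
  refine ⟨48 * a, ψ, hψ, hψε', ?_, by positivity, ?_, X.uu p, X.tt p, ?_, ?_, ι,
    fun z => X.xx p z, fun z => X.qq p z, hιne, ?_, ?_⟩
  · refine lt_of_le_of_lt ?_ (lt_of_lt_of_le hcost ((min_le_left _ _).trans (min_le_left _ _)))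
    apply mul_le_mul_of_nonneg_left _ (by positivity)
    apply Real.rpow_le_rpow (by positivity) _ (by linarith)
    push_cast
    have : (a : ℝ) ≤ Q1 := by exact_mod_cast haQ
    linarith
  · rw [div_le_iff₀ (by positivity)] at hεa
    push_cast
    nlinarith
  · intro l
    exact (X.tt_le hp l).trans (min_le_left _ _)
  · intro j
    obtain ⟨n, hn⟩ := (hwf (X.vv p - g)).2.2 j
    refine ⟨n, ?_⟩
    have e : X.uu p - g = X.vv p - g + wf (X.vv p - g) := by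
      simp only [Cfg.uu, X]; abel
    rw [e]
    exact hn.trans (min_le_left _ _)
  · intro z hz
    have hzZ := hιsub hz
    have htz := hZtube z hzZ
    have hqb := X.qq_bounds hp htz
    have hqpos := X.qq_pos hp htz
    refine ⟨X.xx_close hp htz, ?_, ?_, ?_, ?_⟩
    · have : (Qmin : ℝ) < X.qq p z := by
        have k1 : (X.a : ℝ) = a := rfl
        have k2 := hqb.1
        rw [k1] at k2
        have : (0 : ℝ) ≤ Qmin := by positivity
        linarith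
      exact_mod_cast this
    · have : (X.qq p z : ℝ) ≤ ((48 * a : ℕ) : ℤ) := by
        have k1 : (X.a : ℝ) = a := rfl
        have k2 := hqb.2
        rw [k1] at k2
        push_cast; linarith
      exact_mod_cast this
    · intro l
      refine ⟨(X.uu p + z).2 l, ?_⟩
      show (X.qq p z : ℝ) * (X.xi p z l / X.qq p z) = _
      rw [mul_div_cancel₀ _ hqpos.ne']
      rfl
    · intro j
      rw [hZs, Set.Finite.mem_toFinset] at hzZ
      obtain ⟨n, hn⟩ := hzZ.2.2 j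
      refine ⟨n, ?_⟩
      have e : lin A0 A1 (X.qq p z) (fun l => (X.qq p z : ℝ) * X.xx p z l) j -
          lin A0 A1 (X.uu p).1 (fun l => ((X.uu p).2 l : ℝ) + θ1 l + X.tt p l) j =
          zlin A0 A1 z j := by
        have e1 : ∀ l, (X.qq p z : ℝ) * X.xx p z l = ((X.uu p).2 l : ℝ) + z.2 l + θ1 l +
            X.tt p l := by
          intro l
          show (X.qq p z : ℝ) * (X.xi p z l / X.qq p z) = _
          rw [mul_div_cancel₀ _ hqpos.ne']
          simp only [Cfg.xi, Prod.snd_add, Pi.add_apply, Int.cast_add]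
          rfl
        have e2 : (X.qq p z : ℝ) = (X.uu p).1 + z.1 := by
          simp [Cfg.qq]
        simp only [e1]
        simp only [zlin, lin, e2, add_mul, Finset.sum_add_distrib]
        ring
      rw [e]
      exact hn
  · intro y r hr
    have h48 : (0 : ℝ) < ψ / ((48 * a : ℕ) : ℝ) := by push_cast; positivity
    refine hfro (ψ / ((48 * a : ℕ) : ℝ)) h48 ?_ y r hr
    show ρ / 2 ^ J ≤ _
    rw [div_le_iff₀ (by positivity)]
    push_cast
    have k1 : ψ * x0 = 24 * a * ρ := by rw [hx0]; field_simp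
    have k2 : ψ * x0 ≤ ψ * 2 ^ J := mul_le_mul_of_nonneg_left hJ1 hψ.le
    rw [k1] at k2
    have : 2 * (ψ / (48 * a)) * 2 ^ J = (ψ * 2 ^ J) / (24 * a) := by
      field_simp; ring
    rw [this, le_div_iff₀ (by positivity)]
    linarith

end R357Jar
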