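import Mathlib

set_option autoImplicit false

open scoped BigOperators ENNReal
open Filter MeasureTheory

noncomputable section

namespace R357Jar

/-- from zero Hausdorff measure to a cover by balls with small total weight. -/
lemma exists_ball_cover {d : ℕ} {s : ℝ} (hs : 0 < s) (F : Set (Fin d → ℝ))
    (hF : μH[s] F = 0) (κ : ℝ) (hκ : 0 < κ) :
    ∃ (y : ℕ → (Fin d → ℝ)) (r : ℕ → ℝ), (∀ j, 0 < r j) ∧ Summable (fun j => r j ^ s) ∧
      ∑' j, r j ^ s ≤ κ ∧ ∀ x ∈ F, ∃ j, dist x (y j) ≤ r j := by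
  classical
  rw [Measure.hausdorffMeasure_apply] at hF
  have h1 : (⨅ (t : ℕ → Set (Fin d → ℝ)) (_ : F ⊆ ⋃ n, t n) (_ : ∀ n, Metric.ediam (t n) ≤ 1),
      ∑' n, ⨆ _ : (t n).Nonempty, Metric.ediam (t n) ^ s) = 0 := by
    refine le_antisymm ?_ zero_le
    rw [← hF]
    exact le_iSup₂_of_le (1 : ℝ≥0∞) one_pos le_rfl
  have h2 : (⨅ (t : ℕ → Set (Fin d → ℝ)) (_ : F ⊆ ⋃ n, t n) (_ : ∀ n, Metric.ediam (t n) ≤ 1),
      ∑' n, ⨆ _ : (t n).Nonempty, Metric.ediam (t n) ^ s) < ENNReal.ofReal (κ / 2) := by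
    rw [h1]; exact ENNReal.ofReal_pos.mpr (by linarith)
  simp only [iInf_lt_iff] at h2
  obtain ⟨t, ht1, ht2, ht3⟩ := h2
  set a : ℕ → ℝ≥0∞ := fun n => ⨆ _ : (t n).Nonempty, Metric.ediam (t n) ^ s with ha
  have hsum_ne : ∑' n, a n ≠ ∞ := (lt_trans ht3 ENNReal.ofReal_lt_top).ne
  have ha_ne : ∀ n, a n ≠ ∞ := fun n => ENNReal.ne_top_of_tsum_ne_top hsum_ne n
  have hasum : Summable (fun n => (a n).toReal) := ENNReal.summable_toReal hsum_ne
  have hasum2 : ∑' n, (a n).toReal ≤ κ / 2 := by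
    rw [← ENNReal.tsum_toReal_eq ha_ne]
    apply ENNReal.toReal_le_of_le_ofReal (by linarith) ht3.le
  set w : ℕ → ℝ := fun n => (a n).toReal + (κ / 2) / 2 / 2 ^ n with hw
  have hgeo : Summable (fun n : ℕ => (κ / 2) / 2 / 2 ^ n) := summable_geometric_two' _
  have hgeo2 : ∑' n : ℕ, (κ / 2) / 2 / 2 ^ n = κ / 2 := tsum_geometric_two' _
  have hwpos : ∀ n, 0 < w n := by
    intro n
    have : 0 ≤ (a n).toReal := ENNReal.toReal_nonneg
    have h3 : 0 < (κ / 2) / 2 / 2 ^ n := by positivity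
    simp only [hw]; linarith
  have hrw : ∀ n, (w n ^ (1 / s)) ^ s = w n := by
    intro n
    rw [← Real.rpow_mul (hwpos n).le, one_div_mul_cancel hs.ne', Real.rpow_one]
  refine ⟨fun n => if h : (t n).Nonempty then h.some else 0, fun n => w n ^ (1 / s), ?_, ?_, ?_, ?_⟩
  · intro j; exact Real.rpow_pos_of_pos (hwpos j) _
  · simp only [hrw]; exact hasum.add hgeo
  · have e : ∑' j, (w j ^ (1 / s)) ^ s = ∑' j, ((a j).toReal + (κ / 2) / 2 / 2 ^ j) :=
      tsum_congr hrw
    rw [e, hasum.tsum_add hgeo, hgeo2]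
    linarith
  · intro x hx
    obtain ⟨j, hj⟩ := Set.mem_iUnion.mp (ht1 hx)
    refine ⟨j, ?_⟩
    have hne : (t j).Nonempty := ⟨x, hj⟩
    simp only [dif_pos hne]
    have hmem : hne.some ∈ t j := hne.some_mem
    have hdiam : Metric.ediam (t j) ≠ ∞ := (lt_of_le_of_lt (ht2 j) ENNReal.one_lt_top).ne
    have hd1 : dist x hne.some ≤ (Metric.ediam (t j)).toReal := by
      rw [dist_edist]
      exact ENNReal.toReal_mono hdiam (Metric.edist_le_ediam_of_mem hj hmem)
    refine hd1.trans ?_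
    have haj : a j = Metric.ediam (t j) ^ s := by
      simp only [ha]; exact iSup_pos hne
    have : (Metric.ediam (t j)).toReal ^ s ≤ w j := by
      rw [ENNReal.toReal_rpow, ← haj]
      have h3 : 0 < (κ / 2) / 2 / 2 ^ j := by positivity
      simp only [hw]; linarith
    calc (Metric.ediam (t j)).toReal = ((Metric.ediam (t j)).toReal ^ s) ^ (1 / s) := by
          rw [← Real.rpow_mul ENNReal.toReal_nonneg, mul_one_div_cancel hs.ne', Real.rpow_one]
      _ ≤ w j ^ (1 / s) := Real.rpow_le_rpow (Real.rpow_nonneg ENNReal.toReal_nonneg _) this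
          (by positivity)

open Classical in
/-- load of a ball with respect to a cover. -/
def load {d : ℕ} (y : ℕ → (Fin d → ℝ)) (r : ℕ → ℝ) (s : ℝ) (c : Fin d → ℝ) (ρ : ℝ) : ℝ :=
  ∑' j, if dist (y j) c ≤ r j + ρ then r j ^ s else 0

open Classical in
lemma load_summable {d : ℕ} {y : ℕ → (Fin d → ℝ)} {r : ℕ → ℝ} {s : ℝ} (hr : ∀ j, 0 < r j)
    (hsum : Summable (fun j => r j ^ s)) (c : Fin d → ℝ) (ρ : ℝ) :
    Summable (fun j => if dist (y j) c ≤ r j + ρ then r j ^ s else 0) := by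
  apply Summable.of_nonneg_of_le _ _ hsum
  · intro j; have := Real.rpow_pos_of_pos (hr j) s; split_ifs <;> linarith
  · intro j; have := Real.rpow_pos_of_pos (hr j) s; split_ifs <;> linarith

lemma le_load {d : ℕ} {y : ℕ → (Fin d → ℝ)} {r : ℕ → ℝ} {s : ℝ} (hr : ∀ j, 0 < r j)
    (hsum : Summable (fun j => r j ^ s)) {c : Fin d → ℝ} {ρ : ℝ} {j : ℕ}
    (hj : dist (y j) c ≤ r j + ρ) : r j ^ s ≤ load y r s c ρ := by
  classical
  have h := (load_summable (y := y) hr hsum c ρ).le_tsum j (fun i _ => by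
    have := Real.rpow_pos_of_pos (hr i) s; split_ifs <;> linarith)
  simp only [if_pos hj] at h
  exact h

lemma load_mono {d : ℕ} {y : ℕ → (Fin d → ℝ)} {r : ℕ → ℝ} {s : ℝ} (hr : ∀ j, 0 < r j)
    (hsum : Summable (fun j => r j ^ s)) {c c' : Fin d → ℝ} {ρ ρ' : ℝ}
    (h : ∀ j, dist (y j) c' ≤ r j + ρ' → dist (y j) c ≤ r j + ρ) :
    load y r s c' ρ' ≤ load y r s c ρ := by
  classical
  apply (load_summable hr hsum c' ρ').tsum_le_tsum _ (load_summable hr hsum c ρ)
  intro j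
  have := Real.rpow_pos_of_pos (hr j) s
  by_cases h1 : dist (y j) c' ≤ r j + ρ'
  · rw [if_pos h1, if_pos (h j h1)]
  · rw [if_neg h1]; split_ifs <;> linarith

lemma step {I : Type*} {d : ℕ} {s s1 C κ : ℝ} (hs : 0 < s) (h1 : s < s1) (hC : 0 < C)
    (hκ : 0 < κ) (hκ1 : κ ≤ 1) (hκC : C * 2 ^ s1 * κ ≤ 1 / 4)
    {y : ℕ → (Fin d → ℝ)} {r : ℕ → ℝ} (hr : ∀ j, 0 < r j) (hsum : Summable (fun j => r j ^ s))
    {c : Fin d → ℝ} {ρ : ℝ} (hρ : 0 < ρ) (hload : load y r s c ρ ≤ κ * ρ ^ s)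
    (ι : Finset I) (hι : ι.Nonempty) (x : I → (Fin d → ℝ)) {ρ1 : ℝ} (hρ1 : 0 < ρ1)
    (hρ1ρ : ρ1 ≤ ρ / 2) (hsmall : C * 2 ^ s1 * (ρ1 / ρ) ^ (s1 - s) ≤ 2 ^ (-s) / 4)
    (hx : ∀ z ∈ ι, dist (x z) c ≤ ρ / 2)
    (hfro : ∀ (y : Fin d → ℝ) (r : ℝ), ρ1 ≤ r →
      ((ι.filter (fun z => dist (x z) y ≤ r)).card : ℝ) ≤ C * ι.card * (r / ρ) ^ s1) :
    ∃ z ∈ ι, load y r s (x z) ρ1 < κ * (ρ1 / 2) ^ s := by
  classical
  set lam : ℝ := κ * (ρ1 / 2) ^ s with hlam
  have hlampos : 0 < lam := by positivity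
  set n : ℝ := (ι.card : ℝ) with hn
  have hnpos : 0 < n := by rw [hn]; exact_mod_cast hι.card_pos
  set om : ℕ → ℝ := fun j => if ρ1 ≤ r j then lam else r j ^ s with hom
  have hompos : ∀ j, 0 < om j := by
    intro j; simp only [hom]; split_ifs
    · exact hlampos
    · exact Real.rpow_pos_of_pos (hr j) s
  have homle : ∀ j, om j ≤ r j ^ s := by
    intro j; simp only [hom]; split_ifs with h
    · calc lam ≤ 1 * (r j) ^ s := by
            rw [hlam]
            apply mul_le_mul hκ1 _ (by positivity) (by norm_num)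
            apply Real.rpow_le_rpow (by positivity) _ hs.le
            linarith
        _ = _ := one_mul _
    · exact le_rfl
  set T : ℕ → ℝ := fun j => ((ι.filter (fun z => dist (y j) (x z) ≤ r j + ρ1)).card : ℝ) with hT
  have hsumm : ∀ z ∈ ι, Summable (fun j => if dist (y j) (x z) ≤ r j + ρ1 then om j else 0) := by
    intro z _
    apply Summable.of_nonneg_of_le _ _ hsum
    · intro j; have := hompos j; split_ifs <;> linarith
    · intro j; have := homle j; have := Real.rpow_pos_of_pos (hr j) s; split_ifs <;> linarith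
  have hswap : ∑ z ∈ ι, ∑' j, (if dist (y j) (x z) ≤ r j + ρ1 then om j else 0) =
      ∑' j, om j * T j := by
    rw [← Summable.tsum_finsetSum hsumm]
    apply tsum_congr
    intro j
    rw [← Finset.sum_filter, Finset.sum_const, nsmul_eq_mul, mul_comm]
  set β : ℝ := n * (lam * C * 2 ^ s1 / ρ ^ s + C * 2 ^ s1 * (ρ1 / ρ) ^ s1) with hβ
  have hβpos : 0 ≤ β := by positivity
  have hbound : ∀ j, om j * T j ≤ β * (if dist (y j) c ≤ r j + ρ then r j ^ s else 0) := by
    intro j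
    have hrj := hr j
    have hrs := Real.rpow_pos_of_pos hrj s
    by_cases hT0 : (ι.filter (fun z => dist (y j) (x z) ≤ r j + ρ1)).Nonempty
    swap
    · rw [Finset.not_nonempty_iff_eq_empty] at hT0
      have : T j = 0 := by simp only [hT]; rw [hT0]; simp
      rw [this, mul_zero]
      apply mul_nonneg hβpos
      split_ifs <;> linarith
    obtain ⟨z, hz⟩ := hT0
    rw [Finset.mem_filter] at hz
    have htouch : dist (y j) c ≤ r j + ρ := by
      calc dist (y j) c ≤ dist (y j) (x z) + dist (x z) c := dist_triangle _ _ _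
        _ ≤ (r j + ρ1) + ρ / 2 := add_le_add hz.2 (hx z hz.1)
        _ ≤ r j + ρ := by linarith
    rw [if_pos htouch]
    have hrρ : r j ≤ ρ := by
      have h2 : r j ^ s ≤ ρ ^ s := by
        calc r j ^ s ≤ load y r s c ρ := le_load hr hsum htouch
          _ ≤ κ * ρ ^ s := hload
          _ ≤ 1 * ρ ^ s := mul_le_mul_of_nonneg_right hκ1 (by positivity)
          _ = _ := one_mul _
      exact (Real.rpow_le_rpow_iff hrj.le hρ.le hs).mp h2
    have hTle : ∀ R', ρ1 ≤ R' → r j + ρ1 ≤ R' → T j ≤ C * n * (R' / ρ) ^ s1 := by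
      intro R' h3 h4
      refine le_trans ?_ (hfro (y j) R' h3)
      simp only [hT]
      norm_cast
      apply Finset.card_le_card
      intro z' hz'
      rw [Finset.mem_filter] at hz' ⊢
      refine ⟨hz'.1, ?_⟩
      rw [dist_comm]
      exact hz'.2.trans h4
    simp only [hom]
    split_ifs with hbig
    · -- large
      have h3 := hTle (2 * r j) (by linarith) (by linarith)
      have h4 : ((2 * r j) / ρ) ^ s1 ≤ 2 ^ s1 * (r j ^ s / ρ ^ s) := by
        rw [mul_div_assoc, Real.mul_rpow (by norm_num) (by positivity), ← Real.div_rpow hrj.le hρ.le]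
        apply mul_le_mul_of_nonneg_left _ (by positivity)
        apply Real.rpow_le_rpow_of_exponent_ge (by positivity) _ h1.le
        exact (div_le_one hρ).mpr hrρ
      calc lam * T j ≤ lam * (C * n * (2 ^ s1 * (r j ^ s / ρ ^ s))) := by
            apply mul_le_mul_of_nonneg_left _ hlampos.le
            exact h3.trans (mul_le_mul_of_nonneg_left h4 (by positivity))
        _ = n * (lam * C * 2 ^ s1 / ρ ^ s) * r j ^ s := by ring
        _ ≤ β * r j ^ s := by
            apply mul_le_mul_of_nonneg_right _ hrs.le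
            rw [hβ]
            apply mul_le_mul_of_nonneg_left _ hnpos.le
            have : 0 ≤ C * 2 ^ s1 * (ρ1 / ρ) ^ s1 := by positivity
            linarith
    · -- small
      rw [not_le] at hbig
      have h3 := hTle (2 * ρ1) (by linarith) (by linarith)
      have h4 : ((2 * ρ1) / ρ) ^ s1 = 2 ^ s1 * (ρ1 / ρ) ^ s1 := by
        rw [mul_div_assoc, Real.mul_rpow (by norm_num) (by positivity)]
      rw [h4] at h3
      calc r j ^ s * T j ≤ r j ^ s * (C * n * (2 ^ s1 * (ρ1 / ρ) ^ s1)) :=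
            mul_le_mul_of_nonneg_left h3 hrs.le
        _ = n * (C * 2 ^ s1 * (ρ1 / ρ) ^ s1) * r j ^ s := by ring
        _ ≤ β * r j ^ s := by
            apply mul_le_mul_of_nonneg_right _ hrs.le
            rw [hβ]
            apply mul_le_mul_of_nonneg_left _ hnpos.le
            have : 0 ≤ lam * C * 2 ^ s1 / ρ ^ s := by positivity
            linarith
  have hsummT : Summable (fun j => om j * T j) := by
    apply Summable.of_nonneg_of_le _ hbound ((load_summable hr hsum c ρ).mul_left β)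
    intro j; have := hompos j; simp only [hT]; positivity
  have htotal : ∑' j, om j * T j ≤ n * lam / 2 := by
    calc ∑' j, om j * T j ≤ ∑' j, β * (if dist (y j) c ≤ r j + ρ then r j ^ s else 0) :=
          hsummT.tsum_le_tsum hbound ((load_summable hr hsum c ρ).mul_left β)
      _ = β * load y r s c ρ := by rw [tsum_mul_left]; rfl
      _ ≤ β * (κ * ρ ^ s) := mul_le_mul_of_nonneg_left hload hβpos
      _ = n * (lam * (C * 2 ^ s1 * κ) + κ * (C * 2 ^ s1 * ((ρ1 / ρ) ^ s1 * ρ ^ s))) := by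
          rw [hβ]
          have : ρ ^ s ≠ 0 := (Real.rpow_pos_of_pos hρ s).ne'
          field_simp
      _ ≤ n * (lam * (1 / 4) + lam / 4) := by
          apply mul_le_mul_of_nonneg_left _ hnpos.le
          apply add_le_add
          · exact mul_le_mul_of_nonneg_left hκC hlampos.le
          · have e : (ρ1 / ρ) ^ s1 * ρ ^ s = (ρ1 / ρ) ^ (s1 - s) * ρ1 ^ s := by
              have : (ρ1 / ρ) ^ s1 = (ρ1 / ρ) ^ (s1 - s) * (ρ1 / ρ) ^ s := by
                rw [← Real.rpow_add (by positivity)]; congr 1; ring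
              rw [this, mul_assoc, ← Real.mul_rpow (by positivity) hρ.le]
              congr 2; field_simp
            have e2 : lam / 4 = κ * (2 ^ (-s) / 4 * ρ1 ^ s) := by
              rw [hlam, Real.div_rpow hρ1.le (by norm_num), Real.rpow_neg (by norm_num)]
              ring
            rw [e, e2]
            apply mul_le_mul_of_nonneg_left _ hκ.le
            calc C * 2 ^ s1 * ((ρ1 / ρ) ^ (s1 - s) * ρ1 ^ s) =
                  (C * 2 ^ s1 * (ρ1 / ρ) ^ (s1 - s)) * ρ1 ^ s := by ring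
              _ ≤ _ := mul_le_mul_of_nonneg_right hsmall (by positivity)
      _ = n * lam / 2 := by ring
  have hlt : ∑ z ∈ ι, ∑' j, (if dist (y j) (x z) ≤ r j + ρ1 then om j else 0) <
      ∑ _z ∈ ι, lam := by
    rw [hswap, Finset.sum_const, nsmul_eq_mul]
    refine lt_of_le_of_lt htotal ?_
    have : 0 < n * lam := by positivity
    linarith
  obtain ⟨z, hz, hzlt⟩ := Finset.exists_lt_of_sum_lt hlt
  refine ⟨z, hz, ?_⟩
  have hnobig : ∀ j, dist (y j) (x z) ≤ r j + ρ1 → ¬ ρ1 ≤ r j := by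
    intro j hj hbig
    have h2 := (hsumm z hz).le_tsum j (fun i _ => by
      have := hompos i; split_ifs <;> linarith)
    simp only [if_pos hj] at h2
    have h3 : om j = lam := by simp only [hom, if_pos hbig]
    rw [h3] at h2
    linarith
  have heq : load y r s (x z) ρ1 =
      ∑' j, (if dist (y j) (x z) ≤ r j + ρ1 then om j else 0) := by
    unfold load
    apply tsum_congr
    intro j
    by_cases hj : dist (y j) (x z) ≤ r j + ρ1
    · rw [if_pos hj, if_pos hj]
      simp only [hom, if_neg (hnobig j hj)]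
    · rw [if_neg hj, if_neg hj]
  rw [heq]
  exact hzlt

theorem game {I : Type*} {d : ℕ} {s s1 C κ2 : ℝ} (hs : 0 < s) (h1 : s < s1) (hC : 0 < C)
    (hκ2' : κ2 ≤ 1 / 2)
    (hκC : C * 2 ^ s1 * κ2 ^ (s1 - s) ≤ 2 ^ (-s) / 4)
    (Hit : ℕ → Set (Fin d → ℝ))
    (hst : ∀ (c : Fin d → ℚ) (ρ : ℚ), (∀ l, |(c l : ℝ)| ≤ 1) → 0 < ρ → (ρ : ℝ) ≤ 1 / 4 →
      ∀ N : ℕ, ∃ k ≥ N, ∃ (ι : Finset I) (x : I → (Fin d → ℝ)) (ρ1 : ℝ),
        0 < ρ1 ∧ ρ1 ≤ κ2 * ρ ∧ ι.Nonempty ∧
        (∀ z ∈ ι, dist (x z) (fun l => (c l : ℝ)) ≤ ρ / 2 ∧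
          ∀ x', dist x' (x z) ≤ ρ1 → x' ∈ Hit k) ∧
        (∀ (y : Fin d → ℝ) (r : ℝ), ρ1 ≤ r →
          ((ι.filter (fun z => dist (x z) y ≤ r)).card : ℝ) ≤ C * ι.card * (r / ρ) ^ s1)) :
    μH[s] {x : Fin d → ℝ | ∀ N : ℕ, ∃ k ≥ N, x ∈ Hit k} ≠ 0 := by
  classical
  intro hzero
  set κ : ℝ := min 1 (1 / (4 * (C * 2 ^ s1))) with hκ
  have hκpos : 0 < κ := by positivity
  have hκ1 : κ ≤ 1 := min_le_left _ _
  have hκC2 : C * 2 ^ s1 * κ ≤ 1 / 4 := by
    have hpos : 0 < C * 2 ^ s1 := by positivity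
    calc C * 2 ^ s1 * κ ≤ C * 2 ^ s1 * (1 / (4 * (C * 2 ^ s1))) :=
          mul_le_mul_of_nonneg_left (min_le_right _ _) hpos.le
      _ = 1 / 4 := by field_simp
  obtain ⟨y, r, hr, hsum, hsumle, hcov⟩ := exists_ball_cover hs _ hzero (κ * (1 / 4) ^ s)
    (by positivity)
  -- states
  let Good : (Fin d → ℚ) × ℚ → Prop := fun p =>
    (∀ l, |(p.1 l : ℝ)| + p.2 ≤ 1) ∧ 0 < p.2 ∧ (p.2 : ℝ) ≤ 1 / 4 ∧
      load y r s (fun l => (p.1 l : ℝ)) p.2 ≤ κ * (p.2 : ℝ) ^ s
  have hstep : ∀ (N : ℕ) (p : (Fin d → ℚ) × ℚ), Good p → ∃ p' : (Fin d → ℚ) × ℚ, Good p' ∧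
      (p'.2 : ℝ) ≤ p.2 / 2 ∧
      (Metric.closedBall (fun l => (p'.1 l : ℝ)) (p'.2 : ℝ) ⊆
        Metric.closedBall (fun l => (p.1 l : ℝ)) (p.2 : ℝ)) ∧
      ∃ k ≥ N, Metric.closedBall (fun l => (p'.1 l : ℝ)) (p'.2 : ℝ) ⊆ Hit k := by
    rintro N ⟨c, ρ⟩ ⟨g1, g2, g3, g4⟩
    simp only at g1 g2 g3 g4
    have hρr : (0 : ℝ) < ρ := by exact_mod_cast g2
    have hc1 : ∀ l, |(c l : ℝ)| ≤ 1 := fun l => by linarith [g1 l]
    obtain ⟨k, hk, ι, x, ρ1, hρ1, hρ1κ, hne, hz, hfro⟩ := hst c ρ hc1 g2 g3 N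
    have hρ1ρ : ρ1 ≤ (ρ : ℝ) / 2 := by
      refine hρ1κ.trans ?_
      nlinarith
    have hsmall : C * 2 ^ s1 * (ρ1 / ρ) ^ (s1 - s) ≤ 2 ^ (-s) / 4 := by
      refine le_trans ?_ hκC
      apply mul_le_mul_of_nonneg_left _ (by positivity)
      apply Real.rpow_le_rpow (by positivity) _ (by linarith)
      rw [div_le_iff₀ hρr]; exact hρ1κ
    obtain ⟨z, hzι, hzl⟩ := step hs h1 hC hκpos hκ1 hκC2 hr hsum hρr g4 ι hne x hρ1 hρ1ρ hsmall
      (fun z hz' => (hz z hz').1) hfro
    -- rational centre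
    have hrat : ∀ l, ∃ q : ℚ, x z l - ρ1 / 8 < q ∧ (q : ℝ) < x z l + ρ1 / 8 := by
      intro l
      exact exists_rat_btwn (by linarith)
    choose c' hc' using hrat
    obtain ⟨ρ', hρ'1, hρ'2⟩ := exists_rat_btwn (show ρ1 / 2 < 3 * ρ1 / 4 by linarith)
    have hρ'pos : (0 : ℝ) < ρ' := by linarith
    have hdc : dist (fun l => (c' l : ℝ)) (x z) ≤ ρ1 / 8 := by
      rw [dist_pi_le_iff (by positivity)]
      intro l
      rw [Real.dist_eq, abs_le]
      constructor <;> linarith [(hc' l).1, (hc' l).2]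
    have hzc := (hz z hzι).1
    have hin : ∀ x', dist x' (fun l => (c' l : ℝ)) ≤ ρ' → dist x' (x z) ≤ ρ1 := by
      intro x' hx'
      calc dist x' (x z) ≤ dist x' (fun l => (c' l : ℝ)) + dist (fun l => (c' l : ℝ)) (x z) :=
            dist_triangle _ _ _
        _ ≤ ρ1 := by linarith
    have hin2 : ∀ x', dist x' (x z) ≤ ρ1 → dist x' (fun l => (c l : ℝ)) ≤ ρ := by
      intro x' hx'
      calc dist x' (fun l => (c l : ℝ)) ≤ dist x' (x z) + dist (x z) (fun l => (c l : ℝ)) :=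
            dist_triangle _ _ _
        _ ≤ ρ := by linarith
    refine ⟨(c', ρ'), ⟨?_, by exact_mod_cast hρ'pos, ?_, ?_⟩, ?_, ?_, k, hk, ?_⟩
    · intro l
      simp only
      have h3 : |x z l - c l| ≤ ρ / 2 := by
        have := (dist_pi_le_iff (by positivity)).mp hzc l
        rwa [Real.dist_eq] at this
      have h4 := g1 l
      have h5 : |(c' l : ℝ) - x z l| ≤ ρ1 / 8 := by
        rw [abs_le]; constructor <;> linarith [(hc' l).1, (hc' l).2]
      have h6 : |(c' l : ℝ)| ≤ |(c' l : ℝ) - x z l| + |x z l - c l| + |(c l : ℝ)| := by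
        calc |(c' l : ℝ)| = |((c' l : ℝ) - x z l) + (x z l - c l) + c l| := by ring_nf
          _ ≤ |((c' l : ℝ) - x z l) + (x z l - c l)| + |(c l : ℝ)| := abs_add_le _ _
          _ ≤ _ := by linarith [abs_add_le ((c' l : ℝ) - x z l) (x z l - c l)]
      linarith
    · simp only; linarith
    · simp only
      calc load y r s (fun l => (c' l : ℝ)) ρ' ≤ load y r s (x z) ρ1 := by
            apply load_mono hr hsum
            intro j hj
            calc dist (y j) (x z) ≤ dist (y j) (fun l => (c' l : ℝ)) +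
                  dist (fun l => (c' l : ℝ)) (x z) := dist_triangle _ _ _
              _ ≤ r j + ρ1 := by linarith
        _ ≤ κ * (ρ1 / 2) ^ s := hzl.le
        _ ≤ κ * (ρ' : ℝ) ^ s := by
            apply mul_le_mul_of_nonneg_left _ hκpos.le
            exact Real.rpow_le_rpow (by positivity) hρ'1.le hs.le
    · simp only; linarith
    · intro x' hx'
      rw [Metric.mem_closedBall] at hx' ⊢
      exact hin2 x' (hin x' hx')
    · intro x' hx'
      rw [Metric.mem_closedBall] at hx'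
      exact (hz z hzι).2 x' (hin x' hx')
  -- initial state
  have hinit : Good (fun _ => 0, 1 / 4) := by
    refine ⟨fun l => ?_, by norm_num, by norm_num, ?_⟩
    · simp only; push_cast; rw [abs_zero]; norm_num
    · simp only
      have e : (((1 / 4 : ℚ)) : ℝ) = 1 / 4 := by norm_num
      rw [e]
      refine le_trans ?_ hsumle
      unfold load
      apply (load_summable hr hsum _ _).tsum_le_tsum _ hsum
      intro j
      have := Real.rpow_pos_of_pos (hr j) s
      split_ifs <;> linarith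
  choose! nxt hn1 hn2 hn3 hn4 using hstep
  let P : ℕ → (Fin d → ℚ) × ℚ := fun i => Nat.rec (fun _ => 0, 1 / 4) (fun i p => nxt i p) i
  have hPs : ∀ i, P (i + 1) = nxt i (P i) := fun i => rfl
  have hPg : ∀ i, Good (P i) := by
    intro i
    induction i with
    | zero => exact hinit
    | succ i ih => rw [hPs]; exact hn1 i _ ih
  let K : ℕ → Set (Fin d → ℝ) := fun i =>
    Metric.closedBall (fun l => ((P i).1 l : ℝ)) ((P i).2 : ℝ)
  have hKn : ∀ i, K (i + 1) ⊆ K i := by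
    intro i; simp only [K]; rw [hPs]; exact hn3 i _ (hPg i)
  have hKne : ∀ i, (K i).Nonempty := by
    intro i
    refine ⟨_, Metric.mem_closedBall_self ?_⟩
    have := (hPg i).2.1
    exact_mod_cast this.le
  obtain ⟨x, hx⟩ := IsCompact.nonempty_iInter_of_sequence_nonempty_isCompact_isClosed K hKn hKne
    (isCompact_closedBall _ _) (fun i => Metric.isClosed_closedBall)
  rw [Set.mem_iInter] at hx
  have hxF : ∀ N : ℕ, ∃ k ≥ N, x ∈ Hit k := by
    intro N
    obtain ⟨k, hk, hsub⟩ := hn4 N (P N) (hPg N)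
    refine ⟨k, hk, hsub ?_⟩
    have := hx (N + 1)
    simp only [K] at this
    rw [hPs] at this
    exact this
  obtain ⟨j, hj⟩ := hcov x hxF
  have hrad : ∀ i, ((P i).2 : ℝ) ≤ (1 / 2) ^ i := by
    intro i
    induction i with
    | zero => simp only [P]; push_cast; norm_num
    | succ i ih =>
      have := hn2 i _ (hPg i)
      rw [hPs, pow_succ]
      linarith
  have hle : ∀ i, r j ≤ (1 / 2) ^ i := by
    intro i
    obtain ⟨-, g2, -, g4⟩ := hPg i
    have g2r : (0 : ℝ) < (P i).2 := by exact_mod_cast g2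
    have hxi := hx i
    simp only [K, Metric.mem_closedBall] at hxi
    have htouch : dist (y j) (fun l => ((P i).1 l : ℝ)) ≤ r j + (P i).2 := by
      calc dist (y j) (fun l => ((P i).1 l : ℝ)) ≤ dist (y j) x + dist x _ := dist_triangle _ _ _
        _ ≤ r j + (P i).2 := by rw [dist_comm (y j) x]; exact add_le_add hj hxi
    have h2 : r j ^ s ≤ ((P i).2 : ℝ) ^ s := by
      calc r j ^ s ≤ load y r s _ _ := le_load hr hsum htouch
        _ ≤ κ * ((P i).2 : ℝ) ^ s := g4
        _ ≤ 1 * ((P i).2 : ℝ) ^ s := mul_le_mul_of_nonneg_right hκ1 (by positivity)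
        _ = _ := one_mul _
    exact ((Real.rpow_le_rpow_iff (hr j).le g2r.le hs).mp h2).trans (hrad i)
  have hlim : Tendsto (fun i : ℕ => ((1 : ℝ) / 2) ^ i) atTop (nhds 0) :=
    tendsto_pow_atTop_nhds_zero_of_lt_one (by norm_num) (by norm_num)
  have := ge_of_tendsto' hlim hle
  linarith [hr j]

end R357Jar
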