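import Pool.Agent.R357.Jar6
import Pool.Agent.R357.JarG

set_option autoImplicit false

open scoped BigOperators ENNReal
open Filter MeasureTheory

noncomputable section

namespace R357Jar

variable {d m : ℕ}

def KA (A1 : Fin d → Fin m → ℝ) : ℝ := 1 + ∑ l, ∑ j, |A1 l j|

lemma KA_ge (A1 : Fin d → Fin m → ℝ) : 1 ≤ KA A1 := by
  have : 0 ≤ ∑ l, ∑ j, |A1 l j| :=
    Finset.sum_nonneg fun _ _ => Finset.sum_nonneg fun _ _ => abs_nonneg _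
  unfold KA; linarith

lemma sum_abs_le (A1 : Fin d → Fin m → ℝ) (j : Fin m) : ∑ l, |A1 l j| ≤ KA A1 - 1 := by
  unfold KA
  rw [add_sub_cancel_left]
  apply Finset.sum_le_sum
  intro l _
  exact Finset.single_le_sum (f := fun j => |A1 l j|) (fun _ _ => abs_nonneg _)
    (Finset.mem_univ j)

lemma abs_sum_mul_le (A1 : Fin d → Fin m → ℝ) (j : Fin m) (v : Fin d → ℝ) {δ : ℝ} (hδ : 0 ≤ δ)
    (hv : ∀ l, |v l| ≤ δ) : |∑ l, v l * A1 l j| ≤ δ * (KA A1 - 1) := by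
  calc |∑ l, v l * A1 l j| ≤ ∑ l, |v l * A1 l j| := Finset.abs_sum_le_sum_abs _ _
    _ ≤ ∑ l, δ * |A1 l j| := by
        apply Finset.sum_le_sum
        intro l _
        rw [abs_mul]
        exact mul_le_mul_of_nonneg_right (hv l) (abs_nonneg _)
    _ = δ * ∑ l, |A1 l j| := by rw [Finset.mul_sum]
    _ ≤ _ := mul_le_mul_of_nonneg_left (sum_abs_le A1 j) hδ

/-- a hit. -/
def HitAt (A0 : Fin m → ℝ) (A1 : Fin d → Fin m → ℝ) (q : ℕ) (x : Fin d → ℝ) (θ : Fin d → ℝ)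
    (θ2 : Fin m → ℝ) (δ : ℝ) : Prop :=
  (∀ l, ∃ n : ℤ, |(q : ℝ) * x l - θ l - n| < δ) ∧
    ∀ j, ∃ n : ℤ, |lin A0 A1 q (fun l => (q : ℝ) * x l) j - θ2 j - n| < δ

structure St (d m : ℕ) where
  g : ZV d
  θ : Fin d → ℝ
  θ2 : Fin m → ℝ
  ψ : ℝ
  Q : ℕ

def Inv (A0 : Fin m → ℝ) (A1 : Fin d → Fin m → ℝ) (σ : St d m) : Prop :=
  0 < σ.ψ ∧ ∀ j, ∃ e : ℤ, σ.θ2 j = lin A0 A1 σ.g.1 (fun l => (σ.g.2 l : ℝ) + σ.θ l) j - e

def Rel (A0 : Fin m → ℝ) (A1 : Fin d → Fin m → ℝ) (s s1 C κ2 : ℝ) (k : ℕ)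
    (b : (Fin d → ℚ) × ℚ) (σ σ' : St d m) : Prop :=
  σ'.ψ ≤ σ.ψ / 2 ∧ σ.Q < σ'.Q ∧
  σ'.ψ ^ ((m : ℝ) + s) * (σ'.Q : ℝ) ^ ((d : ℝ) + 1 - s) < (1 / 2) ^ k ∧
  (∀ l, |σ'.θ l - σ.θ l| ≤ σ.ψ / 4) ∧ (∀ j, |σ'.θ2 j - σ.θ2 j| ≤ σ.ψ / 4) ∧
  ∃ (ι : Finset (ZV d)) (x : ZV d → (Fin d → ℝ)) (ρ1 : ℝ),
    0 < ρ1 ∧ ρ1 ≤ κ2 * b.2 ∧ ι.Nonempty ∧
    (∀ z ∈ ι, dist (x z) (fun l => (b.1 l : ℝ)) ≤ b.2 / 2 ∧
      ∀ x', dist x' (x z) ≤ ρ1 → ∀ (θh : Fin d → ℝ) (θh2 : Fin m → ℝ),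
        (∀ l, |θh l - σ'.θ l| ≤ σ'.ψ / 2) → (∀ j, |θh2 j - σ'.θ2 j| ≤ σ'.ψ / 2) →
        ∃ q : ℕ, σ.Q < q ∧ q ≤ σ'.Q ∧ HitAt A0 A1 q x' θh θh2 ((2 + KA A1) * σ'.ψ)) ∧
    (∀ (y : Fin d → ℝ) (r : ℝ), ρ1 ≤ r →
      ((ι.filter (fun z => dist (x z) y ≤ r)).card : ℝ) ≤ C * ι.card * (r / b.2) ^ s1)

lemma lin_split (A0 : Fin m → ℝ) (A1 : Fin d → Fin m → ℝ) (u : ZV d) (v : Fin d → ℝ) (j : Fin m) :
    lin A0 A1 u.1 (fun l => (u.2 l : ℝ) + v l) j = zlin A0 A1 u j + ∑ l, v l * A1 l j := by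
  simp only [lin, zlin, add_mul, Finset.sum_add_distrib]; ring

theorem exists_rel (A0 : Fin m → ℝ) (A1 : Fin d → Fin m → ℝ) (hd : 0 < d) (hm : 0 < m)
    {s s1 s3 s2 s' ω α : ℝ}
    (hs : 0 < s) (hs1 : 0 < s1) (h13 : s1 < s3) (h32 : s3 < s2) (h2' : s2 < s') (h1' : s1 ≤ s')
    (h2d : s2 ≤ d) (hsd : s < d + 1) (hα0 : 0 < α) (hαE : α < 1 + ω)
    (h1 : 1 + (1 + ω) * (m - 1 + s') < α * (d + m))
    (h2 : α * (d + m + 1) < (1 + ω) * (m + s))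
    (hinf : Approx A0 A1 ω) :
    ∃ C : ℝ, 0 < C ∧ ∀ (κ2 : ℝ) (_ : 0 < κ2) (k : ℕ) (b : (Fin d → ℚ) × ℚ)
      (_ : ∀ l, |(b.1 l : ℝ)| ≤ 1) (_ : 0 < b.2) (_ : (b.2 : ℝ) ≤ 1 / 4) (σ : St d m),
      Inv A0 A1 σ → ∃ σ', Inv A0 A1 σ' ∧ Rel A0 A1 s s1 C κ2 k b σ σ' := by
  obtain ⟨C, hC, hstage⟩ := stage A0 A1 hd hm hs hs1 h13 h32 h2' h1' h2d hsd hα0 hαE h1 h2 hinf
  refine ⟨C, hC, ?_⟩
  intro κ2 hκ2 k b hb1 hb2 hb3 σ hσ
  obtain ⟨hψσ, hθ2⟩ := hσ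
  have hρ : (0 : ℝ) < b.2 := by exact_mod_cast hb2
  have hKA := KA_ge A1
  set τ : ℝ := σ.ψ / (4 * KA A1) with hτ
  have hτpos : 0 < τ := by positivity
  have hτle : τ * KA A1 = σ.ψ / 4 := by rw [hτ]; field_simp
  set ε : ℝ := min (σ.ψ / 2) (min ((1 / 2) ^ k) κ2) with hε
  have hεpos : 0 < ε := by positivity
  obtain ⟨Q, ψ, hψ, hψε, hcost, hQ, hψρ, u, t, ht, hun, ι, x, qq, hne, hz, hfro⟩ :=
    hstage (fun l => (b.1 l : ℝ)) hb1 b.2 hρ hb3 σ.θ σ.g τ hτpos ε hεpos σ.Q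
  choose n hn using hun
  choose e he using hθ2
  have hQr : (0 : ℝ) < Q := by exact_mod_cast hQ
  let σ' : St d m :=
    { g := u, θ := fun l => σ.θ l + t l,
      θ2 := fun j => σ.θ2 j + (zlin A0 A1 (u - σ.g) j - n j) + ∑ l, t l * A1 l j,
      ψ := ψ, Q := Q }
  have hθ2' : ∀ j, σ'.θ2 j = lin A0 A1 u.1 (fun l => (u.2 l : ℝ) + σ.θ l + t l) j -
      ((e j + n j : ℤ) : ℝ) := by
    intro j
    show σ.θ2 j + (zlin A0 A1 (u - σ.g) j - n j) + ∑ l, t l * A1 l j = _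
    have e1 : lin A0 A1 u.1 (fun l => (u.2 l : ℝ) + σ.θ l + t l) j =
        zlin A0 A1 u j + ∑ l, (σ.θ l + t l) * A1 l j := by
      rw [← lin_split]; simp only [add_assoc]
    rw [he j, lin_split, zlin_sub, e1]
    simp only [add_mul, Finset.sum_add_distrib]
    push_cast; ring
  refine ⟨σ', ⟨hψ, ?_⟩, ?_, ?_, ?_, ?_, ?_, ι, x, ψ / Q, by positivity, ?_, hne, ?_, ?_⟩
  · intro j
    refine ⟨e j + n j, ?_⟩
    rw [hθ2' j]
    show _ = lin A0 A1 u.1 (fun l => (u.2 l : ℝ) + (σ.θ l + t l)) j - _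
    simp only [add_assoc]
  · exact (hψε.le).trans (min_le_left _ _)
  · obtain ⟨z, hzι⟩ := hne
    have h3 := (hz z hzι).2.1
    have h4 := (hz z hzι).2.2.1
    have : (σ.Q : ℤ) < Q := lt_of_lt_of_le h3 h4
    exact_mod_cast this
  · exact lt_of_lt_of_le hcost ((min_le_right _ _).trans (min_le_left _ _))
  · intro l
    show |σ.θ l + t l - σ.θ l| ≤ _
    rw [add_sub_cancel_left]
    refine (ht l).trans ?_
    rw [← hτle]; nlinarith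
  · intro j
    show |σ.θ2 j + (zlin A0 A1 (u - σ.g) j - n j) + ∑ l, t l * A1 l j - σ.θ2 j| ≤ _
    have e1 : σ.θ2 j + (zlin A0 A1 (u - σ.g) j - n j) + ∑ l, t l * A1 l j - σ.θ2 j =
        (zlin A0 A1 (u - σ.g) j - n j) + ∑ l, t l * A1 l j := by ring
    rw [e1]
    calc _ ≤ |zlin A0 A1 (u - σ.g) j - n j| + |∑ l, t l * A1 l j| := abs_add_le _ _
      _ ≤ τ + τ * (KA A1 - 1) := add_le_add (hn j) (abs_sum_mul_le A1 j t hτpos.le ht)
      _ = σ.ψ / 4 := by rw [← hτle]; ring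
  · rw [div_le_iff₀ hQr]
    refine hψρ.trans ?_
    have : ε ≤ κ2 := (min_le_right _ _).trans (min_le_right _ _)
    have h5 : 0 ≤ (b.2 : ℝ) * Q := by positivity
    nlinarith
  · intro z hzι
    obtain ⟨k1, k2, k3, k4, k5⟩ := hz z hzι
    refine ⟨?_, ?_⟩
    · rw [dist_pi_le_iff (by positivity)]
      intro l; rw [Real.dist_eq]; exact k1 l
    · intro x' hx' θh θh2 hθh hθh2
      have hqpos : 0 < qq z := lt_of_le_of_lt (by positivity) k2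
      obtain ⟨q, hq⟩ : ∃ q : ℕ, (q : ℤ) = qq z := ⟨(qq z).toNat, Int.toNat_of_nonneg hqpos.le⟩
      have hqr : (qq z : ℝ) = q := by rw [← hq]; push_cast; rfl
      have hq0 : (0 : ℝ) ≤ q := by positivity
      have hqQ : (q : ℝ) ≤ Q := by
        have : (q : ℤ) ≤ Q := by rw [hq]; exact k3
        exact_mod_cast this
      have hxl : ∀ l, |(q : ℝ) * (x' l - x z l)| ≤ ψ := by
        intro l
        have h3 := (dist_pi_le_iff (by positivity)).mp hx' l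
        rw [Real.dist_eq] at h3
        rw [abs_mul, abs_of_nonneg hq0]
        calc (q : ℝ) * |x' l - x z l| ≤ Q * (ψ / Q) :=
              mul_le_mul hqQ h3 (abs_nonneg _) hQr.le
          _ = ψ := by field_simp
      have hKA' := KA_ge A1
      refine ⟨q, ?_, ?_, ?_, ?_⟩
      · have : (σ.Q : ℤ) < q := by rw [hq]; exact k2
        exact_mod_cast this
      · exact_mod_cast hqQ
      · intro l
        obtain ⟨n1, hn1⟩ := k4 l
        refine ⟨n1, ?_⟩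
        rw [hqr] at hn1
        have e1 : (q : ℝ) * x' l - θh l - n1 = (q : ℝ) * (x' l - x z l) -
            (θh l - (σ.θ l + t l)) := by linarith
        rw [e1]
        have h3 := hxl l
        have h4 : |θh l - (σ.θ l + t l)| ≤ ψ / 2 := hθh l
        calc _ ≤ |(q : ℝ) * (x' l - x z l)| + |θh l - (σ.θ l + t l)| := abs_sub _ _
          _ ≤ ψ + ψ / 2 := add_le_add h3 h4
          _ < (2 + KA A1) * ψ := by nlinarith
      · intro j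
        obtain ⟨n1, hn1⟩ := k5 j
        refine ⟨n1 + (e j + n j), ?_⟩
        rw [hqr] at hn1
        have h4 : |θh2 j - σ'.θ2 j| ≤ ψ / 2 := hθh2 j
        have e1 : lin A0 A1 q (fun l => (q : ℝ) * x' l) j =
            lin A0 A1 q (fun l => (q : ℝ) * x z l) j +
              ∑ l, ((q : ℝ) * (x' l - x z l)) * A1 l j := by
          simp only [lin, mul_sub, sub_mul, Finset.sum_sub_distrib]; ring
        have e2 : lin A0 A1 q (fun l => (q : ℝ) * x' l) j - θh2 j -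
            ((n1 + (e j + n j) : ℤ) : ℝ) =
            (lin A0 A1 q (fun l => (q : ℝ) * x z l) j -
              lin A0 A1 u.1 (fun l => (u.2 l : ℝ) + σ.θ l + t l) j - n1) +
            ∑ l, ((q : ℝ) * (x' l - x z l)) * A1 l j - (θh2 j - σ'.θ2 j) := by
          rw [hθ2' j, e1]; push_cast; ring
        rw [e2]
        have h5 := abs_sum_mul_le A1 j (fun l => (q : ℝ) * (x' l - x z l)) hψ.le hxl
        calc _ ≤ |(lin A0 A1 q (fun l => (q : ℝ) * x z l) j -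
              lin A0 A1 u.1 (fun l => (u.2 l : ℝ) + σ.θ l + t l) j - n1) +
              ∑ l, ((q : ℝ) * (x' l - x z l)) * A1 l j| + |θh2 j - σ'.θ2 j| := abs_sub _ _
          _ ≤ (|lin A0 A1 q (fun l => (q : ℝ) * x z l) j -
              lin A0 A1 u.1 (fun l => (u.2 l : ℝ) + σ.θ l + t l) j - n1| +
              |∑ l, ((q : ℝ) * (x' l - x z l)) * A1 l j|) + |θh2 j - σ'.θ2 j| := by
              gcongr; exact abs_add_le _ _
          _ ≤ (ψ + ψ * (KA A1 - 1)) + ψ / 2 := add_le_add (add_le_add hn1 h5) h4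
          _ < (2 + KA A1) * ψ := by nlinarith
  · intro y r hr
    have := hfro y r hr
    refine le_trans (le_of_eq ?_) this
    congr 2
    apply Finset.filter_congr
    intro z _
    have hr0 : 0 ≤ r := le_trans (by positivity) hr
    rw [dist_pi_le_iff hr0]
    simp only [Real.dist_eq]

end R357Jar
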