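import Pool.Agent.R357.Jar7

set_option autoImplicit false

open scoped BigOperators ENNReal
open Filter MeasureTheory

noncomputable section

namespace R357Jar

variable {d m : ℕ}

/-- enumeration of valid rational balls with infinite repetition. -/
lemma exists_balls (d : ℕ) : ∃ ball : ℕ → (Fin d → ℚ) × ℚ,
    (∀ k, (∀ l, |((ball k).1 l : ℝ)| ≤ 1) ∧ 0 < (ball k).2 ∧ ((ball k).2 : ℝ) ≤ 1 / 4) ∧
    ∀ b : (Fin d → ℚ) × ℚ, (∀ l, |(b.1 l : ℝ)| ≤ 1) → 0 < b.2 → (b.2 : ℝ) ≤ 1 / 4 →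
      ∀ N : ℕ, ∃ k ≥ N, ball k = b := by
  classical
  obtain ⟨f, hf⟩ := exists_surjective_nat ((Fin d → ℚ) × ℚ)
  refine ⟨fun k => if (∀ l, |((f k.unpair.1).1 l : ℝ)| ≤ 1) ∧ 0 < (f k.unpair.1).2 ∧
    ((f k.unpair.1).2 : ℝ) ≤ 1 / 4 then f k.unpair.1 else (fun _ => 0, 1 / 4), ?_, ?_⟩
  · intro k
    by_cases h : (∀ l, |((f k.unpair.1).1 l : ℝ)| ≤ 1) ∧ 0 < (f k.unpair.1).2 ∧
      ((f k.unpair.1).2 : ℝ) ≤ 1 / 4
    · simp only [if_pos h]; exact h
    · simp only [if_neg h]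
      refine ⟨fun l => by simp, by norm_num, by norm_num⟩
  · intro b h1 h2 h3 N
    obtain ⟨a, ha⟩ := hf b
    refine ⟨Nat.pair a N, Nat.right_le_pair a N, ?_⟩
    have : (Nat.pair a N).unpair.1 = a := by rw [Nat.unpair_pair]
    simp only [this, ha]
    rw [if_pos ⟨h1, h2, h3⟩]

theorem main_core (A0 : Fin m → ℝ) (A1 : Fin d → Fin m → ℝ) (hd : 0 < d) (hm : 0 < m)
    {s ω : ℝ} (hs : 0 < s) (hsd : s < d) (hω : ((m : ℝ) + s) / (d + 1 - s) < ω)
    (hinf : Approx A0 A1 ω) :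
    ∃ ψ : ℕ → ℝ, (∀ q, 0 < ψ q) ∧ StrictAnti ψ ∧
      Summable (fun q : ℕ => ψ (q + 1) ^ ((m : ℝ) + s) * ((q : ℝ) + 1) ^ ((d : ℝ) - s)) ∧
      ∃ (θ : Fin d → ℝ) (θ2 : Fin m → ℝ),
        μH[s] {x : Fin d → ℝ | ∀ N : ℕ, ∃ q > N, HitAt A0 A1 q x θ θ2 (ψ q)} ≠ 0 := by
  classical
  have hmr : (1 : ℝ) ≤ m := by exact_mod_cast hm
  have hdr : (1 : ℝ) ≤ d := by exact_mod_cast hd
  have hds : 0 < (d : ℝ) + 1 - s := by linarith
  have hωpos : 0 < ω := lt_trans (by positivity) hω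
  -- parameters
  set E : ℝ := 1 + ω with hE
  have hEpos : 0 < E := by linarith
  have hslack : (d + m + 1 : ℝ) < E * (d + 1 - s) := by
    rw [div_lt_iff₀ hds] at hω
    rw [hE]; nlinarith
  set Δ : ℝ := E * (d + 1 - s) - (d + m + 1) with hΔ
  have hΔpos : 0 < Δ := by linarith
  set η : ℝ := min (d - s) (Δ / (2 * ((d + m + 1) * E))) with hη
  have hηpos : 0 < η := by
    apply lt_min (by linarith); positivity
  have hη1 : η ≤ d - s := min_le_left _ _
  have hη2 : (d + m + 1) * E * η ≤ Δ / 2 := by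
    calc (d + m + 1) * E * η ≤ (d + m + 1) * E * (Δ / (2 * ((d + m + 1) * E))) :=
          mul_le_mul_of_nonneg_left (min_le_right _ _) (by positivity)
      _ = Δ / 2 := by field_simp
  set s' : ℝ := s + η with hs'
  set L1 : ℝ := (1 + E * (m - 1 + s')) / (d + m) with hL1
  set L2 : ℝ := E * (m + s) / (d + m + 1) with hL2
  have hdm : (0 : ℝ) < d + m := by positivity
  have hdm1 : (0 : ℝ) < d + m + 1 := by positivity
  have hL12 : L1 < L2 := by
    rw [hL1, hL2, div_lt_div_iff₀ hdm hdm1]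
    have : E * (m + s) * (d + m) - (1 + E * (m - 1 + s')) * (d + m + 1) =
        Δ - (d + m + 1) * E * η := by
      rw [hΔ, hs']; ring
    linarith
  set α : ℝ := (L1 + L2) / 2 with hα
  have hL1pos : 0 < L1 := by
    have : 0 ≤ E * ((m : ℝ) - 1 + s') := by
      apply mul_nonneg hEpos.le; rw [hs']; linarith
    positivity
  have hαpos : 0 < α := by rw [hα]; linarith
  have hL2E : L2 < E := by
    rw [hL2, div_lt_iff₀ hdm1]
    apply mul_lt_mul_of_pos_left _ hEpos
    linarith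
  have hαE : α < 1 + ω := by rw [hα]; linarith
  have hc1 : 1 + (1 + ω) * (m - 1 + s') < α * (d + m) := by
    have : L1 < α := by rw [hα]; linarith
    rw [hL1, div_lt_iff₀ hdm] at this
    exact this
  have hc2 : α * (d + m + 1) < (1 + ω) * (m + s) := by
    have : α < L2 := by rw [hα]; linarith
    rw [hL2, lt_div_iff₀ hdm1] at this
    exact this
  obtain ⟨C, hC, hrel⟩ := exists_rel A0 A1 hd hm (s := s) (s1 := s + η / 4) (s3 := s + η / 2)
    (s2 := s + 3 * η / 4) (s' := s') (ω := ω) (α := α) hs (by linarith) (by linarith)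
    (by linarith) (by rw [hs']; linarith) (by rw [hs']; linarith) (by linarith) (by linarith)
    hαpos hαE hc1 hc2 hinf
  set s1 : ℝ := s + η / 4 with hs1
  have hs1s : s < s1 := by rw [hs1]; linarith
  -- κ2
  set Bd : ℝ := 2 ^ (-s) / 4 / (C * 2 ^ s1) with hBd
  have hBdpos : 0 < Bd := by positivity
  set κ2 : ℝ := min (1 / 2) (Bd ^ (1 / (s1 - s))) with hκ2
  have hκ2pos : 0 < κ2 := by
    apply lt_min (by norm_num); exact Real.rpow_pos_of_pos hBdpos _
  have hκC : C * 2 ^ s1 * κ2 ^ (s1 - s) ≤ 2 ^ (-s) / 4 := by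
    have h3 : κ2 ^ (s1 - s) ≤ Bd := by
      calc κ2 ^ (s1 - s) ≤ (Bd ^ (1 / (s1 - s))) ^ (s1 - s) :=
            Real.rpow_le_rpow hκ2pos.le (min_le_right _ _) (by linarith)
        _ = Bd := by
            rw [← Real.rpow_mul hBdpos.le, one_div_mul_cancel (by linarith), Real.rpow_one]
    calc C * 2 ^ s1 * κ2 ^ (s1 - s) ≤ C * 2 ^ s1 * Bd :=
          mul_le_mul_of_nonneg_left h3 (by positivity)
      _ = 2 ^ (-s) / 4 := by rw [hBd]; field_simp
  obtain ⟨ball, hball1, hball2⟩ := exists_balls d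
  -- the sequence of states
  have hnext : ∀ (k : ℕ) (σ : St d m), Inv A0 A1 σ → ∃ σ', Inv A0 A1 σ' ∧
      Rel A0 A1 s s1 C κ2 k (ball k) σ σ' := fun k σ hσ =>
    hrel κ2 hκ2pos k (ball k) (hball1 k).1 (hball1 k).2.1 (hball1 k).2.2 σ hσ
  choose! nxt hn1 hn2 using hnext
  let σ0 : St d m := { g := 0, θ := fun _ => 0, θ2 := fun _ => 0, ψ := 1, Q := 0 }
  have hσ0 : Inv A0 A1 σ0 := by
    refine ⟨one_pos, fun j => ⟨0, ?_⟩⟩
    simp [σ0, lin]
  let σ : ℕ → St d m := fun k => Nat.rec σ0 (fun k x => nxt k x) k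
  have hσs : ∀ k, σ (k + 1) = nxt k (σ k) := fun _ => rfl
  have hI : ∀ k, Inv A0 A1 (σ k) := by
    intro k
    induction k with
    | zero => exact hσ0
    | succ k ih => rw [hσs]; exact hn1 k _ ih
  have hR : ∀ k, Rel A0 A1 s s1 C κ2 k (ball k) (σ k) (σ (k + 1)) := by
    intro k; rw [hσs]; exact hn2 k _ (hI k)
  have hψpos : ∀ k, 0 < (σ k).ψ := fun k => (hI k).1
  have hψhalf : ∀ k, (σ (k + 1)).ψ ≤ (σ k).ψ / 2 := fun k => (hR k).1
  have hQlt : ∀ k, (σ k).Q < (σ (k + 1)).Q := fun k => (hR k).2.1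
  have hQmono : StrictMono (fun k => (σ k).Q) := strictMono_nat_of_lt_succ hQlt
  have hQge : ∀ k, k ≤ (σ k).Q := fun k => hQmono.le_apply
  have hψn : ∀ k n, (σ (k + n)).ψ ≤ (σ k).ψ * (1 / 2) ^ n := by
    intro k n
    induction n with
    | zero => simp
    | succ n ih =>
      have := hψhalf (k + n)
      rw [pow_succ]
      have e : k + (n + 1) = k + n + 1 := by ring
      rw [e]; linarith
  have hψanti : Antitone (fun k => (σ k).ψ) := antitone_nat_of_succ_le (fun k => by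
    have := hψhalf k; have := hψpos k; linarith)
  -- limits
  have hlim : ∀ (f : ℕ → ℝ), (∀ k, |f (k + 1) - f k| ≤ (σ k).ψ / 4) →
      ∃ L : ℝ, ∀ k, |L - f k| ≤ (σ k).ψ / 2 := by
    intro f hf
    have hcau : CauchySeq f := by
      apply cauchySeq_of_le_geometric (1 / 2) ((σ 0).ψ / 4) (by norm_num)
      intro n
      rw [dist_comm, Real.dist_eq]
      refine (hf n).trans ?_
      have := hψn 0 n
      rw [zero_add] at this
      linarith
    obtain ⟨L, hL⟩ := cauchySeq_tendsto_of_complete hcau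
    refine ⟨L, fun k => ?_⟩
    have hL' : Tendsto (fun n => f (n + k)) atTop (nhds L) := (tendsto_add_atTop_iff_nat k).mpr hL
    have h3 := dist_le_of_le_geometric_of_tendsto₀ (1 / 2) ((σ k).ψ / 4) (by norm_num)
      (f := fun n => f (n + k)) (fun n => ?_) hL'
    · rw [dist_comm, Real.dist_eq] at h3
      simp only [zero_add] at h3
      refine h3.trans (le_of_eq ?_)
      ring
    · show dist (f (n + k)) (f (n + 1 + k)) ≤ (σ k).ψ / 4 * (1 / 2) ^ n
      rw [dist_comm, Real.dist_eq]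
      have h4 := hf (n + k)
      have h5 := hψn k n
      have e : n + 1 + k = n + k + 1 := by ring
      rw [e]
      refine h4.trans ?_
      rw [add_comm n k]; linarith
  have hθl : ∀ l, ∃ L : ℝ, ∀ k, |L - (σ k).θ l| ≤ (σ k).ψ / 2 := fun l =>
    hlim (fun k => (σ k).θ l) (fun k => (hR k).2.2.2.1 l)
  have hθ2l : ∀ j, ∃ L : ℝ, ∀ k, |L - (σ k).θ2 j| ≤ (σ k).ψ / 2 := fun j =>
    hlim (fun k => (σ k).θ2 j) (fun k => (hR k).2.2.2.2.1 j)
  choose θ hθ using hθl
  choose θ2 hθ2 using hθ2l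
  -- the index function
  have hex : ∀ q : ℕ, ∃ k, q ≤ (σ k).Q := fun q => ⟨q, hQge q⟩
  let idx : ℕ → ℕ := fun q => Nat.find (hex q)
  have hidx_mono : Monotone idx := by
    intro q q' h
    exact Nat.find_min' (hex q) (h.trans (Nat.find_spec (hex q')))
  have hidx : ∀ k q, (σ k).Q < q → q ≤ (σ (k + 1)).Q → idx q = k + 1 := by
    intro k q h3 h4
    apply le_antisymm (Nat.find_min' (hex q) h4)
    by_contra hlt
    rw [not_le] at hlt
    have h5 : idx q ≤ k := Nat.lt_succ_iff.mp hlt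
    have h6 : q ≤ (σ (idx q)).Q := Nat.find_spec (hex q)
    have h7 : (σ (idx q)).Q ≤ (σ k).Q := hQmono.monotone h5
    omega
  have hKA := KA_ge A1
  set KB : ℝ := 2 + KA A1 with hKB
  have hKBpos : 0 < KB := by linarith
  let Ψ : ℕ → ℝ := fun q => KB * (σ (idx q)).ψ * (1 + 1 / ((q : ℝ) + 1))
  have hΨpos : ∀ q, 0 < Ψ q := by
    intro q
    have := hψpos (idx q)
    simp only [Ψ]; positivity
  have hΨanti : StrictAnti Ψ := by
    intro q q' h
    simp only [Ψ]
    have h3 : (σ (idx q')).ψ ≤ (σ (idx q)).ψ := hψanti (hidx_mono h.le)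
    have h4 : (1 : ℝ) / ((q' : ℝ) + 1) < 1 / ((q : ℝ) + 1) := by
      apply one_div_lt_one_div_of_lt (by positivity)
      have : (q : ℝ) < q' := by exact_mod_cast h
      linarith
    have h5 := hψpos (idx q)
    calc KB * (σ (idx q')).ψ * (1 + 1 / ((q' : ℝ) + 1)) ≤
          KB * (σ (idx q)).ψ * (1 + 1 / ((q' : ℝ) + 1)) := by
          apply mul_le_mul_of_nonneg_right _ (by positivity)
          exact mul_le_mul_of_nonneg_left h3 hKBpos.le
      _ < _ := by
          apply mul_lt_mul_of_pos_left _ (by positivity)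
          linarith
  have hms : 0 < (m : ℝ) + s := by positivity
  refine ⟨Ψ, hΨpos, hΨanti, ?_, θ, θ2, ?_⟩
  · -- summability
    set f : ℕ → ℝ := fun q => Ψ (q + 1) ^ ((m : ℝ) + s) * ((q : ℝ) + 1) ^ ((d : ℝ) - s) with hf
    have hf0 : ∀ q, 0 ≤ f q := by
      intro q
      have := hΨpos (q + 1)
      simp only [hf]; positivity
    set D : ℝ := (2 * KB) ^ ((m : ℝ) + s) with hD
    have hDpos : 0 < D := by positivity
    have hblock : ∀ k, ∑ q ∈ Finset.Ico (σ k).Q (σ (k + 1)).Q, f q ≤ D * (1 / 2) ^ k := by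
      intro k
      have hQk : (0 : ℝ) < (σ (k + 1)).Q := by
        have : 0 < (σ (k + 1)).Q := lt_of_le_of_lt (Nat.zero_le _) (hQlt k)
        exact_mod_cast this
      have hterm : ∀ q ∈ Finset.Ico (σ k).Q (σ (k + 1)).Q, f q ≤
          (D * (σ (k + 1)).ψ ^ ((m : ℝ) + s)) * ((σ (k + 1)).Q : ℝ) ^ ((d : ℝ) - s) := by
        intro q hq
        rw [Finset.mem_Ico] at hq
        simp only [hf]
        have hi : idx (q + 1) = k + 1 := hidx k (q + 1) (by omega) (by omega)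
        apply mul_le_mul _ _ (by positivity) (by have := hψpos (k + 1); positivity)
        · rw [hD, ← Real.mul_rpow (by positivity) (hψpos (k + 1)).le]
          apply Real.rpow_le_rpow (hΨpos _).le _ hms.le
          simp only [Ψ, hi]
          have h3 : (1 : ℝ) / (((q + 1 : ℕ) : ℝ) + 1) ≤ 1 := by
            rw [div_le_one (by positivity)]
            have : (0 : ℝ) ≤ ((q + 1 : ℕ) : ℝ) := by positivity
            linarith
          have h4 := hψpos (k + 1)
          have h5 : 0 < KB * (σ (k + 1)).ψ := by positivity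
          nlinarith
        · apply Real.rpow_le_rpow (by positivity) _ (by linarith)
          have : q + 1 ≤ (σ (k + 1)).Q := hq.2
          exact_mod_cast this
      calc ∑ q ∈ Finset.Ico (σ k).Q (σ (k + 1)).Q, f q
          ≤ ∑ _q ∈ Finset.Ico (σ k).Q (σ (k + 1)).Q,
            (D * (σ (k + 1)).ψ ^ ((m : ℝ) + s)) * ((σ (k + 1)).Q : ℝ) ^ ((d : ℝ) - s) :=
            Finset.sum_le_sum hterm
        _ = (((σ (k + 1)).Q - (σ k).Q : ℕ) : ℝ) *
            ((D * (σ (k + 1)).ψ ^ ((m : ℝ) + s)) * ((σ (k + 1)).Q : ℝ) ^ ((d : ℝ) - s)) := by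
            rw [Finset.sum_const, Nat.card_Ico, nsmul_eq_mul]
        _ ≤ ((σ (k + 1)).Q : ℝ) *
            ((D * (σ (k + 1)).ψ ^ ((m : ℝ) + s)) * ((σ (k + 1)).Q : ℝ) ^ ((d : ℝ) - s)) := by
            apply mul_le_mul_of_nonneg_right _ (by have := hψpos (k + 1); positivity)
            exact_mod_cast Nat.sub_le _ _
        _ = D * ((σ (k + 1)).ψ ^ ((m : ℝ) + s) * ((σ (k + 1)).Q : ℝ) ^ ((d : ℝ) + 1 - s)) := by
            have e : ((σ (k + 1)).Q : ℝ) ^ ((d : ℝ) + 1 - s) =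
                ((σ (k + 1)).Q : ℝ) ^ ((d : ℝ) - s) * ((σ (k + 1)).Q : ℝ) := by
              have : (d : ℝ) + 1 - s = (d - s) + 1 := by ring
              rw [this, Real.rpow_add hQk, Real.rpow_one]
            rw [e]; ring
        _ ≤ D * (1 / 2) ^ k := mul_le_mul_of_nonneg_left (hR k).2.2.1.le hDpos.le
    have hpart : ∀ K, ∑ q ∈ Finset.range (σ K).Q, f q ≤ D * (2 - 2 * (1 / 2) ^ K) := by
      intro K
      induction K with
      | zero =>
        have : (σ 0).Q = 0 := rfl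
        rw [this]; simp
      | succ K ih =>
        rw [← Finset.sum_range_add_sum_Ico f (hQlt K).le]
        have := hblock K
        rw [pow_succ]
        nlinarith
    apply summable_of_sum_range_le (c := D * 2) hf0
    intro n
    calc ∑ q ∈ Finset.range n, f q ≤ ∑ q ∈ Finset.range (σ n).Q, f q := by
          apply Finset.sum_le_sum_of_subset_of_nonneg
          · intro x hx
            rw [Finset.mem_range] at hx ⊢
            exact lt_of_lt_of_le hx (hQge n)
          · intro i _ _; exact hf0 i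
      _ ≤ D * (2 - 2 * (1 / 2) ^ n) := hpart n
      _ ≤ D * 2 := by
          apply mul_le_mul_of_nonneg_left _ hDpos.le
          have : (0 : ℝ) < (1 / 2) ^ n := by positivity
          linarith
  · -- positivity of the Hausdorff measure
    let Hit : ℕ → Set (Fin d → ℝ) := fun k => {x | ∃ q : ℕ, (σ k).Q < q ∧ q ≤ (σ (k + 1)).Q ∧
      HitAt A0 A1 q x θ θ2 (KB * (σ (k + 1)).ψ)}
    have hgame := game (I := ZV d) hs hs1s hC (min_le_left _ _ : κ2 ≤ 1 / 2) hκC Hit ?_
    · intro hzero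
      apply hgame
      apply measure_mono_null _ hzero
      intro x hx N
      obtain ⟨k, hk, q, hq1, hq2, hq3⟩ := hx N
      refine ⟨q, lt_of_le_of_lt (hk.trans (hQge k)) hq1, ?_⟩
      have hlt : KB * (σ (k + 1)).ψ ≤ Ψ q := by
        simp only [Ψ, hidx k q hq1 hq2]
        have h4 := hψpos (k + 1)
        have h5 : 0 < KB * (σ (k + 1)).ψ := by positivity
        have h6 : (0 : ℝ) < 1 / ((q : ℝ) + 1) := by positivity
        nlinarith
      refine ⟨fun l => ?_, fun j => ?_⟩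
      · obtain ⟨n, hn⟩ := hq3.1 l
        exact ⟨n, lt_of_lt_of_le hn hlt⟩
      · obtain ⟨n, hn⟩ := hq3.2 j
        exact ⟨n, lt_of_lt_of_le hn hlt⟩
    · intro c ρ hc hρ hρ1 N
      obtain ⟨k, hk, hbk⟩ := hball2 (c, ρ) hc hρ hρ1 N
      obtain ⟨-, -, -, -, -, ι, x, ρ1, r1, r2, r3, r4, r5⟩ := hR k
      rw [hbk] at r2 r4 r5
      refine ⟨k, hk, ι, x, ρ1, r1, r2, r3, ?_, r5⟩
      intro z hz
      obtain ⟨h3, h4⟩ := r4 z hz
      refine ⟨h3, fun x' hx' => ?_⟩
      exact h4 x' hx' θ θ2 (fun l => hθ l (k + 1)) (fun j => hθ2 j (k + 1))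

end R357Jar
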